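import Pool.Agent.Q90.PI.Stm

/-! Job PI2: the algebraic inequality. -/

set_option autoImplicit false
set_option linter.all false

open MeasureTheory Set Filter Topology Metric
open scoped ContDiff ENNReal

namespace Pool.Agent.Q90.PI

lemma inner3 (x y : E) : inner ℝ x y = x 0 * y 0 + x 1 * y 1 + x 2 * y 2 := by
  rw [PiLp.inner_apply, Fin.sum_univ_three]
  simp only [RCLike.inner_apply, conj_trivial]
  ring

lemma nsq3 (x : E) : ‖x‖ ^ 2 = x 0 ^ 2 + x 1 ^ 2 + x 2 ^ 2 := by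
  rw [EuclideanSpace.real_norm_sq_eq, Fin.sum_univ_three]

lemma vec3 (X : E) : X = X 0 • e 0 + X 1 • e 1 + X 2 • e 2 := by
  ext i
  fin_cases i <;> simp [e]

lemma clm3 (L : E →L[ℝ] ℝ) (X : E) : L X = X 0 * L (e 0) + X 1 * L (e 1) + X 2 * L (e 2) := by
  conv_lhs => rw [vec3 X]
  rw [map_add, map_add, map_smul, map_smul, map_smul]
  rfl

lemma e_apply3 (i j : Fin 3) : e i j = if j = i then 1 else 0 := by
  simp [e, EuclideanSpace.single_apply]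

/-- the components of the metric -/
lemma comp_eq (S : Spacetime) (U V : E → ℝ) (x : E) (hx : x ≠ 0) (i j : Fin 3) :
    comp S U V i j x = S.r (U x, V x) ^ 2 / ‖x‖ ^ 4 *
      ((x 0 ^ 2 + x 1 ^ 2 + x 2 ^ 2) * (if i = j then 1 else 0) - x i * x j) -
      S.w (U x, V x) / 2 * (fderiv ℝ U x (e i) * fderiv ℝ V x (e j) +
        fderiv ℝ U x (e j) * fderiv ℝ V x (e i)) := by
  have hn : ‖x‖ ≠ 0 := norm_ne_zero_iff.2 hx
  have h1 : inner ℝ (e i) (e j) = if i = j then (1 : ℝ) else 0 := by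
    rw [inner3]
    fin_cases i <;> fin_cases j <;> simp [e_apply3]
  have h2 : ∀ i, inner ℝ x (e i) = x i := by
    intro i
    rw [inner3]
    fin_cases i <;> simp [e_apply3]
  unfold comp metric
  rw [h1, h2, h2, ← nsq3]
  field_simp

/-- the metric in coordinates -/
lemma metric_eq (S : Spacetime) (U V : E → ℝ) (x X : E) (hx : x ≠ 0) :
    metric S U V x X X = S.r (U x, V x) ^ 2 / ‖x‖ ^ 4 *
      ((x 0 ^ 2 + x 1 ^ 2 + x 2 ^ 2) * (X 0 ^ 2 + X 1 ^ 2 + X 2 ^ 2) -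
        (x 0 * X 0 + x 1 * X 1 + x 2 * X 2) ^ 2) -
      S.w (U x, V x) * (fderiv ℝ U x X * fderiv ℝ V x X) := by
  have hn : ‖x‖ ≠ 0 := norm_ne_zero_iff.2 hx
  unfold metric
  rw [← nsq3 x, ← nsq3 X, ← inner3, real_inner_self_eq_norm_sq]
  field_simp
  ring

/-- the polynomial identity -/
lemma key_id (x0 x1 x2 a0 a1 a2 b0 b1 b2 X0 X1 X2 k w : ℝ) :
    k ^ 2 * (x0 ^ 2 + x1 ^ 2 + x2 ^ 2) * (a0 * x0 + a1 * x1 + a2 * x2) ^ 2 *
      (k * ((x0 ^ 2 + x1 ^ 2 + x2 ^ 2) * (X0 ^ 2 + X1 ^ 2 + X2 ^ 2) -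
        (x0 * X0 + x1 * X1 + x2 * X2) ^ 2) -
        w * ((X0 * a0 + X1 * a1 + X2 * a2) * (X0 * b0 + X1 * b1 + X2 * b2))) -
      ((k * ((x0 ^ 2 + x1 ^ 2 + x2 ^ 2) * 1 - x0 * x0) - w / 2 * (a0 * b0 + a0 * b0)) *
        (k * ((x0 ^ 2 + x1 ^ 2 + x2 ^ 2) * 1 - x1 * x1) - w / 2 * (a1 * b1 + a1 * b1)) *
        (k * ((x0 ^ 2 + x1 ^ 2 + x2 ^ 2) * 1 - x2 * x2) - w / 2 * (a2 * b2 + a2 * b2)) -
       (k * ((x0 ^ 2 + x1 ^ 2 + x2 ^ 2) * 1 - x0 * x0) - w / 2 * (a0 * b0 + a0 * b0)) *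
        (k * ((x0 ^ 2 + x1 ^ 2 + x2 ^ 2) * 0 - x1 * x2) - w / 2 * (a1 * b2 + a2 * b1)) *
        (k * ((x0 ^ 2 + x1 ^ 2 + x2 ^ 2) * 0 - x2 * x1) - w / 2 * (a2 * b1 + a1 * b2)) -
       (k * ((x0 ^ 2 + x1 ^ 2 + x2 ^ 2) * 0 - x0 * x1) - w / 2 * (a0 * b1 + a1 * b0)) *
        (k * ((x0 ^ 2 + x1 ^ 2 + x2 ^ 2) * 0 - x1 * x0) - w / 2 * (a1 * b0 + a0 * b1)) *
        (k * ((x0 ^ 2 + x1 ^ 2 + x2 ^ 2) * 1 - x2 * x2) - w / 2 * (a2 * b2 + a2 * b2)) +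
       (k * ((x0 ^ 2 + x1 ^ 2 + x2 ^ 2) * 0 - x0 * x1) - w / 2 * (a0 * b1 + a1 * b0)) *
        (k * ((x0 ^ 2 + x1 ^ 2 + x2 ^ 2) * 0 - x1 * x2) - w / 2 * (a1 * b2 + a2 * b1)) *
        (k * ((x0 ^ 2 + x1 ^ 2 + x2 ^ 2) * 0 - x2 * x0) - w / 2 * (a2 * b0 + a0 * b2)) +
       (k * ((x0 ^ 2 + x1 ^ 2 + x2 ^ 2) * 0 - x0 * x2) - w / 2 * (a0 * b2 + a2 * b0)) *
        (k * ((x0 ^ 2 + x1 ^ 2 + x2 ^ 2) * 0 - x1 * x0) - w / 2 * (a1 * b0 + a0 * b1)) *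
        (k * ((x0 ^ 2 + x1 ^ 2 + x2 ^ 2) * 0 - x2 * x1) - w / 2 * (a2 * b1 + a1 * b2)) -
       (k * ((x0 ^ 2 + x1 ^ 2 + x2 ^ 2) * 0 - x0 * x2) - w / 2 * (a0 * b2 + a2 * b0)) *
        (k * ((x0 ^ 2 + x1 ^ 2 + x2 ^ 2) * 1 - x1 * x1) - w / 2 * (a1 * b1 + a1 * b1)) *
        (k * ((x0 ^ 2 + x1 ^ 2 + x2 ^ 2) * 0 - x2 * x0) - w / 2 * (a2 * b0 + a0 * b2))) *
        (X0 * a0 + X1 * a1 + X2 * a2) ^ 2 =
    k * ((k * (a0 * x0 + a1 * x1 + a2 * x2) *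
          ((x0 ^ 2 + x1 ^ 2 + x2 ^ 2) * X0 - (x0 * X0 + x1 * X1 + x2 * X2) * x0) -
          w / 2 * (X0 * a0 + X1 * a1 + X2 * a2) * ((a0 * x0 + a1 * x1 + a2 * x2) * b0 -
            (b0 * x0 + b1 * x1 + b2 * x2) * a0)) ^ 2 +
        (k * (a0 * x0 + a1 * x1 + a2 * x2) *
          ((x0 ^ 2 + x1 ^ 2 + x2 ^ 2) * X1 - (x0 * X0 + x1 * X1 + x2 * X2) * x1) -
          w / 2 * (X0 * a0 + X1 * a1 + X2 * a2) * ((a0 * x0 + a1 * x1 + a2 * x2) * b1 -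
            (b0 * x0 + b1 * x1 + b2 * x2) * a1)) ^ 2 +
        (k * (a0 * x0 + a1 * x1 + a2 * x2) *
          ((x0 ^ 2 + x1 ^ 2 + x2 ^ 2) * X2 - (x0 * X0 + x1 * X1 + x2 * X2) * x2) -
          w / 2 * (X0 * a0 + X1 * a1 + X2 * a2) * ((a0 * x0 + a1 * x1 + a2 * x2) * b2 -
            (b0 * x0 + b1 * x1 + b2 * x2) * a2)) ^ 2) := by
  ring

/-- one half of the inequality -/
lemma half (S : Spacetime) (U V : E → ℝ) (x X : E) (hx : x ≠ 0) (h1 : metric S U V x X X ≤ 1) :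
    vol S U V x * |fderiv ℝ U x X| ≤ S.r (U x, V x) ^ 2 / ‖x‖ ^ 3 * |fderiv ℝ U x x| := by
  have hn : 0 < ‖x‖ := norm_pos_iff.2 hx
  obtain ⟨k, hk⟩ : ∃ k, k = S.r (U x, V x) ^ 2 / ‖x‖ ^ 4 := ⟨_, rfl⟩
  have hk0 : 0 ≤ k := by rw [hk]; positivity
  obtain ⟨w, hw⟩ : ∃ w, w = S.w (U x, V x) := ⟨_, rfl⟩
  obtain ⟨dd, hdd⟩ : ∃ dd, dd = Matrix.det (Matrix.of fun i j : Fin 3 => comp S U V i j x) := ⟨_, rfl⟩
  have hid := key_id (x 0) (x 1) (x 2) (fderiv ℝ U x (e 0)) (fderiv ℝ U x (e 1)) (fderiv ℝ U x (e 2))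
    (fderiv ℝ V x (e 0)) (fderiv ℝ V x (e 1)) (fderiv ℝ V x (e 2)) (X 0) (X 1) (X 2) k w
  have hdet := hdd
  rw [Matrix.det_fin_three] at hdet
  simp only [Matrix.of_apply, comp_eq S U V x hx, ← hk, ← hw, reduceIte, Fin.isValue, eq_self,
    show ((0 : Fin 3) = 1) = False by simp, show ((1 : Fin 3) = 0) = False by simp,
    show ((0 : Fin 3) = 2) = False by simp, show ((2 : Fin 3) = 0) = False by simp,
    show ((1 : Fin 3) = 2) = False by simp, show ((2 : Fin 3) = 1) = False by simp] at hdet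
  rw [← hdet] at hid
  have hX := clm3 (fderiv ℝ U x) X
  have hX' := clm3 (fderiv ℝ V x) X
  have hx' : fderiv ℝ U x x = fderiv ℝ U x (e 0) * x 0 + fderiv ℝ U x (e 1) * x 1 +
      fderiv ℝ U x (e 2) * x 2 := by
    rw [clm3 (fderiv ℝ U x) x]
    ring
  have hm := metric_eq S U V x X hx
  rw [← hk, ← hw, hX, hX'] at hm
  rw [← hm, ← hX, ← hx', ← nsq3] at hid
  have hrhs : dd * fderiv ℝ U x X ^ 2 ≤ k ^ 2 * ‖x‖ ^ 2 * fderiv ℝ U x x ^ 2 * metric S U V x X X := by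
    have h0 : 0 ≤ k ^ 2 * ‖x‖ ^ 2 * fderiv ℝ U x x ^ 2 * metric S U V x X X -
        dd * fderiv ℝ U x X ^ 2 := by
      rw [hid]
      positivity
    linarith
  have h2 : dd * fderiv ℝ U x X ^ 2 ≤ (S.r (U x, V x) ^ 2 / ‖x‖ ^ 3 * |fderiv ℝ U x x|) ^ 2 := by
    have h3 : (S.r (U x, V x) ^ 2 / ‖x‖ ^ 3 * |fderiv ℝ U x x|) ^ 2 =
        k ^ 2 * ‖x‖ ^ 2 * fderiv ℝ U x x ^ 2 := by
      rw [mul_pow, sq_abs, hk]
      field_simp
    rw [h3]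
    have h4 : 0 ≤ k ^ 2 * ‖x‖ ^ 2 * fderiv ℝ U x x ^ 2 := by positivity
    nlinarith [mul_le_mul_of_nonneg_left h1 h4]
  have h5 : vol S U V x = √dd := by rw [hdd]; rfl
  rw [h5]
  rcases le_or_gt 0 dd with hd | hd
  · refine abs_le_of_sq_le_sq' ?_ (by positivity) |>.2
    rw [mul_pow, Real.sq_sqrt hd, sq_abs]
    exact h2
  · rw [Real.sqrt_eq_zero_of_nonpos hd.le, zero_mul]
    positivity

lemma metric_swap (S : Spacetime) (U V : E → ℝ) (T : Spacetime) (hr : ∀ p, T.r p = S.r p.swap)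
    (hw : ∀ p, T.w p = S.w p.swap) (x X Y : E) : metric T V U x X Y = metric S U V x X Y := by
  unfold metric
  rw [hr, hw]
  simp only [Prod.swap_prod_mk]
  ring

/-- the spacetime with the null coordinates exchanged -/
def flipS (S : Spacetime) : Spacetime where
  Q := Prod.swap ⁻¹' S.Q
  r := fun p => S.r p.swap
  w := fun p => S.w p.swap
  isOpen := S.isOpen.preimage continuous_swap
  smooth_r := S.smooth_r.comp (by
    have : ContDiff ℝ ∞ (fun p : ℝ × ℝ => p.swap) := contDiff_snd.prodMk contDiff_fst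
    exact this.contDiffOn) (fun p hp => hp)
  smooth_w := S.smooth_w.comp (by
    have : ContDiff ℝ ∞ (fun p : ℝ × ℝ => p.swap) := contDiff_snd.prodMk contDiff_fst
    exact this.contDiffOn) (fun p hp => hp)
  r_pos := fun p hp => S.r_pos _ hp
  w_pos := fun p hp => S.w_pos _ hp

/-- **The algebraic inequality** (job PI2). -/
theorem alg : S_alg := by
  intro S U V x X hx h1
  refine ⟨half S U V x X hx h1, ?_⟩
  have hm : ∀ Y Z, metric (flipS S) V U x Y Z = metric S U V x Y Z := fun Y Z =>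
    metric_swap S U V (flipS S) (fun _ => rfl) (fun _ => rfl) x Y Z
  have h2 := half (flipS S) V U x X hx (by rw [hm]; exact h1)
  have h3 : vol (flipS S) V U x = vol S U V x := by
    unfold vol comp
    simp only [hm]
  rw [h3] at h2
  exact h2

end Pool.Agent.Q90.PI
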