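import Pool.Agent.Q90.PI.Stm

/-! The area of a level sphere (job PI6). -/

set_option autoImplicit false

open MeasureTheory Set Filter Topology Metric
open scoped ContDiff ENNReal

namespace Pool.Agent.Q90.PI

namespace Area

/-- a function with positive radial derivative increases along the rays -/
theorem ray_mono {f : E → ℝ} (hf : ContDiffOn ℝ ∞ f {0}ᶜ)
    (hpos : ∀ x, x ≠ 0 → 0 < fderiv ℝ f x x) {x : E} (hx : x ≠ 0) {s t : ℝ} (hs : 0 < s)
    (hst : s ≤ t) : f (s • x) ≤ f (t • x) := by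
  have hd : ∀ y : E, y ≠ 0 → HasFDerivAt f (fderiv ℝ f y) y := by
    intro y hy
    have h1 : ContDiffAt ℝ ∞ f y := hf.contDiffAt (isOpen_compl_singleton.mem_nhds hy)
    exact (h1.differentiableAt (by simp)).hasFDerivAt
  have hder : ∀ r : ℝ, 0 < r → HasDerivAt (fun r : ℝ => f (r • x)) (fderiv ℝ f (r • x) x) r := by
    intro r hr
    have h1 : HasDerivAt (fun r : ℝ => r • x) x r := by
      have := (hasDerivAt_id r).smul_const x
      simpa using this
    have h2 := hd (r • x) (smul_ne_zero hr.ne' hx)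
    exact h2.comp_hasDerivAt r h1
  have hmono : MonotoneOn (fun r : ℝ => f (r • x)) (Ioi 0) := by
    apply monotoneOn_of_deriv_nonneg (convex_Ioi 0)
    · intro r hr
      exact (hder r hr).continuousAt.continuousWithinAt
    · intro r hr
      rw [interior_Ioi] at hr
      exact (hder r hr).differentiableAt.differentiableWithinAt
    · intro r hr
      rw [interior_Ioi] at hr
      rw [(hder r hr).deriv]
      have h3 := hpos (r • x) (smul_ne_zero (ne_of_gt hr) hx)
      rw [map_smul, smul_eq_mul] at h3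
      exact (pos_of_mul_pos_right h3 (le_of_lt hr)).le
  exact hmono hs (lt_of_lt_of_le hs hst) hst

theorem chi_deriv_nonneg (t : ℝ) : 0 ≤ deriv Real.smoothTransition t :=
  Real.smoothTransition.monotone.deriv_nonneg

theorem chi_deriv_neg {t : ℝ} (ht : t < 0) : deriv Real.smoothTransition t = 0 := by
  have h1 : Real.smoothTransition =ᶠ[𝓝 t] fun _ => (0 : ℝ) := by
    filter_upwards [Iio_mem_nhds ht] with s hs
    exact Real.smoothTransition.zero_of_nonpos (le_of_lt hs)
  rw [h1.deriv_eq, deriv_const]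

theorem chi_deriv_one {t : ℝ} (ht : 1 < t) : deriv Real.smoothTransition t = 0 := by
  have h1 : Real.smoothTransition =ᶠ[𝓝 t] fun _ => (1 : ℝ) := by
    filter_upwards [Ioi_mem_nhds ht] with s hs
    exact Real.smoothTransition.one_of_one_le (le_of_lt hs)
  rw [h1.deriv_eq, deriv_const]

end Area

/-- **The area of a level sphere** -/
theorem area_le (h1 : S_vol) (h2 : S_ibp) (h3 : S_rad) : S_area := by
  intro S U V hS f hf hpos hineq c ε R r₀ hε hin hout hr₀
  obtain ⟨hvolpos, hcomp, hvol⟩ := h1 S U V hS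
  -- basic facts on `f`
  have hfd : ∀ y : E, y ≠ 0 → HasFDerivAt f (fderiv ℝ f y) y := by
    intro y hy
    have h4 : ContDiffAt ℝ ∞ f y := hf.contDiffAt (isOpen_compl_singleton.mem_nhds hy)
    exact (h4.differentiableAt (by simp)).hasFDerivAt
  obtain ⟨x₁, hx₁⟩ : ∃ x₁ : E, ‖x₁‖ = ε := by
    obtain ⟨x, hx⟩ := exists_norm_eq E hε.le
    exact ⟨x, hx⟩
  have hx₁0 : x₁ ≠ 0 := by
    intro h
    rw [h, norm_zero] at hx₁
    exact hε.ne hx₁
  have hεR : ε < R := by
    by_contra hc
    push Not at hc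
    have h4 := hin x₁ hx₁0 hx₁.le
    have h5 := hout x₁ (by rw [hx₁]; exact hc)
    linarith
  have hR0 : 0 < R := hε.trans hεR
  -- the sphere of radius `ε`
  have hsph : IsCompact (sphere (0 : E) ε) := isCompact_sphere 0 ε
  have hfc : ContinuousOn f {0}ᶜ := hf.continuousOn
  have hsph0 : sphere (0 : E) ε ⊆ {0}ᶜ := by
    intro x hx h0
    rw [mem_singleton_iff] at h0
    rw [h0, mem_sphere, dist_self] at hx
    exact hε.ne hx
  obtain ⟨x₂, hx₂, hx₂max⟩ := hsph.exists_isMaxOn ⟨x₁, by simpa using hx₁⟩ (hfc.mono hsph0)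
  obtain ⟨c₁, hc₁⟩ : ∃ c₁, c₁ = f x₂ := ⟨_, rfl⟩
  have hc₁c : c₁ < c := by
    rw [hc₁]
    exact hin x₂ (hsph0 hx₂) (by rw [mem_sphere_zero_iff_norm] at hx₂; exact hx₂.le)
  have hsmall : ∀ x : E, x ≠ 0 → ‖x‖ ≤ ε → f x ≤ c₁ := by
    intro x hx hxε
    have hxn : 0 < ‖x‖ := norm_pos_iff.2 hx
    have h4 := Area.ray_mono hf hpos hx (s := 1) (t := ε / ‖x‖) one_pos (by
      rw [le_div_iff₀ hxn, one_mul]
      exact hxε)
    rw [one_smul] at h4
    have h5 : (ε / ‖x‖) • x ∈ sphere (0 : E) ε := by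
      rw [mem_sphere_zero_iff_norm, norm_smul, norm_div, norm_norm, Real.norm_of_nonneg hε.le]
      field_simp
    have h6 := hx₂max h5
    rw [hc₁]
    exact h4.trans h6
  -- the area radius
  obtain ⟨g, hg⟩ : ∃ g : E → ℝ, ∀ x, g x = S.r (U x, V x) := ⟨_, fun _ => rfl⟩
  have hgc : ContinuousOn g {0}ᶜ := by
    have h4 : g = fun x => S.r (U x, V x) := funext hg
    rw [h4]
    exact S.smooth_r.continuousOn.comp
      (hS.smooth_U.continuousOn.prodMk hS.smooth_V.continuousOn) (fun x hx => hS.mem x hx)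
  have hgpos : ∀ x, x ≠ 0 → 0 < g x := by
    intro x hx
    rw [hg]
    exact S.r_pos _ (hS.mem x hx)
  have hcompact : ∀ η : ℝ, 0 < η → ∃ δ : ℝ, 0 < δ ∧ ∀ x : E, ε ≤ ‖x‖ → ‖x‖ ≤ R →
      |f x - c| < δ → g x ^ 2 ≤ r₀ ^ 2 + η := by
    intro η hη
    have hann : IsCompact {x : E | ε ≤ ‖x‖ ∧ ‖x‖ ≤ R} := by
      refine (isCompact_closedBall (0 : E) R).of_isClosed_subset ?_ ?_
      · exact (isClosed_le continuous_const continuous_norm).inter
          (isClosed_le continuous_norm continuous_const)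
      · intro x hx
        rw [mem_closedBall_zero_iff]
        exact hx.2
    have hann0 : {x : E | ε ≤ ‖x‖ ∧ ‖x‖ ≤ R} ⊆ {0}ᶜ := by
      intro x hx h0
      rw [mem_singleton_iff] at h0
      have := hx.1
      rw [h0, norm_zero] at this
      linarith
    have hK : IsCompact ({x : E | ε ≤ ‖x‖ ∧ ‖x‖ ≤ R} ∩ (fun x => g x ^ 2) ⁻¹' (Ici (r₀ ^ 2 + η))) := by
      refine hann.of_isClosed_subset ?_ inter_subset_left
      exact ((hgc.mono hann0).pow 2).preimage_isClosed_of_isClosed hann.isClosed isClosed_Ici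
    rcases eq_empty_or_nonempty
      ({x : E | ε ≤ ‖x‖ ∧ ‖x‖ ≤ R} ∩ (fun x => g x ^ 2) ⁻¹' (Ici (r₀ ^ 2 + η))) with hemp | hne
    · refine ⟨1, one_pos, fun x hx1 hx2 _ => ?_⟩
      by_contra hc
      push Not at hc
      have : x ∈ ({x : E | ε ≤ ‖x‖ ∧ ‖x‖ ≤ R} ∩ (fun x => g x ^ 2) ⁻¹' (Ici (r₀ ^ 2 + η))) :=
        ⟨⟨hx1, hx2⟩, hc.le⟩
      rw [hemp] at this
      exact this
    · have hcont : ContinuousOn (fun x => |f x - c|)
          ({x : E | ε ≤ ‖x‖ ∧ ‖x‖ ≤ R} ∩ (fun x => g x ^ 2) ⁻¹' (Ici (r₀ ^ 2 + η))) :=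
        ((hfc.mono (inter_subset_left.trans hann0)).sub continuousOn_const).abs
      obtain ⟨x₃, hx₃, hmin⟩ := hK.exists_isMinOn hne hcont
      have hx₃0 : x₃ ≠ 0 := hann0 hx₃.1
      refine ⟨|f x₃ - c|, ?_, fun x hx1 hx2 hx3 => ?_⟩
      · rw [abs_pos]
        intro h0
        have h4 := hr₀ x₃ hx₃0 (by linarith)
        rw [← hg] at h4
        have h5 : g x₃ ^ 2 ≤ r₀ ^ 2 := pow_le_pow_left₀ (hgpos x₃ hx₃0).le h4 2
        have h6 : r₀ ^ 2 + η ≤ g x₃ ^ 2 := hx₃.2
        linarith
      · by_contra hc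
        push Not at hc
        have h4 := hmin (show x ∈ ({x : E | ε ≤ ‖x‖ ∧ ‖x‖ ≤ R} ∩
          (fun x => g x ^ 2) ⁻¹' (Ici (r₀ ^ 2 + η))) from ⟨⟨hx1, hx2⟩, hc.le⟩)
        have h5 : |f x₃ - c| ≤ |f x - c| := h4
        linarith
  -- the test field
  unfold area
  refine iSup_le fun X => iSup_le fun hX => ENNReal.ofReal_le_ofReal ?_
  obtain ⟨hXs, hXc, hX0, hX1⟩ := hX
  obtain ⟨Y, hY⟩ : ∃ Y : E → E, Y = fun y => vol S U V y • X y := ⟨_, rfl⟩
  rw [← hY]
  have hYsub : tsupport Y ⊆ tsupport X := by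
    rw [hY]
    exact tsupport_smul_subset_right _ _
  have hY0 : (0 : E) ∉ tsupport Y := fun h => hX0 (hYsub h)
  have hYc : HasCompactSupport Y := hXc.of_isClosed_subset (isClosed_tsupport Y) hYsub
  have hYs : ContDiff ℝ 1 Y := by
    rw [contDiff_iff_contDiffAt]
    intro x
    by_cases hx : x = 0
    · have h4 : Y =ᶠ[𝓝 x] fun _ => (0 : E) := by
        rw [hx]
        exact notMem_tsupport_iff_eventuallyEq.1 hY0
      exact (contDiffAt_const (c := (0:E))).congr_of_eventuallyEq h4
    · rw [hY]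
      have h4 : ContDiffAt ℝ ∞ (vol S U V) x :=
        hvol.contDiffAt (isOpen_compl_singleton.mem_nhds hx)
      exact (h4.of_le (by exact_mod_cast le_top)).smul
        (hXs.contDiffAt.of_le (by exact_mod_cast le_top))
  -- the cut-offs
  obtain ⟨h, hh⟩ : ∃ h : ℕ → E → ℝ, ∀ n x, h n x =
      Real.smoothTransition (((n : ℝ) + 1) * (c - f x)) := ⟨_, fun _ _ => rfl⟩
  have hn0 : ∀ n : ℕ, 0 < (n : ℝ) + 1 := fun n => by positivity
  have hhfun : ∀ n, h n = fun x => Real.smoothTransition (((n : ℝ) + 1) * (c - f x)) :=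
    fun n => funext (hh n)
  have hhs : ∀ n, ContDiffOn ℝ 1 (h n) {0}ᶜ := by
    intro n
    rw [hhfun]
    have h4 : ContDiffOn ℝ 1 f {0}ᶜ := hf.of_le (by exact_mod_cast le_top)
    exact (Real.smoothTransition.contDiff (n := 1)).comp_contDiffOn
      (contDiffOn_const.mul (contDiffOn_const.sub h4))
  have hhd : ∀ n, ∀ x : E, x ≠ 0 → ∀ W : E, fderiv ℝ (h n) x W =
      -(((n : ℝ) + 1) * deriv Real.smoothTransition (((n : ℝ) + 1) * (c - f x))) *
        fderiv ℝ f x W := by
    intro n x hx W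
    have h4 : HasFDerivAt (fun y => ((n : ℝ) + 1) * (c - f y))
        (((n : ℝ) + 1) • (-(fderiv ℝ f x))) x :=
      ((hfd x hx).const_sub c).const_mul _
    have h5 : HasDerivAt Real.smoothTransition
        (deriv Real.smoothTransition (((n : ℝ) + 1) * (c - f x))) (((n : ℝ) + 1) * (c - f x)) :=
      ((Real.smoothTransition.contDiff (n := 1)).differentiable (by simp) _).hasDerivAt
    have h6 := h5.comp_hasFDerivAt x h4
    have h7 : h n = Real.smoothTransition ∘ (fun y => ((n : ℝ) + 1) * (c - f y)) := by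
      rw [hhfun]
      rfl
    rw [h7, h6.fderiv]
    simp only [_root_.smul_apply, _root_.neg_apply, smul_eq_mul]
    ring
  have hhrad : ∀ n, ∀ x : E, x ≠ 0 → fderiv ℝ (h n) x x ≤ 0 := by
    intro n x hx
    rw [hhd n x hx]
    have h4 := Area.chi_deriv_nonneg (((n : ℝ) + 1) * (c - f x))
    have h5 := (hpos x hx).le
    have h6 : 0 ≤ ((n : ℝ) + 1) * deriv Real.smoothTransition (((n : ℝ) + 1) * (c - f x)) *
      fderiv ℝ f x x := mul_nonneg (mul_nonneg (hn0 n).le h4) h5
    linarith
  -- dominated convergence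
  have hD : MeasurableSet {x : E | x ≠ 0 ∧ f x < c} := by
    have h4 : {x : E | x ≠ 0 ∧ f x < c} = {0}ᶜ ∩ f ⁻¹' (Iio c) := by
      ext x
      simp
    rw [h4]
    exact (hfc.isOpen_inter_preimage isOpen_compl_singleton isOpen_Iio).measurableSet
  have hint1 : Integrable (fun x => divergence Y x) := by
    have := (h2 Y (fun _ => 1) hYs hYc hY0 contDiffOn_const).1
    simpa using this
  have hlim : Tendsto (fun n => ∫ x, h n x * divergence Y x) atTop
      (𝓝 (∫ x in {x : E | x ≠ 0 ∧ f x < c}, divergence Y x)) := by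
    rw [← integral_indicator hD]
    refine tendsto_integral_of_dominated_convergence (fun x => ‖divergence Y x‖)
      (fun n => (h2 Y (h n) hYs hYc hY0 (hhs n)).1.aestronglyMeasurable) hint1.norm ?_ ?_
    · intro n
      filter_upwards with x
      rw [norm_mul, hh]
      have h4 := Real.smoothTransition.nonneg (((n : ℝ) + 1) * (c - f x))
      have h5 := Real.smoothTransition.le_one (((n : ℝ) + 1) * (c - f x))
      rw [Real.norm_of_nonneg h4]
      exact mul_le_of_le_one_left (norm_nonneg _) h5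
    · have hae : ∀ᵐ x : E, x ≠ 0 := by
        have : ({0}ᶜ : Set E) ∈ ae (volume : Measure E) := compl_mem_ae_iff.2 (by simp)
        exact this
      filter_upwards [hae] with x hx
      by_cases hfx : f x < c
      · rw [indicator_of_mem (show x ∈ {x : E | x ≠ 0 ∧ f x < c} from ⟨hx, hfx⟩)]
        refine tendsto_const_nhds.congr' ?_
        obtain ⟨n₀, hn₀⟩ := exists_nat_ge (1 / (c - f x))
        filter_upwards [eventually_ge_atTop n₀] with n hn
        rw [hh, Real.smoothTransition.one_of_one_le, one_mul]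
        have h4 : 0 < c - f x := by linarith
        rw [div_le_iff₀ h4] at hn₀
        have h5 : (n₀ : ℝ) ≤ (n : ℝ) + 1 := by
          have : (n₀ : ℝ) ≤ n := by exact_mod_cast hn
          linarith
        exact hn₀.trans (mul_le_mul_of_nonneg_right h5 h4.le)
      · rw [indicator_of_notMem (fun hc => hfx hc.2)]
        refine tendsto_const_nhds.congr' ?_
        filter_upwards with n
        rw [hh, Real.smoothTransition.zero_of_nonpos, zero_mul]
        push Not at hfx
        exact mul_nonpos_of_nonneg_of_nonpos (hn0 n).le (by linarith)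
  -- the bound for large `n`
  have hbound : ∀ η : ℝ, 0 < η → ∀ᶠ n in atTop, ∫ x, h n x * divergence Y x ≤
      (r₀ ^ 2 + η) * (4 * Real.pi) := by
    intro η hη
    obtain ⟨δ, hδ, hδ'⟩ := hcompact η hη
    obtain ⟨n₀, hn₀⟩ := exists_nat_gt (max (1 / δ) (1 / (c - c₁)))
    filter_upwards [eventually_ge_atTop n₀] with n hn
    have hnn : (n₀ : ℝ) ≤ n := by exact_mod_cast hn
    have hn1 : 1 < ((n : ℝ) + 1) * δ := by
      have h4 := lt_of_le_of_lt (le_max_left _ _) hn₀
      rw [div_lt_iff₀ hδ] at h4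
      have h5 : (n₀ : ℝ) * δ ≤ ((n : ℝ) + 1) * δ := mul_le_mul_of_nonneg_right (by linarith) hδ.le
      linarith
    have hcc : 0 < c - c₁ := by linarith
    have hn2 : 1 < ((n : ℝ) + 1) * (c - c₁) := by
      have h4 := lt_of_le_of_lt (le_max_right _ _) hn₀
      rw [div_lt_iff₀ hcc] at h4
      have h5 : (n₀ : ℝ) * (c - c₁) ≤ ((n : ℝ) + 1) * (c - c₁) :=
        mul_le_mul_of_nonneg_right (by linarith) hcc.le
      linarith
    obtain ⟨_, hintF, heq⟩ := h2 Y (h n) hYs hYc hY0 (hhs n)
    have hrad := h3 (h n) ε R hε (hhs n) (by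
      intro x hx hxε
      rw [hh, Real.smoothTransition.one_of_one_le]
      have h4 := hsmall x hx hxε
      have h5 : ((n : ℝ) + 1) * (c - c₁) ≤ ((n : ℝ) + 1) * (c - f x) :=
        mul_le_mul_of_nonneg_left (by linarith) (hn0 n).le
      linarith) (by
      intro x hx
      rw [hh, Real.smoothTransition.zero_of_nonpos]
      have h4 := hout x hx
      exact mul_nonpos_of_nonneg_of_nonpos (hn0 n).le (by linarith)) (hhrad n)
    have hB : 0 ≤ r₀ ^ 2 + η := by positivity
    -- pointwise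
    have hpt : ∀ x : E, ‖fderiv ℝ (h n) x (Y x)‖ₑ ≤
        ENNReal.ofReal (r₀ ^ 2 + η) *
          ENNReal.ofReal (-(fderiv ℝ (h n) x x) / ‖x‖ ^ 3) := by
      intro x
      rw [← ENNReal.ofReal_mul hB, Real.enorm_eq_ofReal_abs]
      by_cases hx : x = 0
      · have h4 : Y x = 0 := by
          rw [hx]
          exact image_eq_zero_of_notMem_tsupport hY0
        rw [h4, map_zero, abs_zero, ENNReal.ofReal_zero]
        exact zero_le
      · apply ENNReal.ofReal_le_ofReal
        have hxn : 0 < ‖x‖ := norm_pos_iff.2 hx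
        rw [hhd n x hx, hhd n x hx]
        set k : ℝ := ((n : ℝ) + 1) * deriv Real.smoothTransition (((n : ℝ) + 1) * (c - f x))
          with hk
        have hk0 : 0 ≤ k := mul_nonneg (hn0 n).le (Area.chi_deriv_nonneg _)
        by_cases hkz : k = 0
        · rw [hkz]
          simp
        · -- `c - 1/(n+1) ≤ f x ≤ c`
          have hd0 : deriv Real.smoothTransition (((n : ℝ) + 1) * (c - f x)) ≠ 0 := by
            intro h0
            apply hkz
            rw [hk, h0, mul_zero]
          have h4 : 0 ≤ ((n : ℝ) + 1) * (c - f x) := by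
            by_contra hc
            push Not at hc
            exact hd0 (Area.chi_deriv_neg hc)
          have h5 : ((n : ℝ) + 1) * (c - f x) ≤ 1 := by
            by_contra hc
            push Not at hc
            exact hd0 (Area.chi_deriv_one hc)
          have h6 : 0 ≤ c - f x := by
            by_contra hc
            push Not at hc
            have := mul_neg_of_pos_of_neg (hn0 n) hc
            linarith
          have h7 : c - f x < δ := by
            by_contra hc
            push Not at hc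
            have := mul_le_mul_of_nonneg_left hc (hn0 n).le
            linarith
          have h8 : ε ≤ ‖x‖ := by
            by_contra hc
            push Not at hc
            have h9 := hsmall x hx hc.le
            have := mul_le_mul_of_nonneg_left (show c - c₁ ≤ c - f x by linarith) (hn0 n).le
            linarith
          have h9 : ‖x‖ ≤ R := by
            by_contra hc
            push Not at hc
            have := hout x hc.le
            linarith
          have h10 := hδ' x h8 h9 (by rw [abs_sub_comm, abs_of_nonneg h6]; exact h7)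
          have h11 := hineq x (X x) hx (hX1 x hx)
          rw [← hg] at h11
          have h12 : fderiv ℝ f x (Y x) = vol S U V x * fderiv ℝ f x (X x) := by
            rw [hY]
            simp only [map_smul, smul_eq_mul]
          have h13 : |fderiv ℝ f x (Y x)| = vol S U V x * |fderiv ℝ f x (X x)| := by
            rw [h12, abs_mul, abs_of_pos (hvolpos x hx)]
          rw [abs_mul, abs_neg, abs_of_nonneg hk0, h13]
          have h14 : g x ^ 2 / ‖x‖ ^ 3 * fderiv ℝ f x x ≤
              (r₀ ^ 2 + η) / ‖x‖ ^ 3 * fderiv ℝ f x x :=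
            mul_le_mul_of_nonneg_right (div_le_div_of_nonneg_right h10 (by positivity))
              (hpos x hx).le
          calc k * (vol S U V x * |fderiv ℝ f x (X x)|)
              ≤ k * ((r₀ ^ 2 + η) / ‖x‖ ^ 3 * fderiv ℝ f x x) :=
                mul_le_mul_of_nonneg_left (h11.trans h14) hk0
            _ = (r₀ ^ 2 + η) * (-(-k * fderiv ℝ f x x) / ‖x‖ ^ 3) := by
                field_simp
    have hfin : ‖∫ x, fderiv ℝ (h n) x (Y x)‖ₑ ≤
        ENNReal.ofReal ((r₀ ^ 2 + η) * (4 * Real.pi)) := by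
      calc ‖∫ x, fderiv ℝ (h n) x (Y x)‖ₑ ≤ ∫⁻ x, ‖fderiv ℝ (h n) x (Y x)‖ₑ :=
            enorm_integral_le_lintegral_enorm _
        _ ≤ ∫⁻ x, ENNReal.ofReal (r₀ ^ 2 + η) *
            ENNReal.ofReal (-(fderiv ℝ (h n) x x) / ‖x‖ ^ 3) := lintegral_mono hpt
        _ = ENNReal.ofReal (r₀ ^ 2 + η) * ENNReal.ofReal (4 * Real.pi) := by
            rw [lintegral_const_mul' _ _ ENNReal.ofReal_ne_top, hrad]
        _ = ENNReal.ofReal ((r₀ ^ 2 + η) * (4 * Real.pi)) := by
            rw [ENNReal.ofReal_mul hB]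
    rw [Real.enorm_eq_ofReal_abs, ENNReal.ofReal_le_ofReal_iff (by positivity)] at hfin
    rw [heq]
    exact (neg_le_abs _).trans hfin
  -- conclusion
  have hle : ∀ η : ℝ, 0 < η → ∫ x in {x : E | x ≠ 0 ∧ f x < c}, divergence Y x ≤
      (r₀ ^ 2 + η) * (4 * Real.pi) := fun η hη => le_of_tendsto hlim (hbound η hη)
  have hlim2 : Tendsto (fun η : ℝ => (r₀ ^ 2 + η) * (4 * Real.pi)) (𝓝[>] 0)
      (𝓝 ((r₀ ^ 2 + 0) * (4 * Real.pi))) :=
    (Continuous.tendsto (by fun_prop) 0).mono_left nhdsWithin_le_nhds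
  have h4 : ∫ x in {x : E | x ≠ 0 ∧ f x < c}, divergence Y x ≤ (r₀ ^ 2 + 0) * (4 * Real.pi) := by
    refine ge_of_tendsto hlim2 ?_
    filter_upwards [self_mem_nhdsWithin] with η hη
    exact hle η hη
  linarith

end Pool.Agent.Q90.PI
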