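import Pool.Agent.Q90.PI.Stm

/-! Job PI11: the asymptotics of the components. -/

set_option autoImplicit false

open MeasureTheory Set Filter Topology Metric Asymptotics
open scoped ContDiff ENNReal

namespace Pool.Agent.Q90.PI

lemma asy_inner (X Y : E) : inner ℝ X Y = X 0 * Y 0 + X 1 * Y 1 + X 2 * Y 2 := by
  rw [PiLp.inner_apply]
  simp [Fin.sum_univ_three]
  ring

lemma asy_normsq (x : E) : ‖x‖ ^ 2 = x 0 ^ 2 + x 1 ^ 2 + x 2 ^ 2 := by
  rw [← real_inner_self_eq_norm_sq, asy_inner]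
  ring

lemma asy_vec (X : E) : X = X 0 • e 0 + X 1 • e 1 + X 2 • e 2 := by
  ext j
  fin_cases j <;> simp [e]

lemma asy_lin (L : E →L[ℝ] ℝ) (X : E) : L X = X 0 * L (e 0) + X 1 * L (e 1) + X 2 * L (e 2) := by
  conv_lhs => rw [asy_vec X]
  simp only [map_add, map_smul, smul_eq_mul]

lemma asy_metric (S : Spacetime) (U V : E → ℝ) (x X Y : E) :
    metric S U V x X Y = ∑ i, ∑ j, comp S U V i j x * (X i * Y j) := by
  have e00 : (e 0 : E) 0 = 1 := by simp [e]
  have e01 : (e 0 : E) 1 = 0 := by simp [e]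
  have e02 : (e 0 : E) 2 = 0 := by simp [e]
  have e10 : (e 1 : E) 0 = 0 := by simp [e]
  have e11 : (e 1 : E) 1 = 1 := by simp [e]
  have e12 : (e 1 : E) 2 = 0 := by simp [e]
  have e20 : (e 2 : E) 0 = 0 := by simp [e]
  have e21 : (e 2 : E) 1 = 0 := by simp [e]
  have e22 : (e 2 : E) 2 = 1 := by simp [e]
  simp only [Fin.sum_univ_three, comp, metric, asy_lin _ X, asy_lin _ Y, asy_inner,
    e00, e01, e02, e10, e11, e12, e20, e21, e22]
  ring

lemma asy_coef (i j : Fin 3) :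
    (fun x : E => x i * x j / ‖x‖ ^ 2) =O[Bornology.cobounded E] fun _ => (1 : ℝ) := by
  refine IsBigO.of_bound 1 (Eventually.of_forall fun x => ?_)
  have hi : ‖x i‖ ≤ ‖x‖ := PiLp.norm_apply_le x i
  have hj : ‖x j‖ ≤ ‖x‖ := PiLp.norm_apply_le x j
  rw [norm_div, norm_mul, norm_pow, norm_norm, norm_one, mul_one]
  refine div_le_one_of_le₀ ?_ (sq_nonneg _)
  calc ‖x i‖ * ‖x j‖ ≤ ‖x‖ * ‖x‖ := mul_le_mul hi hj (norm_nonneg _) (norm_nonneg _)
    _ = ‖x‖ ^ 2 := by ring

theorem asy (h1 : S_sym) (h2 : S_vol) : S_asy := by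
  intro S U V m hS hF
  obtain ⟨R₀, hR₀⟩ := hF.symmetric
  obtain ⟨R, hRdef⟩ : ∃ R, R = max R₀ 1 := ⟨_, rfl⟩
  have hR : 0 < R := hRdef ▸ lt_of_lt_of_le one_pos (le_max_right _ _)
  have hsym : ∀ x y : E, R < ‖x‖ → ‖x‖ = ‖y‖ → U x = U y ∧ V x = V y := fun x y hx hxy =>
    hR₀ x y (lt_of_le_of_lt (hRdef ▸ le_max_left _ _) hx) hxy
  obtain ⟨hm, -, -⟩ := h1 S U V hS R hR hsym
  obtain ⟨-, hc, -⟩ := h2 S U V hS
  have hnorm : Tendsto (fun x : E => ‖x‖) (Bornology.cobounded E) atTop :=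
    tendsto_norm_cobounded_atTop
  have hev : ∀ᶠ x : E in Bornology.cobounded E, R < ‖x‖ := hnorm.eventually_gt_atTop R
  have hne : ∀ x : E, R < ‖x‖ → x ≠ 0 := by
    rintro x hx rfl
    rw [norm_zero] at hx
    linarith
  have hinv : Tendsto (fun x : E => ‖x‖⁻¹) (Bornology.cobounded E) (𝓝 0) :=
    tendsto_inv_atTop_zero.comp hnorm
  have hsq : ∀ x : E, x ≠ 0 → x 0 ^ 2 + x 1 ^ 2 + x 2 ^ 2 ≠ 0 := by
    intro x hx h
    rw [← asy_normsq] at h
    exact hx (norm_eq_zero.1 (pow_eq_zero_iff (two_ne_zero)|>.1 h))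
  -- `aa`
  have haa : ∀ x : E, aa S U V x = ∑ i, ∑ j, comp S U V i j x * (x i * x j / ‖x‖ ^ 2) := by
    intro x
    unfold aa
    rw [asy_metric]
    simp only [Finset.sum_div, mul_div_assoc]
  have haa1 : ∀ x : E, x ≠ 0 → (∑ i, ∑ j,
      (comp S U V i j x - if i = j then 1 else 0) * (x i * x j / ‖x‖ ^ 2)) =
      aa S U V x - 1 := by
    intro x hx
    have h3 := hsq x hx
    rw [haa x]
    simp only [Fin.sum_univ_three, asy_normsq x]
    simp
    field_simp
    ring
  have haO : (fun x => aa S U V x - 1) =O[Bornology.cobounded E] fun x => ‖x‖⁻¹ := by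
    have h3 : (fun x => ∑ i, ∑ j,
        (comp S U V i j x - if i = j then 1 else 0) * (x i * x j / ‖x‖ ^ 2))
        =O[Bornology.cobounded E] fun x : E => ‖x‖⁻¹ * 1 :=
      IsBigO.fun_sum fun i _ => IsBigO.fun_sum fun j _ => (hF.decay i j).mul (asy_coef i j)
    refine h3.congr' ?_ (Eventually.of_forall fun x => mul_one _)
    filter_upwards [hev] with x hx
    exact haa1 x (hne x hx)
  have haT : Tendsto (aa S U V) (Bornology.cobounded E) (𝓝 1) := by
    have h3 := (haO.trans_tendsto hinv).add_const 1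
    simpa using h3
  have hcT : ∀ i, Tendsto (comp S U V i i) (Bornology.cobounded E) (𝓝 1) := by
    intro i
    have h3 := ((hF.decay i i).trans_tendsto hinv).add_const 1
    simpa using h3
  -- `ff`
  have hff : ∀ x : E, R < ‖x‖ → ff S U V x = (∑ i, comp S U V i i x - aa S U V x) / 2 := by
    intro x hx
    have h3 := hsq x (hne x hx)
    have h4 : ∀ i, comp S U V i i x = _ := fun i => hm x (e i) (e i) hx
    simp only [Fin.sum_univ_three, h4, asy_inner, asy_normsq x]
    simp [e]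
    field_simp
    ring
  have hfT : Tendsto (ff S U V) (Bornology.cobounded E) (𝓝 1) := by
    have h3 : Tendsto (fun x => (∑ i, comp S U V i i x - aa S U V x) / 2)
        (Bornology.cobounded E) (𝓝 ((∑ _i : Fin 3, (1 : ℝ) - 1) / 2)) :=
      ((tendsto_finsetSum _ fun i _ => hcT i).sub haT).div_const 2
    have h4 : ((∑ _i : Fin 3, (1 : ℝ) - 1) / 2) = 1 := by
      simp
      norm_num
    rw [h4] at h3
    refine h3.congr' ?_
    filter_upwards [hev] with x hx
    exact (hff x hx).symm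
  refine ⟨haT, hfT, ?_⟩
  -- derivatives
  have hd : ∀ i j, ∀ x : E, x ≠ 0 → DifferentiableAt ℝ (comp S U V i j) x := fun i j x hx =>
    ((hc i j).differentiableOn (by simp)).differentiableAt (isOpen_compl_singleton.mem_nhds hx)
  have hD : ∀ i j, (fun x => fderiv ℝ (comp S U V i j) x x) =O[Bornology.cobounded E]
      fun x => ‖x‖⁻¹ := by
    intro i j
    have h3 : ∀ k : Fin 3, (fun x : E => x k * fderiv ℝ (comp S U V i j) x (e k))
        =O[Bornology.cobounded E] fun x => ‖x‖ * (‖x‖ ^ 2)⁻¹ := by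
      intro k
      refine IsBigO.mul ?_ (hF.decay_deriv i j k)
      refine IsBigO.of_bound 1 (Eventually.of_forall fun x => ?_)
      rw [one_mul, norm_norm]
      exact PiLp.norm_apply_le x k
    have h4 := ((h3 0).add (h3 1)).add (h3 2)
    refine h4.congr' (Eventually.of_forall fun x => ?_) ?_
    · exact (asy_lin _ x).symm
    · filter_upwards [hev] with x hx
      have h5 : ‖x‖ ≠ 0 := norm_ne_zero_iff.2 (hne x hx)
      field_simp
  have hDff : ∀ x : E, R < ‖x‖ → fderiv ℝ (ff S U V) x x =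
      (∑ i, fderiv ℝ (comp S U V i i) x x - ∑ i, ∑ j,
        fderiv ℝ (comp S U V i j) x x * (x i * x j / ‖x‖ ^ 2)) / 2 := by
    intro x hx
    have hx0 := hne x hx
    obtain ⟨G, hG⟩ : ∃ G : E → ℝ, G = fun y => (∑ i, comp S U V i i y -
      ∑ i, ∑ j, comp S U V i j y * (y i * y j / ‖y‖ ^ 2)) / 2 := ⟨_, rfl⟩
    have h3 : ff S U V =ᶠ[𝓝 x] G := by
      have h4 : ∀ᶠ y : E in 𝓝 x, R < ‖y‖ := continuous_norm.continuousAt.eventually_const_lt hx
      filter_upwards [h4] with y hy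
      rw [hff y hy, haa y, hG]
    rw [h3.fderiv_eq]
    have hGd : DifferentiableAt ℝ G x := by
      rw [hG]
      have h5 : ∀ i : Fin 3, DifferentiableAt ℝ (fun y : E => y i) x := fun i => by fun_prop
      have h6 : DifferentiableAt ℝ (fun y : E => ‖y‖ ^ 2) x :=
        differentiableAt_id.norm_sq ℝ
      have h7 : ‖x‖ ^ 2 ≠ 0 := pow_ne_zero _ (norm_ne_zero_iff.2 hx0)
      have h20 : ∀ i j : Fin 3,
          DifferentiableAt ℝ (fun y : E => y i * y j * (‖y‖ ^ 2)⁻¹) x := fun i j =>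
        ((h5 i).fun_mul (h5 j)).fun_mul (h6.fun_inv h7)
      simp only [div_eq_mul_inv]
      refine DifferentiableAt.mul_const (DifferentiableAt.fun_sub ?_ ?_) _
      · exact DifferentiableAt.fun_sum fun i _ => hd i i x hx0
      · refine DifferentiableAt.fun_sum fun i _ => DifferentiableAt.fun_sum fun j _ => ?_
        exact (hd i j x hx0).fun_mul (h20 i j)
    have hray : HasDerivAt (fun t : ℝ => t • x) x 1 := by
      simpa using (hasDerivAt_id (1 : ℝ)).smul_const x
    have h8 : ∀ g : E → ℝ, DifferentiableAt ℝ g x →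
        HasDerivAt (fun t : ℝ => g (t • x)) (fderiv ℝ g x x) 1 := by
      intro g hg
      have h9 : HasFDerivAt g (fderiv ℝ g x) ((1 : ℝ) • x) := by
        rw [one_smul]
        exact hg.hasFDerivAt
      exact h9.comp_hasDerivAt (1 : ℝ) hray
    have h10 := h8 G hGd
    have h11 : HasDerivAt (fun t : ℝ => (∑ i, comp S U V i i (t • x) -
        ∑ i, ∑ j, comp S U V i j (t • x) * (x i * x j / ‖x‖ ^ 2)) / 2)
        ((∑ i, fderiv ℝ (comp S U V i i) x x - ∑ i, ∑ j,
        fderiv ℝ (comp S U V i j) x x * (x i * x j / ‖x‖ ^ 2)) / 2) 1 := by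
      refine HasDerivAt.div_const (HasDerivAt.sub ?_ ?_) 2
      · exact HasDerivAt.fun_sum fun i _ => h8 _ (hd i i x hx0)
      · exact HasDerivAt.fun_sum fun i _ => HasDerivAt.fun_sum fun j _ =>
          (h8 _ (hd i j x hx0)).mul_const _
    refine h10.unique (h11.congr_of_eventuallyEq ?_)
    have h12 : ∀ᶠ t : ℝ in 𝓝 1, 0 < t := eventually_gt_nhds one_pos
    filter_upwards [h12] with t ht
    rw [hG]
    simp only [PiLp.smul_apply, smul_eq_mul, norm_smul, Real.norm_eq_abs, abs_of_pos ht]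
    have h13 : ∀ i j : Fin 3, t * x i * (t * x j) / (t * ‖x‖) ^ 2 = x i * x j / ‖x‖ ^ 2 := by
      intro i j
      have h14 : ‖x‖ ≠ 0 := norm_ne_zero_iff.2 hx0
      have h15 : t ≠ 0 := ht.ne'
      field_simp
    simp only [h13]
  have h3 : (fun x => (∑ i, fderiv ℝ (comp S U V i i) x x - ∑ i, ∑ j,
      fderiv ℝ (comp S U V i j) x x * (x i * x j / ‖x‖ ^ 2)) / 2)
      =O[Bornology.cobounded E] fun x : E => ‖x‖⁻¹ := by
    have h4 : (fun x => ∑ i, fderiv ℝ (comp S U V i i) x x) =O[Bornology.cobounded E]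
        fun x : E => ‖x‖⁻¹ := IsBigO.fun_sum fun i _ => hD i i
    have h5 : (fun x => ∑ i, ∑ j, fderiv ℝ (comp S U V i j) x x * (x i * x j / ‖x‖ ^ 2))
        =O[Bornology.cobounded E] fun x : E => ‖x‖⁻¹ := by
      have h6 : (fun x => ∑ i, ∑ j, fderiv ℝ (comp S U V i j) x x * (x i * x j / ‖x‖ ^ 2))
          =O[Bornology.cobounded E] fun x : E => ‖x‖⁻¹ * 1 :=
        IsBigO.fun_sum fun i _ => IsBigO.fun_sum fun j _ => (hD i j).mul (asy_coef i j)
      exact h6.congr_right fun x => mul_one _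
    refine ((h4.sub h5).const_mul_left (1 / 2 : ℝ)).congr_left fun x => ?_
    ring
  refine h3.congr' ?_ (Eventually.of_forall fun x => rfl)
  filter_upwards [hev] with x hx
  exact (hDff x hx).symm

end Pool.Agent.Q90.PI
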