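import Pool.Agent.Q90.PI.Stm

set_option autoImplicit false

open MeasureTheory Set Filter Topology Metric
open scoped ContDiff ENNReal

namespace Pool.Agent.Q90.PI

namespace FluxAux

theorem in_e (x : E) (i : Fin 3) : inner ℝ x (e i) = x i := by
  simp [e, EuclideanSpace.inner_single_right]

theorem e_apply (i k : Fin 3) : (e i) k = if k = i then (1:ℝ) else 0 := by
  simp [e]

theorem in_ee (i j : Fin 3) : inner ℝ (e i) (e j) = if i = j then (1:ℝ) else 0 := by
  rw [in_e, e_apply]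
  by_cases h : i = j
  · simp [h]
  · rw [if_neg h, if_neg (fun h' => h h'.symm)]

theorem nsq (x : E) : ‖x‖ ^ 2 = x 0 ^ 2 + x 1 ^ 2 + x 2 ^ 2 := by
  rw [EuclideanSpace.norm_sq_eq, Fin.sum_univ_three]
  simp only [Real.norm_eq_abs, sq_abs]

/-- the derivative of `x i * x j / ‖x‖ ^ 2` -/
theorem hq (i j : Fin 3) (z : E) (hz : z ≠ 0) :
    HasFDerivAt (fun x : E => x i * x j * (‖x‖ ^ 2)⁻¹)
      ((z i * z j) • ((-((‖z‖ ^ 2) ^ 2)⁻¹) • (2 • innerSL ℝ z)) +
        (‖z‖ ^ 2)⁻¹ • (z i • (EuclideanSpace.proj j : E →L[ℝ] ℝ) +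
          z j • (EuclideanSpace.proj i : E →L[ℝ] ℝ))) z := by
  have h1 : ∀ k, HasFDerivAt (fun x : E => x k) (EuclideanSpace.proj k : E →L[ℝ] ℝ) z :=
    fun k => (EuclideanSpace.proj k : E →L[ℝ] ℝ).hasFDerivAt
  have hn : HasFDerivAt (fun x : E => ‖x‖ ^ 2) (2 • innerSL ℝ z) z :=
    (hasStrictFDerivAt_norm_sq z).hasFDerivAt
  have hne : ‖z‖ ^ 2 ≠ 0 := pow_ne_zero 2 (norm_ne_zero_iff.2 hz)
  have h2 := (hasDerivAt_inv hne).comp_hasFDerivAt z hn
  exact ((h1 i).mul (h1 j)).mul h2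

theorem hq_e (i j k : Fin 3) (z : E) (hz : z ≠ 0) :
    fderiv ℝ (fun x : E => x i * x j * (‖x‖ ^ 2)⁻¹) z (e k) =
      (z i * z j) * (-((‖z‖ ^ 2) ^ 2)⁻¹ * (2 * z k)) +
        (‖z‖ ^ 2)⁻¹ * (z i * (if j = k then 1 else 0) + z j * (if i = k then 1 else 0)) := by
  rw [(hq i j z hz).fderiv]
  have h3 : (innerSL ℝ z) (e k) = z k := in_e z k
  have h4 : ∀ l : Fin 3, (EuclideanSpace.proj l : E →L[ℝ] ℝ) (e k) = if l = k then 1 else 0 := by
    intro l
    exact e_apply k l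
  simp only [add_apply, smul_apply, smul_eq_mul,
    nsmul_eq_mul, h3, h4]
  norm_num

/-- smoothness of `ff` and of `aa - ff` -/
theorem diff_ff {S : Spacetime} {U V : E → ℝ} (h : IsSlice S U V) (z : E) (hz : z ≠ 0) :
    DifferentiableAt ℝ (ff S U V) z := by
  have hU : ContDiffAt ℝ ∞ U z := h.smooth_U.contDiffAt (isOpen_compl_singleton.mem_nhds hz)
  have hV : ContDiffAt ℝ ∞ V z := h.smooth_V.contDiffAt (isOpen_compl_singleton.mem_nhds hz)
  have hr : ContDiffAt ℝ ∞ S.r (U z, V z) :=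
    S.smooth_r.contDiffAt (S.isOpen.mem_nhds (h.mem z hz))
  have h1 : ContDiffAt ℝ ∞ (fun x => S.r (U x, V x)) z :=
    ContDiffAt.comp (f := fun x => (U x, V x)) z hr (hU.prodMk hV)
  have h2 : DifferentiableAt ℝ (fun x => S.r (U x, V x)) z := h1.differentiableAt (by simp)
  have h3 : DifferentiableAt ℝ (fun x : E => ‖x‖ ^ 2) z :=
    (hasStrictFDerivAt_norm_sq z).hasFDerivAt.differentiableAt
  have hne : ‖z‖ ^ 2 ≠ 0 := pow_ne_zero 2 (norm_ne_zero_iff.2 hz)
  have h4 := (h2.pow 2).mul (h3.inv hne)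
  refine h4.congr_of_eventuallyEq (Eventually.of_forall fun x => ?_)
  simp only [ff, Pi.mul_apply, Pi.pow_apply, Pi.inv_apply, div_eq_mul_inv]

theorem diff_aa {S : Spacetime} {U V : E → ℝ} (h : IsSlice S U V) (h2 : S_vol) (z : E)
    (hz : z ≠ 0) : DifferentiableAt ℝ (aa S U V) z := by
  have hc : ∀ i j, DifferentiableAt ℝ (comp S U V i j) z := fun i j =>
    ((((h2 S U V h).2.1 i j).contDiffAt (isOpen_compl_singleton.mem_nhds hz))).differentiableAt
      (by simp)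
  have heq : aa S U V = fun x => (∑ i, ∑ j, comp S U V i j x * (x i * x j)) / ‖x‖ ^ 2 := by
    funext x
    have hx : x = x 0 • e 0 + x 1 • e 1 + x 2 • e 2 := by
      ext k
      fin_cases k <;> simp [e]
    have hbil : metric S U V x x x = ∑ i, ∑ j, comp S U V i j x * (x i * x j) := by
      have e1 : ∀ f : E →L[ℝ] ℝ, f x = x 0 * f (e 0) + x 1 * f (e 1) + x 2 * f (e 2) := by
        intro f
        conv_lhs => rw [hx]
        simp only [map_add, map_smul, smul_eq_mul]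
      have e2 : inner ℝ x x = x 0 ^ 2 + x 1 ^ 2 + x 2 ^ 2 := by
        rw [real_inner_self_eq_norm_sq, nsq]
      have e3 : ∀ i, inner ℝ x (e i) = x i := in_e x
      simp only [Fin.sum_univ_three, comp, metric, in_ee, e3, e2, e1 (fderiv ℝ U x),
        e1 (fderiv ℝ V x)]
      simp only [Fin.isValue, if_true, one_ne_zero, if_false, zero_ne_one, Fin.reduceEq]
      rw [nsq]
      ring
    rw [aa, hbil]
  rw [heq]
  have h3 : DifferentiableAt ℝ (fun x : E => ‖x‖ ^ 2) z :=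
    (hasStrictFDerivAt_norm_sq z).hasFDerivAt.differentiableAt
  have hne : ‖z‖ ^ 2 ≠ 0 := pow_ne_zero 2 (norm_ne_zero_iff.2 hz)
  simp only [div_eq_mul_inv]
  refine DifferentiableAt.mul ?_ (h3.inv hne)
  have h1 : ∀ k, DifferentiableAt ℝ (fun x : E => x k) z :=
    fun k => (EuclideanSpace.proj k : E →L[ℝ] ℝ).differentiableAt
  simp only [Fin.sum_univ_three]
  have h5 : ∀ i j, DifferentiableAt ℝ (fun x : E => comp S U V i j x * (x i * x j)) z :=
    fun i j => (hc i j).mul ((h1 i).mul (h1 j))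
  exact ((((h5 0 0).add (h5 0 1)).add (h5 0 2)).add (((h5 1 0).add (h5 1 1)).add (h5 1 2))).add
    (((h5 2 0).add (h5 2 1)).add (h5 2 2))

/-- the derivative of the components -/
theorem comp_deriv (h1 : S_sym) (h2 : S_vol) {S : Spacetime} {U V : E → ℝ} (h : IsSlice S U V)
    {R : ℝ} (hR : 0 < R) (hs : ∀ x y : E, R < ‖x‖ → ‖x‖ = ‖y‖ → U x = U y ∧ V x = V y) {z : E}
    (hz : R < ‖z‖) (i j k : Fin 3) :
    fderiv ℝ (comp S U V i j) z (e k) = (if i = j then 1 else 0) * fderiv ℝ (ff S U V) z (e k) +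
      ((aa S U V z - ff S U V z) * ((z i * z j) * (-((‖z‖ ^ 2) ^ 2)⁻¹ * (2 * z k)) +
        (‖z‖ ^ 2)⁻¹ * (z i * (if j = k then 1 else 0) + z j * (if i = k then 1 else 0))) +
      z i * z j * (‖z‖ ^ 2)⁻¹ * (fderiv ℝ (aa S U V) z (e k) - fderiv ℝ (ff S U V) z (e k))) := by
  have hz0 : z ≠ 0 := by
    intro h0
    rw [h0, norm_zero] at hz
    linarith
  have hF := (diff_ff h z hz0).hasFDerivAt
  have hA := (diff_aa h h2 z hz0).hasFDerivAt
  have hQ := (hq i j z hz0).differentiableAt.hasFDerivAt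
  have hev : comp S U V i j =ᶠ[𝓝 z] fun x => (if i = j then (1:ℝ) else 0) * ff S U V x +
      (aa S U V x - ff S U V x) * (x i * x j * (‖x‖ ^ 2)⁻¹) := by
    have : ∀ᶠ x in 𝓝 z, R < ‖x‖ := continuous_norm.continuousAt.eventually_const_lt hz
    filter_upwards [this] with x hx
    have := (h1 S U V h R hR hs).1 x (e i) (e j) hx
    rw [comp, this, in_ee, in_e, in_e]
    ring
  have hD := (hF.const_mul (if i = j then (1:ℝ) else 0)).add ((hA.sub hF).mul hQ)
  rw [hev.fderiv_eq]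
  have hfd := hD.fderiv
  have e5 : (fun x => (if i = j then (1:ℝ) else 0) * ff S U V x +
      (aa S U V x - ff S U V x) * (x i * x j * (‖x‖ ^ 2)⁻¹)) =
      ((fun x => (if i = j then (1:ℝ) else 0) * ff S U V x) +
      (aa S U V - ff S U V) * fun x => (x i * x j * (‖x‖ ^ 2)⁻¹)) := rfl
  rw [e5, hfd]
  simp only [add_apply, smul_apply, sub_apply, smul_eq_mul, hq_e i j k z hz0, Pi.sub_apply]

/-- the flux density in the radial direction -/
theorem dens (h1 : S_sym) (h2 : S_vol) {S : Spacetime} {U V : E → ℝ} (h : IsSlice S U V)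
    {R : ℝ} (hR : 0 < R) (hs : ∀ x y : E, R < ‖x‖ → ‖x‖ = ‖y‖ → U x = U y ∧ V x = V y) {z : E}
    (hz : R < ‖z‖) :
    fluxDensity S U V z z = 2 * (aa S U V z - ff S U V z) - 2 * fderiv ℝ (ff S U V) z z := by
  have hz0 : z ≠ 0 := by
    intro h0
    rw [h0, norm_zero] at hz
    linarith
  have hne : ‖z‖ ^ 2 ≠ 0 := pow_ne_zero 2 (norm_ne_zero_iff.2 hz0)
  have hx : z = z 0 • e 0 + z 1 • e 1 + z 2 • e 2 := by
    ext k
    fin_cases k <;> simp [e]
  have e1 : ∀ f : E →L[ℝ] ℝ, f z = z 0 * f (e 0) + z 1 * f (e 1) + z 2 * f (e 2) := by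
    intro f
    conv_lhs => rw [hx]
    simp only [map_add, map_smul, smul_eq_mul]
  rw [e1 (fderiv ℝ (ff S U V) z), fluxDensity]
  simp only [Fin.sum_univ_three, comp_deriv h1 h2 h hR hs hz]
  simp only [Fin.isValue, if_true, one_ne_zero, if_false, zero_ne_one, Fin.reduceEq]
  set n := ‖z‖ ^ 2 with hn
  have hn' : n = z 0 ^ 2 + z 1 ^ 2 + z 2 ^ 2 := nsq z
  generalize (fderiv ℝ (ff S U V) z) (e 0) = f0
  generalize (fderiv ℝ (ff S U V) z) (e 1) = f1
  generalize (fderiv ℝ (ff S U V) z) (e 2) = f2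
  generalize (fderiv ℝ (aa S U V) z) (e 0) = a0
  generalize (fderiv ℝ (aa S U V) z) (e 1) = a1
  generalize (fderiv ℝ (aa S U V) z) (e 2) = a2
  generalize aa S U V z = A
  generalize ff S U V z = F
  generalize z 0 = x0 at *
  generalize z 1 = x1 at *
  generalize z 2 = x2 at *
  field_simp
  rw [hn']
  ring

/-- the density is linear -/
theorem dens_smul (S : Spacetime) (U V : E → ℝ) (z y : E) (c : ℝ) :
    fluxDensity S U V z (c • y) = c * fluxDensity S U V z y := by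
  simp only [fluxDensity, Finset.mul_sum, PiLp.smul_apply, smul_eq_mul]
  refine Finset.sum_congr rfl fun i _ => Finset.sum_congr rfl fun j _ => ?_
  ring

/-- the radial derivative of `ff` depends only on the norm -/
theorem radial_deriv (h1 : S_sym) {S : Spacetime} {U V : E → ℝ} (h : IsSlice S U V)
    {R : ℝ} (hR : 0 < R) (hs : ∀ x y : E, R < ‖x‖ → ‖x‖ = ‖y‖ → U x = U y ∧ V x = V y) {z x : E}
    (hz : R < ‖z‖) (hx : ‖z‖ = ‖x‖) :
    fderiv ℝ (ff S U V) z z = fderiv ℝ (ff S U V) x x := by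
  have key : ∀ w : E, R < ‖w‖ →
      HasDerivAt (fun t : ℝ => ff S U V (t • w)) (fderiv ℝ (ff S U V) w w) 1 := by
    intro w hw
    have hw0 : w ≠ 0 := by
      intro h0
      rw [h0, norm_zero] at hw
      linarith
    have h3 : HasFDerivAt (ff S U V) (fderiv ℝ (ff S U V) w) ((1:ℝ) • w) := by
      rw [one_smul]
      exact (diff_ff h w hw0).hasFDerivAt
    have h4 : HasDerivAt (fun t : ℝ => t • w) ((1:ℝ) • w) 1 := (hasDerivAt_id 1).smul_const w
    have h5 := h3.comp_hasDerivAt (1:ℝ) h4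
    rwa [one_smul] at h5
  have h6 : (fun t : ℝ => ff S U V (t • z)) =ᶠ[𝓝 1] fun t => ff S U V (t • x) := by
    have : ∀ᶠ t in 𝓝 (1:ℝ), R < ‖t • z‖ := by
      have hc : ContinuousAt (fun t : ℝ => ‖t • z‖) 1 := by fun_prop
      exact hc.eventually_const_lt (by show R < ‖(1:ℝ) • z‖; rwa [one_smul])
    filter_upwards [this] with t ht
    exact ((h1 S U V h R hR hs).2.2 (t • z) (t • x) ht
      (by rw [norm_smul, norm_smul, hx])).2
  exact (key z hz).unique ((key x (hx ▸ hz)).congr_of_eventuallyEq h6)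

theorem sphere_measure :
    ((volume : Measure E).toSphere univ).toReal = 4 * Real.pi := by
  rw [Measure.toSphere_apply_univ]
  have h1 : Module.finrank ℝ E = 3 := by simp
  rw [h1, EuclideanSpace.volume_ball_fin_three, ENNReal.toReal_mul, ENNReal.toReal_mul,
    ENNReal.toReal_ofReal (by positivity)]
  simp
  ring

end FluxAux

open FluxAux in
theorem flux_eq (h1 : S_sym) (h2 : S_vol) : S_flux := by
  intro S U V h R hR hs x hx
  have hρ : 0 < ‖x‖ := hR.trans hx
  have hdens : ∀ y : sphere (0 : E) 1, ‖x‖ ^ 2 * fluxDensity S U V (‖x‖ • (y : E)) y =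
      ‖x‖ * (2 * (aa S U V x - ff S U V x) - 2 * fderiv ℝ (ff S U V) x x) := by
    intro y
    have hy : ‖(y : E)‖ = 1 := by
      have := y.2
      rwa [mem_sphere_zero_iff_norm] at this
    have hn : ‖‖x‖ • (y : E)‖ = ‖x‖ := by
      rw [norm_smul, norm_norm, hy, mul_one]
    have hn' : R < ‖‖x‖ • (y : E)‖ := by rw [hn]; exact hx
    have e1 := dens h1 h2 h hR hs hn'
    rw [dens_smul] at e1
    obtain ⟨e2, e3⟩ := (h1 S U V h R hR hs).2.2 (‖x‖ • (y : E)) x hn' hn
    rw [e2, e3, radial_deriv h1 h hR hs hn' hn] at e1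
    rw [← e1]
    ring
  rw [flux]
  simp only [hdens]
  rw [integral_const]
  have h3 : ((volume : Measure E).toSphere).real univ = 4 * Real.pi := sphere_measure
  rw [h3, smul_eq_mul]
  have hpi := Real.pi_pos
  field_simp
  ring

end Pool.Agent.Q90.PI
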