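import Pool.Agent.Q90.PI.Stm

/-! Job PI4: integration by parts. -/

set_option autoImplicit false
set_option linter.all false

open MeasureTheory Set Filter Topology Metric
open scoped ContDiff ENNReal

namespace Pool.Agent.Q90.PI

/-- a function which vanishes near the origin and is continuous elsewhere is continuous -/
lemma cont_off {p : E → ℝ} (h0 : ∀ᶠ x in 𝓝 (0 : E), p x = 0) (hc : ∀ x, x ≠ 0 → ContinuousAt p x) :
    Continuous p := by
  rw [continuous_iff_continuousAt]
  intro x
  by_cases hx : x = 0
  · rw [hx]
    have h1 : (fun _ : E => (0 : ℝ)) =ᶠ[𝓝 0] p := h0.mono fun y hy => hy.symm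
    exact continuousAt_const.congr h1
  · exact hc x hx

lemma integral_fderiv_zero {g : E → ℝ} (hg : ContDiff ℝ 1 g) (hs : HasCompactSupport g) (v : E) :
    ∫ x, fderiv ℝ g x v = 0 := by
  have hd : Differentiable ℝ g := hg.differentiable (by norm_num)
  have hc : Continuous fun x => fderiv ℝ g x v :=
    (hg.continuous_fderiv (by norm_num)).clm_apply continuous_const
  have hcs : HasCompactSupport fun x => fderiv ℝ g x v := by
    refine HasCompactSupport.intro hs fun x hx => ?_
    rw [fderiv_of_notMem_tsupport ℝ hx]
    rfl
  have hi : Integrable (fun x => fderiv ℝ g x v) := hc.integrable_of_hasCompactSupport hcs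
  have hi2 : Integrable g := hg.continuous.integrable_of_hasCompactSupport hs
  have h1 := integral_mul_fderiv_eq_neg_fderiv_mul_of_integrable (μ := (volume : Measure E))
    (f := fun _ : E => (1 : ℝ)) (g := g) (v := v)
    (by simp) (by simpa using hi) (by simpa using hi2) (fun x _ => by fun_prop) (fun x _ => hd x)
  simpa using h1

/-- **Integration by parts** (job PI4). -/
theorem ibp : S_ibp := by
  intro Y h hY hYs h0 hh
  have hYd : Differentiable ℝ Y := hY.differentiable (by norm_num)
  have hYc : Continuous (fderiv ℝ Y) := hY.continuous_fderiv (by norm_num)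
  have hU : IsOpen ({0}ᶜ : Set E) := isOpen_compl_singleton
  have hhd : ∀ x, x ≠ 0 → DifferentiableAt ℝ h x := fun x hx =>
    (hh.differentiableOn (by norm_num)).differentiableAt (hU.mem_nhds hx)
  have hhc : ∀ x, x ≠ 0 → ContinuousAt h x := fun x hx => (hhd x hx).continuousAt
  have hhf : ∀ x, x ≠ 0 → ContinuousAt (fderiv ℝ h) x := fun x hx =>
    (hh.continuousOn_fderiv_of_isOpen hU (by norm_num)).continuousAt (hU.mem_nhds hx)
  have hopen : IsOpen (tsupport Y)ᶜ := (isClosed_tsupport Y).isOpen_compl
  have hY0 : ∀ x, x ∉ tsupport Y → Y x = 0 := fun x hx => image_eq_zero_of_notMem_tsupport hx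
  have hdiv0 : ∀ x, x ∉ tsupport Y → divergence Y x = 0 := by
    intro x hx
    unfold divergence
    refine Finset.sum_eq_zero fun i _ => ?_
    rw [fderiv_of_notMem_tsupport ℝ hx]
    rfl
  have hdivc : Continuous (divergence Y) := by
    unfold divergence
    refine continuous_finset_sum _ fun i _ => ?_
    have h1 : Continuous fun x => fderiv ℝ Y x (e i) := hYc.clm_apply continuous_const
    fun_prop
  -- the two functions
  have hA : Continuous fun x => h x * divergence Y x := by
    refine cont_off ?_ fun x hx => (hhc x hx).mul hdivc.continuousAt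
    filter_upwards [hopen.mem_nhds h0] with x hx
    rw [hdiv0 x hx, mul_zero]
  have hAs : HasCompactSupport fun x => h x * divergence Y x :=
    HasCompactSupport.intro hYs fun x hx => by rw [hdiv0 x hx, mul_zero]
  have hB : Continuous fun x => fderiv ℝ h x (Y x) := by
    refine cont_off ?_ fun x hx => (hhf x hx).clm_apply hY.continuous.continuousAt
    filter_upwards [hopen.mem_nhds h0] with x hx
    rw [hY0 x hx, map_zero]
  have hBs : HasCompactSupport fun x => fderiv ℝ h x (Y x) :=
    HasCompactSupport.intro hYs fun x hx => by rw [hY0 x hx, map_zero]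
  have hAi := hA.integrable_of_hasCompactSupport (μ := (volume : Measure E)) hAs
  have hBi := hB.integrable_of_hasCompactSupport (μ := (volume : Measure E)) hBs
  refine ⟨hAi, hBi, ?_⟩
  -- the components of the product
  have hZ : ∀ i : Fin 3, ContDiff ℝ 1 fun x => h x * Y x i := by
    intro i
    rw [contDiff_iff_contDiffAt]
    intro x
    have hYi : ContDiff ℝ 1 fun x => Y x i := by
      have := (contDiff_euclidean.1 hY) i
      exact this
    by_cases hx : x = 0
    · have h1 : (fun _ : E => (0 : ℝ)) =ᶠ[𝓝 x] fun x => h x * Y x i := by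
        rw [hx]
        filter_upwards [hopen.mem_nhds h0] with y hy
        rw [hY0 y hy]
        simp
      exact contDiffAt_const.congr_of_eventuallyEq h1.symm
    · exact (hh.contDiffAt (hU.mem_nhds hx)).mul hYi.contDiffAt
  have hZs : ∀ i : Fin 3, HasCompactSupport fun x => h x * Y x i := by
    intro i
    refine HasCompactSupport.intro hYs fun x hx => ?_
    rw [hY0 x hx]
    simp
  have hpt : ∀ x, h x * divergence Y x + fderiv ℝ h x (Y x) =
      ∑ i, fderiv ℝ (fun x => h x * Y x i) x (e i) := by
    intro x
    by_cases hx : x ∈ tsupport Y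
    · have hx0 : x ≠ 0 := by
        rintro rfl
        exact h0 hx
      have hYi : ∀ i, HasFDerivAt (fun x => Y x i) ((EuclideanSpace.proj i).comp (fderiv ℝ Y x)) x := by
        intro i
        exact ((EuclideanSpace.proj (𝕜 := ℝ) i).hasFDerivAt).comp x (hYd x).hasFDerivAt
      have h1 : ∀ i, fderiv ℝ (fun x => h x * Y x i) x (e i) =
          h x * (fderiv ℝ Y x (e i)) i + Y x i * fderiv ℝ h x (e i) := by
        intro i
        have h9 : HasFDerivAt (fun x => h x * Y x i)
            (h x • ((EuclideanSpace.proj i).comp (fderiv ℝ Y x)) + Y x i • fderiv ℝ h x) x :=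
          (hhd x hx0).hasFDerivAt.mul (hYi i)
        rw [h9.fderiv]
        rfl
      rw [Finset.sum_congr rfl fun i _ => h1 i, Finset.sum_add_distrib, ← Finset.mul_sum]
      have h2 : fderiv ℝ h x (Y x) = ∑ i, Y x i * fderiv ℝ h x (e i) := by
        have h3 : Y x = ∑ i, Y x i • e i := by
          ext j
          fin_cases j <;> simp [e, Fin.sum_univ_three]
        conv_lhs => rw [h3]
        rw [map_sum]
        exact Finset.sum_congr rfl fun i _ => by rw [map_smul, smul_eq_mul]
      rw [h2]
      rfl
    · rw [hdiv0 x hx, hY0 x hx, mul_zero, map_zero, add_zero]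
      refine (Finset.sum_eq_zero fun i _ => ?_).symm
      have h1 : x ∉ tsupport fun x => h x * Y x i := by
        intro h2
        refine hx (closure_mono ?_ h2)
        intro y hy hy0
        refine hy ?_
        change h y * Y y i = 0
        rw [hy0]
        simp
      rw [fderiv_of_notMem_tsupport ℝ h1]
      rfl
  have hsum : ∫ x, (h x * divergence Y x + fderiv ℝ h x (Y x)) = 0 := by
    rw [integral_congr_ae (Filter.Eventually.of_forall hpt), integral_finset_sum]
    · exact Finset.sum_eq_zero fun i _ => integral_fderiv_zero (hZ i) (hZs i) (e i)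
    · intro i _
      refine Continuous.integrable_of_hasCompactSupport ?_ ?_
      · exact ((hZ i).continuous_fderiv (by norm_num)).clm_apply continuous_const
      · refine HasCompactSupport.intro (hZs i) fun x hx => ?_
        rw [fderiv_of_notMem_tsupport ℝ hx]
        rfl
  rw [integral_add hAi hBi] at hsum
  linarith

end Pool.Agent.Q90.PI
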