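import Pool.Agent.Q90.PI.Stm

/-! The Hawking mass and the signs of the null derivatives of the radius at infinity (job PI12). -/

set_option autoImplicit false

open MeasureTheory Set Filter Topology Metric Asymptotics
open scoped ContDiff ENNReal

namespace Pool.Agent.Q90.PI

lemma diffU {S : Spacetime} {U V : E → ℝ} (h : IsSlice S U V) {x : E} (hx : x ≠ 0) :
    DifferentiableAt ℝ U x :=
  ((h.smooth_U.contDiffAt (isOpen_compl_singleton.mem_nhds hx)).differentiableAt (by simp))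

lemma diffV {S : Spacetime} {U V : E → ℝ} (h : IsSlice S U V) {x : E} (hx : x ≠ 0) :
    DifferentiableAt ℝ V x :=
  ((h.smooth_V.contDiffAt (isOpen_compl_singleton.mem_nhds hx)).differentiableAt (by simp))

lemma diffr {S : Spacetime} {U V : E → ℝ} (h : IsSlice S U V) {x : E} (hx : x ≠ 0) :
    DifferentiableAt ℝ S.r (U x, V x) :=
  ((S.smooth_r.contDiffAt (S.isOpen.mem_nhds (h.mem x hx))).differentiableAt (by simp))

/-- the derivative of the radius along the ray -/
lemma hasr {S : Spacetime} {U V : E → ℝ} (h : IsSlice S U V) {x : E} (hx : x ≠ 0) :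
    ∃ L : E →L[ℝ] ℝ, HasFDerivAt (fun y => S.r (U y, V y)) L x ∧
      L x = fderiv ℝ U x x * du S.r (U x, V x) + fderiv ℝ V x x * dv S.r (U x, V x) := by
  have h1 : HasFDerivAt (fun y => (U y, V y)) ((fderiv ℝ U x).prod (fderiv ℝ V x)) x :=
    (diffU h hx).hasFDerivAt.prodMk (diffV h hx).hasFDerivAt
  have h2 : HasFDerivAt S.r (fderiv ℝ S.r (U x, V x)) (U x, V x) := (diffr h hx).hasFDerivAt
  refine ⟨_, HasFDerivAt.comp x h2 h1, ?_⟩
  rw [ContinuousLinearMap.comp_apply, ContinuousLinearMap.prod_apply]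
  have e : (fderiv ℝ U x x, fderiv ℝ V x x) =
      fderiv ℝ U x x • ((1 : ℝ), (0 : ℝ)) + fderiv ℝ V x x • ((0 : ℝ), (1 : ℝ)) := by
    simp
  rw [e, map_add, map_smul, map_smul]
  rfl

/-- the radial derivative of `r²/‖x‖²` -/
lemma key1 {S : Spacetime} {U V : E → ℝ} (h : IsSlice S U V) {x : E} (hx : x ≠ 0) :
    fderiv ℝ (ff S U V) x x * ‖x‖ ^ 2 + 2 * ff S U V x * ‖x‖ ^ 2 =
      2 * S.r (U x, V x) *
        (fderiv ℝ U x x * du S.r (U x, V x) + fderiv ℝ V x x * dv S.r (U x, V x)) := by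
  obtain ⟨L, hL, hLx⟩ := hasr h hx
  have hn : ‖x‖ ≠ 0 := norm_ne_zero_iff.2 hx
  have hsq : HasFDerivAt (fun y : E => ‖y‖ ^ 2) (2 • innerSL ℝ x) x :=
    (hasStrictFDerivAt_norm_sq x).hasFDerivAt
  have hr2 : HasFDerivAt (fun y => S.r (U y, V y) ^ 2) _ x := hL.pow 2
  have hdf : DifferentiableAt ℝ (ff S U V) x := by
    have hne : (fun y : E => ‖y‖ ^ 2) x ≠ 0 := pow_ne_zero 2 hn
    have hi : DifferentiableAt ℝ (fun y : E => (‖y‖ ^ 2)⁻¹) x :=
      DifferentiableAt.fun_inv hsq.differentiableAt hne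
    have h5 : DifferentiableAt ℝ (fun y => S.r (U y, V y) ^ 2 * (‖y‖ ^ 2)⁻¹) x :=
      hr2.differentiableAt.fun_mul hi
    have e5 : ff S U V = fun y => S.r (U y, V y) ^ 2 * (‖y‖ ^ 2)⁻¹ := by
      funext y
      unfold ff
      rw [div_eq_mul_inv]
    rw [e5]
    exact h5
  have hm : HasFDerivAt (fun y => ff S U V y * ‖y‖ ^ 2) _ x := hdf.hasFDerivAt.mul hsq
  have heq : (fun y => ff S U V y * ‖y‖ ^ 2) =ᶠ[𝓝 x] fun y => S.r (U y, V y) ^ 2 := by
    filter_upwards [isOpen_compl_singleton.mem_nhds hx] with y hy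
    have hy' : ‖y‖ ≠ 0 := norm_ne_zero_iff.2 hy
    unfold ff
    field_simp
  have hu := (hr2.congr_of_eventuallyEq heq).unique hm
  have hv := congrArg (fun T : E →L[ℝ] ℝ => T x) hu
  simp only [add_apply, smul_apply, innerSL_apply_apply,
    hLx, real_inner_self_eq_norm_sq, smul_eq_mul, nsmul_eq_mul] at hv
  norm_num at hv
  linarith

lemma key2 (S : Spacetime) (U V : E → ℝ) {x : E} (hx : x ≠ 0) :
    metric S U V x x x = -(S.w (U x, V x) * (fderiv ℝ U x x * fderiv ℝ V x x)) := by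
  have hn : ‖x‖ ≠ 0 := norm_ne_zero_iff.2 hx
  unfold metric
  rw [real_inner_self_eq_norm_sq]
  field_simp
  ring

/-- the algebra -/
lemma inf_alg {n q s d w α β ru rv N : ℝ} (hn : 0 < n) (hq : 0 < q) (hs : 0 < s) (hw : 0 < w)
    (h1 : d * n ^ 2 + 2 * q ^ 2 * n ^ 2 = 2 * (n * q) * (α * ru + β * rv))
    (h2 : s ^ 2 * n ^ 2 = -(w * (α * β))) (h3 : N * (n * s) = β * rv - α * ru) :
    n * q / 2 * (1 + 4 * ru * rv / w) =
      q / s ^ 2 * (n / 2 * (s ^ 2 - q ^ 2 - d)) - q / (8 * s ^ 2 * q ^ 2) * (n * d ^ 2) +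
        q / 2 * (n * N ^ 2) := by
  have hD : α * ru + β * rv = n * (d + 2 * q ^ 2) / (2 * q) := by
    rw [eq_div_iff (by positivity)]
    have : n * (2 * q * (α * ru + β * rv)) = n * (n * (d + 2 * q ^ 2)) := by linarith
    have := mul_left_cancel₀ hn.ne' this
    linarith
  have h4 : 4 * (α * β) * (ru * rv) = (n * (d + 2 * q ^ 2) / (2 * q)) ^ 2 - (N * (n * s)) ^ 2 := by
    rw [← hD, h3]; ring
  have hab : α * β = -(s ^ 2 * n ^ 2 / w) := by
    rw [h2]; field_simp
  have h5 : 4 * ru * rv / w = -((n * (d + 2 * q ^ 2) / (2 * q)) ^ 2 - (N * (n * s)) ^ 2) / (s ^ 2 * n ^ 2) := by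
    rw [← h4, hab]
    field_simp
  rw [h5]
  field_simp
  ring

theorem inf (_h1 : S_sym) (_h2 : S_vol) (h3 : S_flux) (h4 : S_asy) : S_inf := by
  intro S U V m hS hF
  obtain ⟨hA, hFf, hD⟩ := h4 S U V m hS hF
  obtain ⟨R0, hR0⟩ := hF.symmetric
  set R : ℝ := max R0 1 with hR
  have hRpos : 0 < R := lt_of_lt_of_le one_pos (le_max_right _ _)
  have hsym : ∀ x y : E, R < ‖x‖ → ‖x‖ = ‖y‖ → U x = U y ∧ V x = V y := fun x y hx hxy =>
    hR0 x y (lt_of_le_of_lt (le_max_left _ _) hx) hxy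
  have hnorm : Tendsto (fun x : E => ‖x‖) (Bornology.cobounded E) atTop := tendsto_norm_cobounded_atTop
  have hlarge : ∀ᶠ x in Bornology.cobounded E, R < ‖x‖ := hnorm.eventually_gt_atTop R
  have hflux : Tendsto (fun x : E => flux S U V ‖x‖) (Bornology.cobounded E) (𝓝 m) :=
    hF.mass.comp hnorm
  -- facts at a point
  have hpt : ∀ x : E, R < ‖x‖ → x ≠ 0 := fun x hx h0 => by
    rw [h0, norm_zero] at hx; linarith
  have hmet : ∀ x : E, x ≠ 0 → 0 < metric S U V x x x := fun x hx => hS.spacelike x x hx hx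
  have hβ : ∀ x : E, x ≠ 0 → 0 < fderiv ℝ V x x := by
    intro x hx
    have ha := hmet x hx
    rw [key2 S U V hx] at ha
    have hα := hS.outward x hx
    have hw := S.w_pos _ (hS.mem x hx)
    by_contra hcon
    push Not at hcon
    have : 0 ≤ fderiv ℝ U x x * fderiv ℝ V x x := mul_nonneg_of_nonpos_of_nonpos hα.le hcon
    have : 0 ≤ S.w (U x, V x) * (fderiv ℝ U x x * fderiv ℝ V x x) := mul_nonneg hw.le this
    linarith
  have haa : ∀ x : E, x ≠ 0 → 0 < aa S U V x := fun x hx => by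
    have hn : 0 < ‖x‖ := norm_pos_iff.2 hx
    unfold aa
    have := hmet x hx
    positivity
  have hffp : ∀ x : E, x ≠ 0 → 0 < ff S U V x := fun x hx => by
    have hn : 0 < ‖x‖ := norm_pos_iff.2 hx
    have hr := S.r_pos _ (hS.mem x hx)
    unfold ff
    positivity
  have hsf : ∀ x : E, x ≠ 0 → ‖x‖ * √(ff S U V x) = S.r (U x, V x) := fun x hx => by
    have hn : 0 < ‖x‖ := norm_pos_iff.2 hx
    have hr := S.r_pos _ (hS.mem x hx)
    unfold ff
    rw [← div_pow, Real.sqrt_sq (by positivity)]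
    field_simp
  have hsm : ∀ x : E, x ≠ 0 → √(metric S U V x x x) = ‖x‖ * √(aa S U V x) := fun x hx => by
    have hn : 0 < ‖x‖ := norm_pos_iff.2 hx
    unfold aa
    rw [Real.sqrt_div (hmet x hx).le, Real.sqrt_sq hn.le]
    field_simp
  have hN : ∀ x : E, x ≠ 0 → normalDeriv S U V x * (‖x‖ * √(aa S U V x)) =
      fderiv ℝ V x x * dv S.r (U x, V x) - fderiv ℝ U x x * du S.r (U x, V x) := fun x hx => by
    have hn : 0 < ‖x‖ := norm_pos_iff.2 hx
    have hs : 0 < √(aa S U V x) := Real.sqrt_pos.2 (haa x hx)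
    unfold normalDeriv
    rw [hsm x hx, div_mul_cancel₀ _ (by positivity)]
  -- limits
  have hsA : Tendsto (fun x => √(aa S U V x)) (Bornology.cobounded E) (𝓝 1) := by
    have := hA.sqrt
    rwa [Real.sqrt_one] at this
  have hsF : Tendsto (fun x => √(ff S U V x)) (Bornology.cobounded E) (𝓝 1) := by
    have := hFf.sqrt
    rwa [Real.sqrt_one] at this
  have hinv : Tendsto (fun x : E => ‖x‖⁻¹) (Bornology.cobounded E) (𝓝 0) :=
    tendsto_inv_atTop_zero.comp hnorm
  have hD0 : Tendsto (fun x => fderiv ℝ (ff S U V) x x) (Bornology.cobounded E) (𝓝 0) :=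
    hD.trans_tendsto hinv
  have hN0 : Tendsto (normalDeriv S U V) (Bornology.cobounded E) (𝓝 0) :=
    hF.decay_normal.trans_tendsto hinv
  have hq : ∀ g : E → ℝ, g =O[Bornology.cobounded E] (fun x => ‖x‖⁻¹) →
      Tendsto (fun x => ‖x‖ * g x ^ 2) (Bornology.cobounded E) (𝓝 0) := by
    intro g hg
    have h5 : (fun x : E => ‖x‖ * g x ^ 2) =O[Bornology.cobounded E] fun x : E => ‖x‖ * (‖x‖⁻¹) ^ 2 :=
      (isBigO_refl _ _).mul (hg.pow 2)
    refine h5.trans_tendsto (hinv.congr' ?_)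
    filter_upwards [hlarge] with x hx
    have hn : ‖x‖ ≠ 0 := norm_ne_zero_iff.2 (hpt x hx)
    field_simp
  constructor
  · -- the signs
    have l1 : Tendsto (fun x => (ff S U V x + fderiv ℝ (ff S U V) x x / 2) / √(ff S U V x) +
        √(aa S U V x) * normalDeriv S U V x) (Bornology.cobounded E) (𝓝 ((1 + 0 / 2) / 1 + 1 * 0)) :=
      ((hFf.add (hD0.div_const 2)).div hsF one_ne_zero).add (hsA.mul hN0)
    have l2 : Tendsto (fun x => (ff S U V x + fderiv ℝ (ff S U V) x x / 2) / √(ff S U V x) -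
        √(aa S U V x) * normalDeriv S U V x) (Bornology.cobounded E) (𝓝 ((1 + 0 / 2) / 1 - 1 * 0)) :=
      ((hFf.add (hD0.div_const 2)).div hsF one_ne_zero).sub (hsA.mul hN0)
    have p1 : ∀ᶠ x in Bornology.cobounded E, 0 < (ff S U V x + fderiv ℝ (ff S U V) x x / 2) /
        √(ff S U V x) + √(aa S U V x) * normalDeriv S U V x :=
      l1.eventually_const_lt (by norm_num)
    have p2 : ∀ᶠ x in Bornology.cobounded E, 0 < (ff S U V x + fderiv ℝ (ff S U V) x x / 2) /
        √(ff S U V x) - √(aa S U V x) * normalDeriv S U V x :=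
      l2.eventually_const_lt (by norm_num)
    filter_upwards [p1, p2, hlarge] with x q1 q2 hx
    have hx0 := hpt x hx
    have hn : 0 < ‖x‖ := norm_pos_iff.2 hx0
    have hs : 0 < √(ff S U V x) := Real.sqrt_pos.2 (hffp x hx0)
    have k1 := key1 hS hx0
    have k3 := hN x hx0
    rw [← hsf x hx0] at k1
    have hsq : √(ff S U V x) ^ 2 = ff S U V x := Real.sq_sqrt (hffp x hx0).le
    set α := fderiv ℝ U x x with hα
    set β := fderiv ℝ V x x with hβ'
    set ru := du S.r (U x, V x) with hru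
    set rv := dv S.r (U x, V x) with hrv
    set q := √(ff S U V x) with hq'
    set s := √(aa S U V x) with hs'
    set N := normalDeriv S U V x with hN'
    set d := fderiv ℝ (ff S U V) x x with hd'
    set F := ff S U V x with hF'
    have hDr : α * ru + β * rv = ‖x‖ * ((F + d / 2) / q) := by
      rw [mul_div_assoc', eq_div_iff hs.ne']
      have : ‖x‖ * ((α * ru + β * rv) * q) = ‖x‖ * (‖x‖ * (F + d / 2)) := by linarith
      exact mul_left_cancel₀ hn.ne' this
    have e1 : 2 * (β * rv) = ‖x‖ * ((F + d / 2) / q + s * N) := by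
      have : 2 * (β * rv) = (α * ru + β * rv) + (β * rv - α * ru) := by ring
      rw [this, hDr, ← k3]; ring
    have e2 : 2 * (α * ru) = ‖x‖ * ((F + d / 2) / q - s * N) := by
      have : 2 * (α * ru) = (α * ru + β * rv) - (β * rv - α * ru) := by ring
      rw [this, hDr, ← k3]; ring
    have g1 : 0 < β * rv := by
      have : 0 < 2 * (β * rv) := by rw [e1]; exact mul_pos hn q1
      linarith
    have g2 : 0 < α * ru := by
      have : 0 < 2 * (α * ru) := by rw [e2]; exact mul_pos hn q2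
      linarith
    refine ⟨?_, ?_⟩
    · by_contra hcon
      push Not at hcon
      have : α * ru ≤ 0 := mul_nonpos_of_nonpos_of_nonneg (hS.outward x hx0).le hcon
      linarith
    · exact (pos_iff_pos_of_mul_pos g1).1 (hβ x hx0)
  · -- the mass
    have hT : Tendsto (fun x => √(ff S U V x) / aa S U V x * flux S U V ‖x‖ -
        √(ff S U V x) / (8 * aa S U V x * ff S U V x) * (‖x‖ * (fderiv ℝ (ff S U V) x x) ^ 2) +
        √(ff S U V x) / 2 * (‖x‖ * normalDeriv S U V x ^ 2)) (Bornology.cobounded E)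
        (𝓝 (1 / 1 * m - 1 / (8 * 1 * 1) * 0 + 1 / 2 * 0)) :=
      (((hsF.div hA one_ne_zero).mul hflux).sub
        ((hsF.div ((hA.const_mul 8).mul hFf) (by norm_num)).mul (hq _ hD))).add
        ((hsF.div_const 2).mul (hq _ hF.decay_normal))
    have e0 : (1 / 1 * m - 1 / (8 * 1 * 1) * 0 + 1 / 2 * 0 : ℝ) = m := by ring
    rw [e0] at hT
    refine hT.congr' ?_
    filter_upwards [hlarge] with x hx
    have hx0 := hpt x hx
    have hn : 0 < ‖x‖ := norm_pos_iff.2 hx0
    have hs : 0 < √(ff S U V x) := Real.sqrt_pos.2 (hffp x hx0)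
    have ha : 0 < √(aa S U V x) := Real.sqrt_pos.2 (haa x hx0)
    have hsq : √(ff S U V x) ^ 2 = ff S U V x := Real.sq_sqrt (hffp x hx0).le
    have haq : √(aa S U V x) ^ 2 = aa S U V x := Real.sq_sqrt (haa x hx0).le
    have k1 := key1 hS hx0
    rw [← hsf x hx0] at k1
    have k2 := key2 S U V hx0
    have k3 := hN x hx0
    have k4 : aa S U V x * ‖x‖ ^ 2 = metric S U V x x x := by
      unfold aa
      field_simp
    have hw := S.w_pos _ (hS.mem x hx0)
    have hfl := h3 S U V hS R hRpos hsym x hx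
    have key := inf_alg (n := ‖x‖) (q := √(ff S U V x)) (s := √(aa S U V x))
      (d := fderiv ℝ (ff S U V) x x) (w := S.w (U x, V x)) (α := fderiv ℝ U x x)
      (β := fderiv ℝ V x x) (ru := du S.r (U x, V x)) (rv := dv S.r (U x, V x))
      (N := normalDeriv S U V x) hn hs ha hw (by rw [hsq]; exact k1) (by rw [haq, k4, k2]) k3
    unfold mH
    rw [← hsf x hx0, key, hfl, hsq, haq]

end Pool.Agent.Q90.PI
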