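import Pool.Agent.Q90.PI.Stm

/-! Monotonicity of the Hawking mass (job PI8). -/

set_option autoImplicit false

open MeasureTheory Set Filter Topology Metric
open scoped ContDiff ENNReal

namespace Pool.Agent.Q90.PI

private theorem cda (S : Spacetime) {p : ℝ × ℝ} (hp : p ∈ S.Q) :
    ContDiffAt ℝ ∞ S.r p ∧ ContDiffAt ℝ ∞ S.w p :=
  ⟨S.smooth_r.contDiffAt (S.isOpen.mem_nhds hp), S.smooth_w.contDiffAt (S.isOpen.mem_nhds hp)⟩

theorem contDiffAt_du {f : ℝ × ℝ → ℝ} {p : ℝ × ℝ} (hf : ContDiffAt ℝ ∞ f p) :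
    ContDiffAt ℝ ∞ (du f) p := by
  have h1 : ContDiffAt ℝ ∞ (fderiv ℝ f) p := hf.fderiv_right (m := ∞) (by simp)
  exact h1.clm_apply contDiffAt_const

theorem contDiffAt_dv {f : ℝ × ℝ → ℝ} {p : ℝ × ℝ} (hf : ContDiffAt ℝ ∞ f p) :
    ContDiffAt ℝ ∞ (dv f) p := by
  have h1 : ContDiffAt ℝ ∞ (fderiv ℝ f) p := hf.fderiv_right (m := ∞) (by simp)
  exact h1.clm_apply contDiffAt_const

/-- symmetry of the second derivative -/
theorem du_dv {f : ℝ × ℝ → ℝ} {p : ℝ × ℝ} (hf : ContDiffAt ℝ ∞ f p) :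
    du (dv f) p = dv (du f) p := by
  have h1 : ContDiffAt ℝ ∞ (fderiv ℝ f) p := hf.fderiv_right (m := ∞) (by simp)
  have h2 : DifferentiableAt ℝ (fderiv ℝ f) p := h1.differentiableAt (by simp)
  have hs : IsSymmSndFDerivAt ℝ f p := hf.isSymmSndFDerivAt (by
    rw [minSmoothness_of_isRCLikeNormedField]
    exact WithTop.coe_le_coe.2 le_top)
  have e1 : du (dv f) p = fderiv ℝ (fderiv ℝ f) p (1, 0) (0, 1) := by
    unfold du dv
    rw [fderiv_clm_apply h2 (differentiableAt_const _)]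
    simp
  have e2 : dv (du f) p = fderiv ℝ (fderiv ℝ f) p (0, 1) (1, 0) := by
    unfold du dv
    rw [fderiv_clm_apply h2 (differentiableAt_const _)]
    simp
  rw [e1, e2]
  exact hs.eq _ _

/-- the two product rules in one -/
private theorem prod_rule {r w a b : ℝ × ℝ → ℝ} {p : ℝ × ℝ} (hr : DifferentiableAt ℝ r p)
    (hw : DifferentiableAt ℝ w p) (ha : DifferentiableAt ℝ a p) (hb : DifferentiableAt ℝ b p)
    (hw0 : w p ≠ 0) (X : ℝ × ℝ) :
    DifferentiableAt ℝ (fun q => r q / 2 * (1 + 4 * a q * b q / w q)) p ∧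
    fderiv ℝ (fun q => r q / 2 * (1 + 4 * a q * b q / w q)) p X =
      fderiv ℝ r p X / 2 * (1 + 4 * a p * b p / w p) +
        2 * r p * (b p * fderiv ℝ (fun q => a q / w q) p X + a p / w p * fderiv ℝ b p X) := by
  have hA : DifferentiableAt ℝ (fun q => a q / w q) p := by
    simp only [div_eq_mul_inv]
    exact ha.fun_mul (hw.fun_inv hw0)
  have h1 : HasFDerivAt (fun q => a q / w q) (fderiv ℝ (fun q => a q / w q) p) p := hA.hasFDerivAt
  have h2 := h1.mul hb.hasFDerivAt
  have h3 := (hr.hasFDerivAt.const_mul (1 / 2 : ℝ)).mul ((h2.const_mul (4 : ℝ)).const_add (1 : ℝ))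
  have e0 : (fun q => r q / 2 * (1 + 4 * a q * b q / w q)) =
      (fun q => 1 / 2 * r q) * fun q => 1 + 4 * ((fun q => a q / w q) * b) q := by
    funext q
    simp only [Pi.mul_apply]
    ring
  rw [e0]
  refine ⟨h3.differentiableAt, ?_⟩
  rw [h3.fderiv]
  simp only [ContinuousLinearMap.add_apply, ContinuousLinearMap.smul_apply, smul_eq_mul,
    Pi.mul_apply]
  ring

theorem mono : S_mono := by
  intro S hE p hp
  obtain ⟨hr, hw⟩ := cda S hp
  have hdr : DifferentiableAt ℝ S.r p := hr.differentiableAt (by simp)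
  have hdw : DifferentiableAt ℝ S.w p := hw.differentiableAt (by simp)
  have ha : DifferentiableAt ℝ (du S.r) p := (contDiffAt_du hr).differentiableAt (by simp)
  have hb : DifferentiableAt ℝ (dv S.r) p := (contDiffAt_dv hr).differentiableAt (by simp)
  have hw0 := S.w_pos p hp
  have hr0 := S.r_pos p hp
  have huu := hE.uu p hp
  have hvv := hE.vv p hp
  have huv := hE.uv p hp
  have hsym := du_dv hr
  have P1 := prod_rule hdr hdw ha hb hw0.ne' (1, 0)
  have P2 := prod_rule hdr hdw hb ha hw0.ne' (0, 1)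
  have e2 : (fun q => S.r q / 2 * (1 + 4 * dv S.r q * du S.r q / S.w q)) = mH S := by
    funext q
    unfold mH
    ring
  have e1 : (fun q => S.r q / 2 * (1 + 4 * du S.r q * dv S.r q / S.w q)) = mH S := rfl
  rw [e1] at P1
  rw [e2] at P2
  refine ⟨P1.1, fun hu hv => ⟨?_, ?_⟩⟩
  · have h := P1.2
    change du (mH S) p = du S.r p / 2 * (1 + 4 * du S.r p * dv S.r p / S.w p) +
      2 * S.r p * (dv S.r p * du (fun q => du S.r q / S.w q) p +
        du S.r p / S.w p * du (dv S.r) p) at h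
    have h' : du (mH S) p = 2 * (du S.r p / S.w p) *
        (S.r p * du (dv S.r) p + du S.r p * dv S.r p + S.w p / 4) +
        2 * S.r p * (dv S.r p * du (fun q => du S.r q / S.w q) p) := by
      rw [h]
      field_simp
      ring
    rw [h']
    have k1 : du S.r p / S.w p ≤ 0 := div_nonpos_of_nonpos_of_nonneg hu hw0.le
    have k2 := mul_nonpos_of_nonpos_of_nonneg k1 huv
    have k3 := mul_nonpos_of_nonneg_of_nonpos hv huu
    have k4 := mul_nonpos_of_nonneg_of_nonpos hr0.le k3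
    nlinarith
  · have h := P2.2
    change dv (mH S) p = dv S.r p / 2 * (1 + 4 * dv S.r p * du S.r p / S.w p) +
      2 * S.r p * (du S.r p * dv (fun q => dv S.r q / S.w q) p +
        dv S.r p / S.w p * dv (du S.r) p) at h
    have h' : dv (mH S) p = 2 * (dv S.r p / S.w p) *
        (S.r p * du (dv S.r) p + du S.r p * dv S.r p + S.w p / 4) +
        2 * S.r p * (du S.r p * dv (fun q => dv S.r q / S.w q) p) := by
      rw [h, hsym]
      field_simp
      ring
    rw [h']
    have k1 : 0 ≤ dv S.r p / S.w p := div_nonneg hv hw0.le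
    have k2 := mul_nonneg k1 huv
    have k3 := mul_nonneg_of_nonpos_of_nonpos hu hvv
    have k4 := mul_nonneg hr0.le k3
    nlinarith

end Pool.Agent.Q90.PI
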