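import Pool.Agent.Q90.PI.Stm
import Pool.Agent.H624R3.AQ.Polar

/-! A radial integral (job PI5). -/

set_option autoImplicit false

open MeasureTheory Set Filter Topology Metric
open scoped ContDiff ENNReal

namespace Pool.Agent.Q90.PI

private theorem meas_apply (h : E → ℝ) : Measurable fun x => fderiv ℝ h x x := by
  have hM : Measurable (fderiv ℝ h) := measurable_fderiv ℝ h
  have e : (fun x => fderiv ℝ h x x) =
      fun x => ∑ i, x i * fderiv ℝ h x (EuclideanSpace.single i 1) := by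
    funext x
    have hx : x = ∑ i, x i • EuclideanSpace.single i (1 : ℝ) := by
      have h3 := (EuclideanSpace.basisFun (Fin 3) ℝ).sum_repr x
      simpa using h3.symm
    have h4 : ∀ L : E →L[ℝ] ℝ, L x = ∑ i, x i * L (EuclideanSpace.single i 1) := by
      intro L
      conv_lhs => rw [hx]
      simp [map_sum]
    exact h4 _
  rw [e]
  refine Finset.measurable_fun_sum _ fun i _ => ?_
  refine Measurable.mul ?_ (hM.apply_continuousLinearMap _)
  exact (EuclideanSpace.proj i : E →L[ℝ] ℝ).continuous.measurable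

private theorem sphere_measure :
    (volume : Measure E).toSphere univ = ENNReal.ofReal (4 * Real.pi) := by
  rw [Measure.toSphere_apply_univ]
  have h : volume (ball (0 : E) 1) = ENNReal.ofReal (4 / 3 * Real.pi) := by
    have h2 := EuclideanSpace.volume_ball_fin_three (0 : EuclideanSpace ℝ (Fin 3)) 1
    refine h2.trans ?_
    rw [ENNReal.ofReal_one, one_pow, one_mul]
    congr 1
    ring
  have hf : Module.finrank ℝ E = 3 := by simp [E]
  rw [h, hf]
  have h3 : ((3 : ℕ) : ℝ≥0∞) = ENNReal.ofReal 3 := by norm_num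
  rw [h3, ← ENNReal.ofReal_mul (by norm_num)]
  congr 1
  ring

/-- the integral along a ray -/
private theorem ray {h : E → ℝ} {ε R : ℝ} (hε : 0 < ε) (hh : ContDiffOn ℝ 1 h {0}ᶜ)
    (h1 : ∀ x, x ≠ 0 → ‖x‖ ≤ ε → h x = 1) (h0 : ∀ x, R ≤ ‖x‖ → h x = 0)
    (hd : ∀ x, x ≠ 0 → fderiv ℝ h x x ≤ 0) {θ : E} (hθ : ‖θ‖ = 1) :
    ∫⁻ r in Ioi (0 : ℝ), ENNReal.ofReal (-(fderiv ℝ h (r • θ) θ)) = 1 := by
  have hθ0 : θ ≠ 0 := by
    intro hc
    rw [hc, norm_zero] at hθ
    norm_num at hθ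
  have hne : ∀ r ∈ Ioi (0 : ℝ), r • θ ≠ 0 := fun r hr => smul_ne_zero (ne_of_gt hr) hθ0
  have hnorm : ∀ r ∈ Ioi (0 : ℝ), ‖r • θ‖ = r := by
    intro r hr
    rw [norm_smul, hθ, mul_one, Real.norm_eq_abs, abs_of_pos hr]
  have hder : ∀ r ∈ Ioi (0 : ℝ), HasDerivAt (fun r : ℝ => h (r • θ)) (fderiv ℝ h (r • θ) θ) r := by
    intro r hr
    have hD : DifferentiableAt ℝ h (r • θ) :=
      (hh.contDiffAt (isOpen_compl_singleton.mem_nhds (hne r hr))).differentiableAt (by simp)
    have h2 : HasDerivAt (fun r : ℝ => r • θ) ((1 : ℝ) • θ) r := (hasDerivAt_id r).smul_const θ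
    rw [one_smul] at h2
    exact hD.hasFDerivAt.comp_hasDerivAt r h2
  set g : ℝ → ℝ := fun r => if r ≤ 0 then 1 else h (r • θ) with hg
  have hg0 : g 0 = 1 := by simp [hg]
  have hnear : ∀ᶠ r in 𝓝[Ici (0 : ℝ)] 0, g r = 1 := by
    have : Iio ε ∈ 𝓝 (0 : ℝ) := Iio_mem_nhds hε
    filter_upwards [mem_nhdsWithin_of_mem_nhds this] with r hr
    by_cases hr0 : r ≤ 0
    · simp [hg, hr0]
    · push Not at hr0
      simp only [hg, not_le.2 hr0, if_false]
      exact h1 _ (hne r hr0) (by rw [hnorm r hr0]; exact hr.le)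
  have hcont : ContinuousWithinAt g (Ici 0) 0 := by
    unfold ContinuousWithinAt
    rw [hg0]
    exact tendsto_const_nhds.congr' (hnear.mono fun r hr => hr.symm)
  have hderiv : ∀ r ∈ Ioi (0 : ℝ), HasDerivAt g (fderiv ℝ h (r • θ) θ) r := by
    intro r hr
    refine (hder r hr).congr_of_eventuallyEq ?_
    filter_upwards [Ioi_mem_nhds (show (0 : ℝ) < r from hr)] with s hs
    simp only [hg, not_le.2 (show (0 : ℝ) < s from hs), if_false]
  have hneg : ∀ r ∈ Ioi (0 : ℝ), fderiv ℝ h (r • θ) θ ≤ 0 := by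
    intro r hr
    have h3 := hd _ (hne r hr)
    rw [map_smul, smul_eq_mul] at h3
    by_contra hcon
    push Not at hcon
    have := mul_pos (show (0 : ℝ) < r from hr) hcon
    linarith
  have hlim : Tendsto g atTop (𝓝 0) := by
    refine tendsto_const_nhds.congr' ?_
    filter_upwards [eventually_ge_atTop R, eventually_gt_atTop 0] with r hr hr0
    simp only [hg, not_le.2 hr0, if_false]
    exact (h0 _ (by rw [hnorm r hr0]; exact hr)).symm
  have hint := integrableOn_Ioi_deriv_of_nonpos hcont hderiv hneg hlim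
  have hval := integral_Ioi_of_hasDerivAt_of_nonpos hcont hderiv hneg hlim
  rw [hg0] at hval
  have hn := ofReal_integral_eq_lintegral_ofReal hint.neg
    ((ae_restrict_iff' measurableSet_Ioi).2 (ae_of_all _ fun r hr => by
      simpa using hneg r hr))
  simp only [Pi.neg_apply] at hn
  rw [← hn, integral_neg, hval]
  simp

theorem rad : S_rad := by
  intro h ε R hε hh h1 h0 hd
  have hF : Measurable fun x : E => ENNReal.ofReal (-(fderiv ℝ h x x) / ‖x‖ ^ 3) :=
    ((meas_apply h).neg.div (measurable_norm.pow_const 3)).ennreal_ofReal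
  rw [Pool.Agent.H624R3.AQ.polar volume _ hF]
  have hf : Module.finrank ℝ E - 1 = 2 := by simp [E]
  rw [hf]
  have hin : ∀ θ : sphere (0 : E) 1, ∫⁻ r : Ioi (0 : ℝ),
      ENNReal.ofReal (-(fderiv ℝ h (r.1 • θ.1) (r.1 • θ.1)) / ‖r.1 • θ.1‖ ^ 3)
        ∂(Measure.volumeIoiPow 2) = 1 := by
    intro θ
    have hθ : ‖θ.1‖ = 1 := by simp
    have hFθ : Measurable fun r : ℝ =>
        ENNReal.ofReal (-(fderiv ℝ h (r • θ.1) (r • θ.1)) / ‖r • θ.1‖ ^ 3) :=
      hF.comp ((continuous_id.smul continuous_const).measurable)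
    have hFθ' : Measurable fun r : Ioi (0 : ℝ) =>
        ENNReal.ofReal (-(fderiv ℝ h (r.1 • θ.1) (r.1 • θ.1)) / ‖r.1 • θ.1‖ ^ 3) :=
      hFθ.comp measurable_subtype_coe
    rw [Measure.volumeIoiPow, lintegral_withDensity_eq_lintegral_mul _
      (show Measurable fun r : Ioi (0 : ℝ) => ENNReal.ofReal (r.1 ^ 2) by fun_prop) hFθ']
    simp only [Pi.mul_apply]
    rw [lintegral_subtype_comap measurableSet_Ioi (fun r : ℝ => ENNReal.ofReal (r ^ 2) *
      ENNReal.ofReal (-(fderiv ℝ h (r • θ.1) (r • θ.1)) / ‖r • θ.1‖ ^ 3))]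
    rw [← ray hε hh h1 h0 hd hθ]
    refine setLIntegral_congr_fun measurableSet_Ioi ?_
    intro r hr
    have hr0 : 0 < r := hr
    simp only
    rw [← ENNReal.ofReal_mul (by positivity), norm_smul, hθ, mul_one, Real.norm_eq_abs,
      abs_of_pos hr0, map_smul, smul_eq_mul]
    congr 1
    field_simp
  simp_rw [hin]
  rw [lintegral_one, sphere_measure]

end Pool.Agent.Q90.PI
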