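import Pool.Agent.Q90.PI.Stm

/-! Job PI1: level spheres. -/

set_option autoImplicit false
set_option linter.all false

open MeasureTheory Set Filter Topology Metric
open scoped ContDiff ENNReal

namespace Pool.Agent.Q90.PI

/-- the point is good -/
def Good (Q : Set (ℝ × ℝ)) (F : E → ℝ × ℝ) (x₀ z : E) : Prop :=
  z ≠ 0 ∧ (F z).1 = (F x₀).1 ∧ ∀ s ∈ uIcc (F x₀).2 (F z).2, ((F x₀).1, s) ∈ Q

/-- the points with a good point on their ray -/
def WW (Q : Set (ℝ × ℝ)) (F : E → ℝ × ℝ) (x₀ : E) : Set E :=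
  {x | x ≠ 0 ∧ ∃ t : ℝ, 0 < t ∧ Good Q F x₀ (t • x)}

theorem WW_open (Q : Set (ℝ × ℝ)) (F : E → ℝ × ℝ) (hQ : IsOpen Q) (hF : ContinuousOn F {0}ᶜ)
    (hmem : ∀ x, x ≠ 0 → F x ∈ Q)
    (hmono : ∀ x, x ≠ 0 → StrictMonoOn (fun t : ℝ => (F (t • x)).1) (Ioi 0)) (x₀ : E) :
    IsOpen (WW Q F x₀) := by
  have hcont : ∀ z, z ≠ 0 → ContinuousAt F z := fun z hz =>
    hF.continuousAt (isOpen_compl_singleton.mem_nhds hz)
  rw [isOpen_iff_mem_nhds]
  rintro x ⟨hx, t, ht, hz, hz1, hz2⟩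
  have hS : IsOpen {s : ℝ | ((F x₀).1, s) ∈ Q} := hQ.preimage (by fun_prop)
  have hs0 : (F (t • x)).2 ∈ {s : ℝ | ((F x₀).1, s) ∈ Q} := by
    change ((F x₀).1, (F (t • x)).2) ∈ Q
    rw [← hz1]
    exact hmem _ hz
  obtain ⟨δ, hδ, hball⟩ := Metric.isOpen_iff.1 hS _ hs0
  have h2 : ContinuousAt (fun z' => (F z').2) (t • x) := (hcont _ hz).snd
  have h3 : ∀ᶠ z' in 𝓝 (t • x), dist (F z').2 (F (t • x)).2 < δ :=
    h2.eventually (Metric.ball_mem_nhds _ hδ)
  have hN : ∀ᶠ z' in 𝓝 (t • x), z' ≠ 0 ∧ ((F z').1 = (F x₀).1 → Good Q F x₀ z') := by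
    filter_upwards [h3, isOpen_compl_singleton.mem_nhds hz] with z' h4 h5
    refine ⟨h5, fun h6 => ⟨h5, h6, fun s hs => ?_⟩⟩
    rcases uIcc_subset_uIcc_union_uIcc (b := (F (t • x)).2) hs with h7 | h7
    · exact hz2 s h7
    · have h8 : s ∈ ball (F (t • x)).2 δ := by
        rw [Metric.mem_ball]
        refine lt_of_le_of_lt ?_ h4
        rw [Real.dist_eq, Real.dist_eq]
        exact abs_sub_left_of_mem_uIcc h7
      exact hball h8
  have h8 : ∀ᶠ p : ℝ × E in 𝓝 (t, x),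
      p.1 • p.2 ≠ 0 ∧ ((F (p.1 • p.2)).1 = (F x₀).1 → Good Q F x₀ (p.1 • p.2)) := by
    have h9 : Tendsto (fun p : ℝ × E => p.1 • p.2) (𝓝 (t, x)) (𝓝 (t • x)) :=
      (continuous_fst.smul continuous_snd).tendsto (t, x)
    exact h9.eventually hN
  obtain ⟨δ', hδ', hb'⟩ := Metric.eventually_nhds_iff.1 h8
  obtain ⟨d, hd, hd1, hd2⟩ : ∃ d : ℝ, 0 < d ∧ d < δ' ∧ d < t := by
    refine ⟨min (δ' / 2) (t / 2), by positivity, ?_, ?_⟩
    · exact lt_of_le_of_lt (min_le_left _ _) (by linarith)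
    · exact lt_of_le_of_lt (min_le_right _ _) (by linarith)
  have hlow : (F ((t - d) • x)).1 < (F x₀).1 := by
    rw [← hz1]
    exact hmono x hx (show 0 < t - d by linarith) ht (by linarith)
  have hup : (F x₀).1 < (F ((t + d) • x)).1 := by
    rw [← hz1]
    exact hmono x hx ht (show 0 < t + d by linarith) (by linarith)
  have hne : ∀ (s : ℝ) (y : E), 0 < s → y ≠ 0 → s • y ≠ 0 := fun s y hs hy =>
    smul_ne_zero hs.ne' hy
  have hc : ∀ s : ℝ, 0 < s → ContinuousAt (fun y : E => (F (s • y)).1) x := by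
    intro s hs
    have h9 : ContinuousAt (fun y : E => s • y) x := by fun_prop
    exact (ContinuousAt.comp (f := fun y : E => s • y) (g := F) (hcont _ (hne s x hs hx)) h9).fst
  have c1 : ∀ᶠ y in 𝓝 x, (F ((t - d) • y)).1 < (F x₀).1 :=
    (hc (t - d) (by linarith)).eventually (Iio_mem_nhds hlow)
  have c2 : ∀ᶠ y in 𝓝 x, (F x₀).1 < (F ((t + d) • y)).1 :=
    (hc (t + d) (by linarith)).eventually (Ioi_mem_nhds hup)
  filter_upwards [c1, c2, Metric.ball_mem_nhds x hδ', isOpen_compl_singleton.mem_nhds hx] with y h1 h2 h3 h4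
  have h4' : y ≠ 0 := h4
  refine ⟨h4', ?_⟩
  have hcon : ContinuousOn (fun s : ℝ => (F (s • y)).1) (Icc (t - d) (t + d)) := by
    intro s hs
    have hs0 : 0 < s := lt_of_lt_of_le (by linarith) hs.1
    have h9 : ContinuousAt (fun s : ℝ => s • y) s := by fun_prop
    exact (ContinuousAt.comp (f := fun s : ℝ => s • y) (g := F) (hcont _ (hne s y hs0 h4')) h9).fst.continuousWithinAt
  obtain ⟨s, hs, hs'⟩ := intermediate_value_Icc (by linarith) hcon ⟨h1.le, h2.le⟩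
  refine ⟨s, lt_of_lt_of_le (by linarith) hs.1, ?_⟩
  have hdist : dist (s, y) (t, x) < δ' := by
    rw [Prod.dist_eq, max_lt_iff]
    refine ⟨?_, h3⟩
    rw [Real.dist_eq, abs_lt]
    constructor
    · linarith [hs.1]
    · linarith [hs.2]
  exact (hb' hdist).2 hs'

/-- **Level spheres** (job PI1). -/
theorem ray : S_ray := by
  intro Q F hQ hF hmem hmono x₀ hx₀ ε R hε hbd
  have hcont : ∀ z, z ≠ 0 → ContinuousAt F z := fun z hz =>
    hF.continuousAt (isOpen_compl_singleton.mem_nhds hz)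
  have hopen := WW_open Q F hQ hF hmem hmono x₀
  have hclosed : closure (WW Q F x₀) ∩ {0}ᶜ ⊆ WW Q F x₀ := by
    rintro x ⟨hxc, hx⟩
    have hx' : x ≠ 0 := hx
    obtain ⟨u, hu, hlim⟩ := mem_closure_iff_seq_limit.1 hxc
    choose hu0 t ht hg using hu
    have hz : ∀ n, t n • u n ∈ closedBall (0 : E) R := by
      intro n
      rw [mem_closedBall_zero_iff]
      exact (hbd _ (hg n).1 (hg n).2.1 (hg n).2.2).2
    obtain ⟨z, hzm, φ, hφ, hlimz⟩ := (isCompact_closedBall (0 : E) R).tendsto_subseq hz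
    have hnz : ε ≤ ‖z‖ := ge_of_tendsto' hlimz.norm fun n =>
      (hbd _ (hg (φ n)).1 (hg (φ n)).2.1 (hg (φ n)).2.2).1
    have hz0 : z ≠ 0 := by
      rintro rfl
      rw [norm_zero] at hnz
      linarith
    have hxn : 0 < ‖x‖ := norm_pos_iff.2 hx'
    have hzn : 0 < ‖z‖ := norm_pos_iff.2 hz0
    have hlim' : Tendsto (fun n => u (φ n)) atTop (𝓝 x) := hlim.comp hφ.tendsto_atTop
    have htn : Tendsto (fun n => t (φ n)) atTop (𝓝 (‖z‖ / ‖x‖)) := by
      have h1 : Tendsto (fun n => ‖t (φ n) • u (φ n)‖ / ‖u (φ n)‖) atTop (𝓝 (‖z‖ / ‖x‖)) :=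
        hlimz.norm.div hlim'.norm hxn.ne'
      refine h1.congr fun n => ?_
      rw [norm_smul, Real.norm_of_nonneg (ht _).le, mul_div_assoc,
        div_self (norm_ne_zero_iff.2 (hu0 _)), mul_one]
    have hzx : z = (‖z‖ / ‖x‖) • x := tendsto_nhds_unique hlimz (htn.smul hlim')
    refine ⟨hx', ‖z‖ / ‖x‖, by positivity, ?_⟩
    rw [← hzx]
    have hFz : Tendsto (fun n => F (t (φ n) • u (φ n))) atTop (𝓝 (F z)) :=
      (hcont z hz0).tendsto.comp hlimz
    have hF1 : Tendsto (fun n => (F (t (φ n) • u (φ n))).1) atTop (𝓝 (F z).1) :=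
      (continuous_fst.tendsto _).comp hFz
    have hF2 : Tendsto (fun n => (F (t (φ n) • u (φ n))).2) atTop (𝓝 (F z).2) :=
      (continuous_snd.tendsto _).comp hFz
    have e1 : (F z).1 = (F x₀).1 := by
      refine tendsto_nhds_unique hF1 (tendsto_const_nhds.congr fun n => ?_)
      exact (hg (φ n)).2.1.symm
    have hend : ((F x₀).1, (F z).2) ∈ Q := by
      rw [← e1]
      exact hmem z hz0
    refine ⟨hz0, e1, fun s hs => ?_⟩
    rcases mem_uIcc.1 hs with ⟨h1, h2⟩ | ⟨h1, h2⟩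
    · rcases h2.eq_or_lt with h3 | h3
      · rw [h3]
        exact hend
      · obtain ⟨n, hn⟩ := (hF2.eventually (Ioi_mem_nhds h3)).exists
        have hn' : s < (F (t (φ n) • u (φ n))).2 := hn
        exact (hg (φ n)).2.2 s (mem_uIcc.2 (Or.inl ⟨h1, hn'.le⟩))
    · rcases h1.eq_or_lt with h3 | h3
      · rw [← h3]
        exact hend
      · obtain ⟨n, hn⟩ := (hF2.eventually (Iio_mem_nhds h3)).exists
        have hn' : (F (t (φ n) • u (φ n))).2 < s := hn
        exact (hg (φ n)).2.2 s (mem_uIcc.2 (Or.inr ⟨hn'.le, h2⟩))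
  have hrank : 1 < Module.rank ℝ E := by
    rw [← Module.finrank_eq_rank, finrank_euclideanSpace_fin]
    norm_num
  have hconn : IsPreconnected ({0}ᶜ : Set E) :=
    (isConnected_compl_singleton_of_one_lt_rank hrank 0).isPreconnected
  have hsub : ({0}ᶜ : Set E) ⊆ WW Q F x₀ := by
    refine hconn.subset_of_closure_inter_subset hopen ⟨x₀, hx₀, hx₀, 1, one_pos, ?_⟩ hclosed
    rw [one_smul]
    refine ⟨hx₀, rfl, fun s hs => ?_⟩
    rw [uIcc_self, mem_singleton_iff] at hs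
    rw [hs]
    exact hmem x₀ hx₀
  intro x hx
  obtain ⟨-, t, ht, -, h1, h2⟩ := hsub hx
  exact ⟨t, ht, h1, h2⟩

end Pool.Agent.Q90.PI
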