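import Pool.Agent.Q90.PI.Stm

/-! Raychaudhuri (job PI7). -/

set_option autoImplicit false

open MeasureTheory Set Filter Topology Metric
open scoped ContDiff ENNReal

namespace Pool.Agent.Q90.PI

/-- One variable: `ρ' = g`, `g = 0` at `v₀`, `g/κ` has derivative `≤ 0`. -/
private theorem one {ρ g κ : ℝ → ℝ} {v₀ v : ℝ}
    (hρ : ∀ s ∈ uIcc v₀ v, HasDerivAt ρ (g s) s)
    (hk : ∀ s ∈ uIcc v₀ v, 0 < κ s)
    (hg : ∀ s ∈ uIcc v₀ v, DifferentiableAt ℝ (fun s => g s / κ s) s)
    (hd : ∀ s ∈ uIcc v₀ v, deriv (fun s => g s / κ s) s ≤ 0) (h0 : g v₀ = 0) :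
    ρ v ≤ ρ v₀ ∧ (v ≤ v₀ → 0 ≤ g v) ∧ (v₀ ≤ v → g v ≤ 0) := by
  have hanti : AntitoneOn (fun s => g s / κ s) (uIcc v₀ v) := by
    apply antitoneOn_of_deriv_nonpos (convex_uIcc v₀ v)
    · exact fun s hs => (hg s hs).continuousAt.continuousWithinAt
    · exact fun s hs => (hg s (interior_subset hs)).differentiableWithinAt
    · exact fun s hs => hd s (interior_subset hs)
  have hcont : ContinuousOn ρ (uIcc v₀ v) := fun s hs => (hρ s hs).continuousAt.continuousWithinAt
  have hsgn1 : ∀ s ∈ uIcc v₀ v, v₀ ≤ s → g s ≤ 0 := by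
    intro s hs hle
    have h := hanti left_mem_uIcc hs hle
    simp only [h0, zero_div] at h
    by_contra hcon
    push Not at hcon
    have := div_pos hcon (hk s hs)
    linarith
  have hsgn2 : ∀ s ∈ uIcc v₀ v, s ≤ v₀ → 0 ≤ g s := by
    intro s hs hle
    have h := hanti hs left_mem_uIcc hle
    simp only [h0, zero_div] at h
    by_contra hcon
    push Not at hcon
    have := div_neg_of_neg_of_pos hcon (hk s hs)
    linarith
  refine ⟨?_, fun h => hsgn2 v right_mem_uIcc h, fun h => hsgn1 v right_mem_uIcc h⟩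
  rcases le_total v₀ v with hle | hle
  · have hm : AntitoneOn ρ (Icc v₀ v) := by
      rw [uIcc_of_le hle] at hcont hρ hsgn1
      apply antitoneOn_of_deriv_nonpos (convex_Icc v₀ v) hcont
      · exact fun s hs => (hρ s (interior_subset hs)).differentiableAt.differentiableWithinAt
      · intro s hs
        rw [(hρ s (interior_subset hs)).deriv]
        exact hsgn1 s (interior_subset hs) (interior_subset hs).1
    exact hm (left_mem_Icc.2 hle) (right_mem_Icc.2 hle) hle
  · have hm : MonotoneOn ρ (Icc v v₀) := by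
      rw [uIcc_of_ge hle] at hcont hρ hsgn2
      apply monotoneOn_of_deriv_nonneg (convex_Icc v v₀) hcont
      · exact fun s hs => (hρ s (interior_subset hs)).differentiableAt.differentiableWithinAt
      · intro s hs
        rw [(hρ s (interior_subset hs)).deriv]
        exact hsgn2 s (interior_subset hs) (interior_subset hs).2
    exact hm (left_mem_Icc.2 hle) (right_mem_Icc.2 hle) hle

private theorem hdv {f : ℝ × ℝ → ℝ} {u s : ℝ} (hf : DifferentiableAt ℝ f (u, s)) :
    HasDerivAt (fun s => f (u, s)) (dv f (u, s)) s := by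
  have h1 : HasDerivAt (fun s : ℝ => ((u, s) : ℝ × ℝ)) ((0 : ℝ), (1 : ℝ)) s :=
    (hasDerivAt_const s u).prodMk (hasDerivAt_id s)
  exact hf.hasFDerivAt.comp_hasDerivAt s h1

private theorem hdu {f : ℝ × ℝ → ℝ} {v s : ℝ} (hf : DifferentiableAt ℝ f (s, v)) :
    HasDerivAt (fun s => f (s, v)) (du f (s, v)) s := by
  have h1 : HasDerivAt (fun s : ℝ => ((s, v) : ℝ × ℝ)) ((1 : ℝ), (0 : ℝ)) s :=
    (hasDerivAt_id s).prodMk (hasDerivAt_const s v)
  exact hf.hasFDerivAt.comp_hasDerivAt s h1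

theorem seg : S_seg := by
  intro S hE u₀ v₀ hp
  have hsm : ∀ p ∈ S.Q, DifferentiableAt ℝ S.r p ∧
      DifferentiableAt ℝ (fun q => du S.r q / S.w q) p ∧
      DifferentiableAt ℝ (fun q => dv S.r q / S.w q) p := by
    intro p hp
    have hr : ContDiffAt ℝ ∞ S.r p := S.smooth_r.contDiffAt (S.isOpen.mem_nhds hp)
    have hw : ContDiffAt ℝ ∞ S.w p := S.smooth_w.contDiffAt (S.isOpen.mem_nhds hp)
    have h1 : ContDiffAt ℝ ∞ (fderiv ℝ S.r) p := hr.fderiv_right (m := ∞) (by simp)
    have hdw : DifferentiableAt ℝ S.w p := hw.differentiableAt (by simp)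
    have h2 : DifferentiableAt ℝ (fderiv ℝ S.r) p := h1.differentiableAt (by simp)
    have hw0 := (S.w_pos p hp).ne'
    refine ⟨hr.differentiableAt (by simp), ?_, ?_⟩
    · simp only [div_eq_mul_inv]
      exact (h2.clm_apply (differentiableAt_const _)).fun_mul (hdw.fun_inv hw0)
    · simp only [div_eq_mul_inv]
      exact (h2.clm_apply (differentiableAt_const _)).fun_mul (hdw.fun_inv hw0)
  constructor
  · intro h0 v hv
    refine one (ρ := fun s => S.r (u₀, s)) (g := fun s => dv S.r (u₀, s))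
      (κ := fun s => S.w (u₀, s)) ?_ ?_ ?_ ?_ h0
    · exact fun s hs => hdv (hsm _ (hv s hs)).1
    · exact fun s hs => S.w_pos _ (hv s hs)
    · exact fun s hs => (hdv (hsm _ (hv s hs)).2.2).differentiableAt
    · intro s hs
      have h := (hdv (hsm _ (hv s hs)).2.2).deriv
      rw [show deriv (fun s => dv S.r (u₀, s) / S.w (u₀, s)) s = _ from h]
      exact hE.vv _ (hv s hs)
  · intro h0 u hu
    refine one (ρ := fun s => S.r (s, v₀)) (g := fun s => du S.r (s, v₀))
      (κ := fun s => S.w (s, v₀)) ?_ ?_ ?_ ?_ h0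
    · exact fun s hs => hdu (hsm _ (hu s hs)).1
    · exact fun s hs => S.w_pos _ (hu s hs)
    · exact fun s hs => (hdu (hsm _ (hu s hs)).2.1).differentiableAt
    · intro s hs
      have h := (hdu (hsm _ (hu s hs)).2.1).deriv
      rw [show deriv (fun s => du S.r (s, v₀) / S.w (s, v₀)) s = _ from h]
      exact hE.uu _ (hu s hs)

end Pool.Agent.Q90.PI
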