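import Pool.Agent.Q90.PI.Stm

set_option autoImplicit false

/-!
# The symmetric part of a slice (job PI9)
-/

open MeasureTheory Set Filter Topology Metric
open scoped ContDiff ENNReal

namespace Pool.Agent.Q90.PI

lemma diffAt_of_smooth {U : E → ℝ} (h : ContDiffOn ℝ ∞ U {0}ᶜ) {x : E} (hx : x ≠ 0) : DifferentiableAt ℝ U x :=
  ((h.contDiffAt (isOpen_compl_singleton.mem_nhds hx))).differentiableAt (by simp)

lemma sym_deriv {U : E → ℝ} (h : ContDiffOn ℝ ∞ U {0}ᶜ) {R : ℝ} (hR : 0 < R)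
    (hs : ∀ x y : E, R < ‖x‖ → ‖x‖ = ‖y‖ → U x = U y) {x : E} (hx : R < ‖x‖) (X : E) :
    fderiv ℝ U x X = fderiv ℝ U x x * inner ℝ x X / ‖x‖ ^ 2 := by
  have hx0 : x ≠ 0 := by
    intro e
    rw [e, norm_zero] at hx
    linarith
  have hn : 0 < ‖x‖ := norm_pos_iff.mpr hx0
  have hU := (diffAt_of_smooth h hx0).hasFDerivAt
  set L := fderiv ℝ U x with hL
  -- the curve
  have hnorm : HasFDerivAt (fun y : E => ‖y‖) ((1 / ‖x‖) • innerSL ℝ x) x := by
    have h1 : HasStrictFDerivAt (fun y : E => ‖y‖ ^ 2) (2 • innerSL ℝ x) x := hasStrictFDerivAt_norm_sq x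
    have h2 : HasFDerivAt (fun y : E => √(‖y‖ ^ 2)) ((1 / (2 * √(‖x‖ ^ 2))) • (2 • innerSL ℝ x)) x :=
      h1.hasFDerivAt.sqrt (by positivity)
    have e1 : (fun y : E => √(‖y‖ ^ 2)) = fun y => ‖y‖ := by
      funext y
      exact Real.sqrt_sq (norm_nonneg _)
    rw [e1] at h2
    refine h2.congr_fderiv ?_
    ext v
    rw [Real.sqrt_sq (norm_nonneg x)]
    simp
    field_simp
  have hk : HasFDerivAt (fun y : E => (‖y‖ / ‖x‖) • x) ((((1 / ‖x‖) * (1 / ‖x‖)) • innerSL ℝ x).smulRight x) x := by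
    have h3 : HasFDerivAt (fun y : E => ‖y‖ / ‖x‖) (((1 / ‖x‖) * (1 / ‖x‖)) • innerSL ℝ x) x := by
      have := hnorm.const_mul (1 / ‖x‖)
      rw [smul_smul] at this
      refine this.congr_of_eventuallyEq (Eventually.of_forall fun y => ?_)
      show ‖y‖ / ‖x‖ = 1 / ‖x‖ * ‖y‖
      ring
    exact h3.smul_const x
  have hkx : (‖x‖ / ‖x‖) • x = x := by rw [div_self hn.ne', one_smul]
  have hU' : HasFDerivAt U L ((fun y : E => (‖y‖ / ‖x‖) • x) x) := by
    show HasFDerivAt U L ((‖x‖ / ‖x‖) • x)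
    rw [hkx]
    exact hU
  have hcomp := HasFDerivAt.comp (g := U) (f := fun y : E => (‖y‖ / ‖x‖) • x) x hU' hk
  have heq : U =ᶠ[𝓝 x] U ∘ fun y : E => (‖y‖ / ‖x‖) • x := by
    have hopen : ∀ᶠ y : E in 𝓝 x, R < ‖y‖ := continuous_norm.continuousAt.eventually (lt_mem_nhds hx)
    filter_upwards [hopen] with y hy
    refine hs y _ hy ?_
    rw [norm_smul, Real.norm_eq_abs, abs_of_nonneg (by positivity)]
    field_simp
  have hL2 := hU.unique (hcomp.congr_of_eventuallyEq heq)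
  have h5 := congrArg (fun T : E →L[ℝ] ℝ => T X) hL2
  simp only [ContinuousLinearMap.comp_apply, ContinuousLinearMap.smulRight_apply,
    _root_.smul_apply, innerSL_apply_apply, smul_eq_mul, map_smul] at h5
  rw [h5]
  field_simp

lemma sym_radial {U : E → ℝ} (h : ContDiffOn ℝ ∞ U {0}ᶜ) {R : ℝ} (hR : 0 < R)
    (hs : ∀ x y : E, R < ‖x‖ → ‖x‖ = ‖y‖ → U x = U y) {x y : E} (hx : R < ‖x‖) (hxy : ‖x‖ = ‖y‖) :
    fderiv ℝ U x x = fderiv ℝ U y y := by
  have hx0 : x ≠ 0 := by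
    intro e
    rw [e, norm_zero] at hx
    linarith
  have hy0 : y ≠ 0 := by
    intro e
    rw [e, norm_zero] at hxy
    linarith
  have key : ∀ z : E, z ≠ 0 → HasDerivAt (fun t : ℝ => U (t • z)) (fderiv ℝ U z z) 1 := by
    intro z hz
    have h1 : HasDerivAt (fun t : ℝ => t • z) z 1 := by
      have := (hasDerivAt_id (1 : ℝ)).smul_const z
      simpa using this
    have h2 : HasFDerivAt U (fderiv ℝ U z) ((1 : ℝ) • z) := by
      rw [one_smul]
      exact (diffAt_of_smooth h hz).hasFDerivAt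
    exact h2.comp_hasDerivAt 1 h1
  have heq : (fun t : ℝ => U (t • x)) =ᶠ[𝓝 1] fun t : ℝ => U (t • y) := by
    have hc : ContinuousAt (fun t : ℝ => ‖t • x‖) 1 := by fun_prop
    have hopen : ∀ᶠ t : ℝ in 𝓝 1, R < ‖t • x‖ := by
      refine hc.eventually (lt_mem_nhds ?_)
      simpa using hx
    filter_upwards [hopen] with t ht
    exact hs _ _ ht (by rw [norm_smul, norm_smul, hxy])
  exact (key x hx0).unique ((key y hy0).congr_of_eventuallyEq heq)

/-- **Job PI9** -/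
theorem sym : S_sym := by
  intro S U V hSl R hR hs
  have hsU : ∀ x y : E, R < ‖x‖ → ‖x‖ = ‖y‖ → U x = U y := fun x y h1 h2 => (hs x y h1 h2).1
  have hsV : ∀ x y : E, R < ‖x‖ → ‖x‖ = ‖y‖ → V x = V y := fun x y h1 h2 => (hs x y h1 h2).2
  have aaeq : ∀ x : E, R < ‖x‖ → aa S U V x = -(S.w (U x, V x) * (fderiv ℝ U x x * fderiv ℝ V x x)) / ‖x‖ ^ 2 := by
    intro x hx
    have hn : 0 < ‖x‖ := hR.trans hx
    unfold aa metric
    rw [real_inner_self_eq_norm_sq]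
    congr 1
    have : ‖x‖ ^ 2 - ‖x‖ ^ 2 * ‖x‖ ^ 2 / ‖x‖ ^ 2 = 0 := by field_simp; ring
    rw [this]
    ring
  refine ⟨fun x X Y hx => ?_, fun x X hx => ⟨sym_deriv hSl.smooth_U hR hsU hx X, sym_deriv hSl.smooth_V hR hsV hx X⟩,
    fun x y hx hxy => ⟨?_, ?_⟩⟩
  · have hn : 0 < ‖x‖ := hR.trans hx
    rw [aaeq x hx]
    unfold metric ff
    rw [sym_deriv hSl.smooth_U hR hsU hx X, sym_deriv hSl.smooth_U hR hsU hx Y, sym_deriv hSl.smooth_V hR hsV hx X,
      sym_deriv hSl.smooth_V hR hsV hx Y]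
    field_simp
    ring
  · have hy : R < ‖y‖ := hxy ▸ hx
    rw [aaeq x hx, aaeq y hy, hsU x y hx hxy, hsV x y hx hxy, hxy, sym_radial hSl.smooth_U hR hsU hx hxy,
      sym_radial hSl.smooth_V hR hsV hx hxy]
  · unfold ff
    rw [hsU x y hx hxy, hsV x y hx hxy, hxy]

end Pool.Agent.Q90.PI
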