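import Pool.Agent.Q90.PI.Stm

/-! Job PI3: smoothness of the volume density and of the regions. -/

set_option autoImplicit false
set_option linter.all false

open MeasureTheory Set Filter Topology Metric
open scoped ContDiff ENNReal

namespace Pool.Agent.Q90.PI

lemma metric_symm (S : Spacetime) (U V : E → ℝ) (x X Y : E) :
    metric S U V x X Y = metric S U V x Y X := by
  unfold metric
  rw [real_inner_comm X Y]
  ring

lemma metric_vec (S : Spacetime) (U V : E → ℝ) (x : E) (v : Fin 3 → ℝ) :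
    metric S U V x (v 0 • e 0 + v 1 • e 1 + v 2 • e 2) (v 0 • e 0 + v 1 • e 1 + v 2 • e 2) =
      ∑ i, v i * ∑ j, comp S U V i j x * v j := by
  simp only [Fin.sum_univ_three]
  unfold comp metric
  simp only [map_add, map_smul, inner_add_left, inner_add_right, inner_smul_left, inner_smul_right,
    smul_eq_mul, RCLike.conj_to_real, conj_trivial]
  ring

lemma det_pos_of (S : Spacetime) (U V : E → ℝ) (x : E)
    (h : ∀ X, X ≠ 0 → 0 < metric S U V x X X) :
    0 < Matrix.det (Matrix.of fun i j : Fin 3 => comp S U V i j x) := by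
  refine Matrix.PosDef.det_pos (Matrix.PosDef.of_dotProduct_mulVec_pos ?_ ?_)
  · ext i j
    rw [Matrix.conjTranspose_apply, Matrix.of_apply, Matrix.of_apply]
    exact metric_symm S U V x _ _
  · intro v hv
    have h1 : v 0 • e 0 + v 1 • e 1 + v 2 • e 2 ≠ 0 := by
      intro h0
      apply hv
      funext i
      have h2 := congrArg (fun z : E => z i) h0
      fin_cases i <;> simpa [e] using h2
    have h3 := h _ h1
    rw [metric_vec] at h3
    exact h3

lemma comp_smooth (S : Spacetime) (U V : E → ℝ) (hS : IsSlice S U V) (i j : Fin 3) :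
    ContDiffOn ℝ ∞ (comp S U V i j) {0}ᶜ := by
  have hU : IsOpen ({0}ᶜ : Set E) := isOpen_compl_singleton
  have hp : ContDiffOn ℝ ∞ (fun x => (U x, V x)) {0}ᶜ := hS.smooth_U.prodMk hS.smooth_V
  have hr : ContDiffOn ℝ ∞ (fun x => S.r (U x, V x)) {0}ᶜ :=
    S.smooth_r.comp hp fun x hx => hS.mem x hx
  have hw : ContDiffOn ℝ ∞ (fun x => S.w (U x, V x)) {0}ᶜ :=
    S.smooth_w.comp hp fun x hx => hS.mem x hx
  have hn : ContDiffOn ℝ ∞ (fun x : E => ‖x‖ ^ 2) {0}ᶜ := (contDiff_norm_sq ℝ).contDiffOn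
  have hn0 : ∀ x ∈ ({0}ᶜ : Set E), ‖x‖ ^ 2 ≠ 0 := fun x hx =>
    pow_ne_zero 2 (norm_ne_zero_iff.2 hx)
  have hUi : ∀ i, ContDiffOn ℝ ∞ (fun x => fderiv ℝ U x (e i)) {0}ᶜ := fun i =>
    (hS.smooth_U.fderiv_of_isOpen hU (by simp)).clm_apply contDiffOn_const
  have hVi : ∀ i, ContDiffOn ℝ ∞ (fun x => fderiv ℝ V x (e i)) {0}ᶜ := fun i =>
    (hS.smooth_V.fderiv_of_isOpen hU (by simp)).clm_apply contDiffOn_const
  have hin : ∀ i, ContDiffOn ℝ ∞ (fun x : E => inner ℝ x (e i)) {0}ᶜ := fun i =>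
    (contDiff_id.inner ℝ contDiff_const).contDiffOn
  exact ((hr.pow 2).div hn hn0).mul (contDiffOn_const.sub (((hin i).mul (hin j)).div hn hn0)) |>.sub
    ((hw.div_const 2).mul (((hUi i).mul (hVi j)).add ((hUi j).mul (hVi i))))

/-- **Smoothness** (job PI3). -/
theorem vol_smooth : S_vol := by
  intro S U V hS
  have hdet : ∀ x, x ≠ 0 → 0 < Matrix.det (Matrix.of fun i j : Fin 3 => comp S U V i j x) :=
    fun x hx => det_pos_of S U V x fun X hX => hS.spacelike x X hx hX
  have hc := comp_smooth S U V hS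
  refine ⟨fun x hx => Real.sqrt_pos.2 (hdet x hx), hc, ?_⟩
  refine ContDiffOn.sqrt ?_ fun x hx => (hdet x hx).ne'
  simp only [Matrix.det_fin_three, Matrix.of_apply]
  exact ((((((hc 0 0).mul (hc 1 1)).mul (hc 2 2)).sub (((hc 0 0).mul (hc 1 2)).mul (hc 2 1))).sub
    (((hc 0 1).mul (hc 1 0)).mul (hc 2 2))).add (((hc 0 1).mul (hc 1 2)).mul (hc 2 0))).add
    (((hc 0 2).mul (hc 1 0)).mul (hc 2 1)) |>.sub (((hc 0 2).mul (hc 1 1)).mul (hc 2 0))

/-- **Regions** (job PI3). -/
theorem reg : S_reg := by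
  intro f hf hpos c
  have hU : IsOpen ({0}ᶜ : Set E) := isOpen_compl_singleton
  refine ⟨?_, fun h => h.1 rfl, ?_⟩
  · have h1 := hf.continuousOn.isOpen_inter_preimage hU (isOpen_Iio (a := c))
    exact h1
  · intro x _ hx
    refine ⟨fun y => f y - c, (hf.contDiffAt (hU.mem_nhds hx)).sub contDiffAt_const, ?_, ?_⟩
    · intro h0
      have h1 := hpos x hx
      rw [fderiv_sub_const] at h0
      rw [h0] at h1
      exact lt_irrefl _ h1
    · filter_upwards [hU.mem_nhds hx] with y hy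
      constructor
      · intro h
        exact sub_neg.2 h.2
      · intro h
        exact ⟨hy, sub_neg.1 h⟩

end Pool.Agent.Q90.PI
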