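import Pool.Agent.Q90.PI.Trap
import Pool.Agent.Q90.PI.Ray
import Pool.Agent.Q90.PI.Alg
import Pool.Agent.Q90.PI.Vol
import Pool.Agent.Q90.PI.Ibp
import Pool.Agent.Q90.PI.Rad
import Pool.Agent.Q90.PI.Area
import Pool.Agent.Q90.PI.Seg
import Pool.Agent.Q90.PI.Mono
import Pool.Agent.Q90.PI.Sym
import Pool.Agent.Q90.PI.Flux
import Pool.Agent.Q90.PI.Asy
import Pool.Agent.Q90.PI.Inf

/-! The lemmas put together. -/

set_option autoImplicit false

open MeasureTheory Set Filter Topology Metric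
open scoped ContDiff ENNReal

namespace Pool.Agent.Q90.PI

variable {S : Spacetime} {U V : E → ℝ}

theorem s_area : S_area := area_le vol_smooth ibp rad

theorem s_inf : S_inf :=
  inf sym vol_smooth (flux_eq sym vol_smooth) (asy sym vol_smooth)

theorem flatEnd_outer (h : IsSlice S U V) {m : ℝ} (hflat : FlatEnd S U V m) : OuterEnd S U V m :=
  hflat.outer s_inf h

theorem sqrt_le {A : ℝ≥0∞} {m : ℝ} (hm : 0 < m) (hA : A ≤ ENNReal.ofReal (16 * Real.pi * m ^ 2)) :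
    A ≠ ⊤ ∧ √(A.toReal / (16 * Real.pi)) ≤ m := by
  have h1 : A ≠ ⊤ := ne_top_of_le_ne_top ENNReal.ofReal_ne_top hA
  refine ⟨h1, ?_⟩
  have hpi := Real.pi_pos
  have h2 : A.toReal ≤ 16 * Real.pi * m ^ 2 :=
    ENNReal.toReal_le_of_le_ofReal (by positivity) hA
  rw [Real.sqrt_le_left hm.le, div_le_iff₀ (by positivity)]
  linarith

theorem two (hE : Energy S) (h : IsSlice S U V) {m : ℝ} (hend : OuterEnd S U V m)
    (h0 : Tendsto (fun x => S.r (U x, V x)) (𝓝[≠] 0) atTop) :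
    0 < m ∧ leastArea S U V ∅ ≠ ⊤ ∧ √((leastArea S U V ∅).toReal / (16 * Real.pi)) ≤ m := by
  obtain ⟨hm, D, hD, hA⟩ := two_ends ray alg reg s_area seg mono hE h hend h0
  refine ⟨hm, sqrt_le hm (le_trans ?_ hA)⟩
  exact iInf₂_le D ⟨hD, by simp⟩

theorem one_region (hE : Energy S) (h : IsSlice S U V) {m : ℝ} (hend : OuterEnd S U V m)
    (hin : Inner S U V) (hT : ∃ Ω, TrappedRegion S U V Ω) :
    0 < m ∧ ∃ D : Set E, Admissible D ∧ (∀ Ω, TrappedRegion S U V Ω → Ω \ {0} ⊆ D) ∧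
      area S U V D ≤ ENNReal.ofReal (16 * Real.pi * m ^ 2) :=
  trapped ray alg reg s_area seg mono hE h hend hin hT

end Pool.Agent.Q90.PI
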