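import Pool.Agent.Q90.PI.Stm

/-! Basic facts about slices. -/

set_option autoImplicit false

open MeasureTheory Set Filter Topology Metric
open scoped ContDiff ENNReal

namespace Pool.Agent.Q90.PI

variable {S : Spacetime} {U V : E → ℝ}

theorem isOpen_ne0 : IsOpen ({0}ᶜ : Set E) := isOpen_compl_singleton

theorem IsSlice.cU (h : IsSlice S U V) {x : E} (hx : x ≠ 0) : ContDiffAt ℝ ∞ U x :=
  h.smooth_U.contDiffAt (isOpen_ne0.mem_nhds hx)

theorem IsSlice.cV (h : IsSlice S U V) {x : E} (hx : x ≠ 0) : ContDiffAt ℝ ∞ V x :=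
  h.smooth_V.contDiffAt (isOpen_ne0.mem_nhds hx)

theorem IsSlice.dU (h : IsSlice S U V) {x : E} (hx : x ≠ 0) : DifferentiableAt ℝ U x :=
  (h.cU hx).differentiableAt (by simp)

theorem IsSlice.dV (h : IsSlice S U V) {x : E} (hx : x ≠ 0) : DifferentiableAt ℝ V x :=
  (h.cV hx).differentiableAt (by simp)

theorem IsSlice.cont (h : IsSlice S U V) : ContinuousOn (fun x => (U x, V x)) {0}ᶜ :=
  h.smooth_U.continuousOn.prodMk h.smooth_V.continuousOn

theorem metric_radial (S : Spacetime) (U V : E → ℝ) {x : E} (hx : x ≠ 0) :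
    metric S U V x x x = -(S.w (U x, V x) * (fderiv ℝ U x x * fderiv ℝ V x x)) := by
  have h : ‖x‖ ≠ 0 := norm_ne_zero_iff.2 hx
  unfold metric
  rw [real_inner_self_eq_norm_sq]
  field_simp
  ring

theorem IsSlice.V_pos (h : IsSlice S U V) {x : E} (hx : x ≠ 0) : 0 < fderiv ℝ V x x := by
  have h1 := h.spacelike x x hx hx
  rw [metric_radial S U V hx] at h1
  have h2 := h.outward x hx
  have h3 := S.w_pos _ (h.mem x hx)
  by_contra h4
  push Not at h4
  have h5 : 0 ≤ fderiv ℝ U x x * fderiv ℝ V x x := mul_nonneg_of_nonpos_of_nonpos h2.le h4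
  nlinarith [mul_nonneg h3.le h5]

theorem smul_ne {t : ℝ} (ht : 0 < t) {x : E} (hx : x ≠ 0) : t • x ≠ 0 :=
  smul_ne_zero ht.ne' hx

/-- derivative along a ray -/
theorem hasDerivAt_ray {f : E → ℝ} {x : E} {t : ℝ} (hf : DifferentiableAt ℝ f (t • x)) :
    HasDerivAt (fun s : ℝ => f (s • x)) (fderiv ℝ f (t • x) x) t := by
  have h1 : HasDerivAt (fun s : ℝ => s • x) x t := by
    simpa using (hasDerivAt_id t).smul_const x
  exact hf.hasFDerivAt.comp_hasDerivAt t h1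

theorem fderiv_ray {f : E → ℝ} {x : E} {t : ℝ} (ht : t ≠ 0) :
    fderiv ℝ f (t • x) x = t⁻¹ * fderiv ℝ f (t • x) (t • x) := by
  rw [map_smul, smul_eq_mul, ← mul_assoc, inv_mul_cancel₀ ht, one_mul]

theorem strictMono_ray {f : E → ℝ} (hf : ∀ x, x ≠ 0 → DifferentiableAt ℝ f x)
    (h : ∀ x, x ≠ 0 → 0 < fderiv ℝ f x x) {x : E} (hx : x ≠ 0) :
    StrictMonoOn (fun t : ℝ => f (t • x)) (Ioi 0) := by
  apply strictMonoOn_of_deriv_pos (convex_Ioi 0)
  · intro t ht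
    exact (hasDerivAt_ray (hf _ (smul_ne ht hx))).continuousAt.continuousWithinAt
  · intro t ht
    rw [interior_Ioi] at ht
    rw [(hasDerivAt_ray (hf _ (smul_ne ht hx))).deriv, fderiv_ray (ne_of_gt ht)]
    exact mul_pos (inv_pos.2 ht) (h _ (smul_ne ht hx))

theorem IsSlice.mono_V (h : IsSlice S U V) {x : E} (hx : x ≠ 0) :
    StrictMonoOn (fun t : ℝ => V (t • x)) (Ioi 0) :=
  strictMono_ray (fun _ hx => h.dV hx) (fun _ hx => h.V_pos hx) hx

theorem IsSlice.mono_U (h : IsSlice S U V) {x : E} (hx : x ≠ 0) :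
    StrictMonoOn (fun t : ℝ => -U (t • x)) (Ioi 0) := by
  refine strictMono_ray (f := fun x => -U x) (fun _ hx => (h.dU hx).neg) (fun y hy => ?_) hx
  rw [fderiv_fun_neg]
  have := h.outward y hy
  simpa using this

theorem cont_du {g : ℝ × ℝ → ℝ} {Q : Set (ℝ × ℝ)} (hQ : IsOpen Q) (hg : ContDiffOn ℝ ∞ g Q) :
    ContDiffOn ℝ ∞ (du g) Q := by
  have h := hg.fderiv_of_isOpen hQ (m := ∞) (by simp)
  exact h.clm_apply contDiffOn_const

theorem cont_dv {g : ℝ × ℝ → ℝ} {Q : Set (ℝ × ℝ)} (hQ : IsOpen Q) (hg : ContDiffOn ℝ ∞ g Q) :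
    ContDiffOn ℝ ∞ (dv g) Q := by
  have h := hg.fderiv_of_isOpen hQ (m := ∞) (by simp)
  exact h.clm_apply contDiffOn_const

theorem fderiv_prod_apply (g : ℝ × ℝ → ℝ) (p : ℝ × ℝ) (a b : ℝ) :
    fderiv ℝ g p (a, b) = a * du g p + b * dv g p := by
  have : ((a, b) : ℝ × ℝ) = a • ((1 : ℝ), (0 : ℝ)) + b • ((0 : ℝ), (1 : ℝ)) := by
    ext <;> simp
  rw [this, map_add, map_smul, map_smul]
  rfl

/-- chain rule -/
theorem IsSlice.comp_fderiv (h : IsSlice S U V) {g : ℝ × ℝ → ℝ} {x : E} (hx : x ≠ 0)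
    (hg : DifferentiableAt ℝ g (U x, V x)) :
    DifferentiableAt ℝ (fun y => g (U y, V y)) x ∧ ∀ X, fderiv ℝ (fun y => g (U y, V y)) x X =
      fderiv ℝ U x X * du g (U x, V x) + fderiv ℝ V x X * dv g (U x, V x) := by
  have h1 : HasFDerivAt (fun y => (U y, V y)) ((fderiv ℝ U x).prod (fderiv ℝ V x)) x :=
    (h.dU hx).hasFDerivAt.prodMk (h.dV hx).hasFDerivAt
  have h2 : HasFDerivAt (fun y => g (U y, V y))
      ((fderiv ℝ g (U x, V x)).comp ((fderiv ℝ U x).prod (fderiv ℝ V x))) x :=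
    HasFDerivAt.comp x (f := fun y => (U y, V y)) hg.hasFDerivAt h1
  refine ⟨h2.differentiableAt, fun X => ?_⟩
  rw [h2.fderiv]
  simp [fderiv_prod_apply]

theorem IsSlice.contOn (h : IsSlice S U V) {g : ℝ × ℝ → ℝ} (hg : ContinuousOn g S.Q) :
    ContinuousOn (fun x => g (U x, V x)) {0}ᶜ :=
  hg.comp h.cont fun x hx => h.mem x hx

theorem IsSlice.contAt (h : IsSlice S U V) {g : ℝ × ℝ → ℝ} (hg : ContinuousOn g S.Q) {x : E}
    (hx : x ≠ 0) : ContinuousAt (fun x => g (U x, V x)) x :=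
  (h.contOn hg).continuousAt (isOpen_ne0.mem_nhds hx)

end Pool.Agent.Q90.PI
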