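import Pool.Agent.Q90.PI.Def2

/-! The comparison principle for outer trapped surfaces. -/

set_option autoImplicit false

open MeasureTheory Set Filter Topology Metric
open scoped ContDiff ENNReal

namespace Pool.Agent.Q90.PI

variable {S : Spacetime} {U V : E → ℝ}

theorem lin {A B : E →L[ℝ] ℝ} (hA : A ≠ 0) (hB : B ≠ 0) (h : ∀ X, A X < 0 → 0 ≤ B X) :
    ∃ μ : ℝ, μ < 0 ∧ ∀ X, B X = μ * A X := by
  obtain ⟨Y, hY⟩ : ∃ Y, A Y ≠ 0 := by
    by_contra hcon
    push Not at hcon
    exact hA (by ext X; simp [hcon X])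
  set X₁ : E := (-(A Y)⁻¹) • Y with hX₁
  have h1 : A X₁ = -1 := by
    rw [hX₁, map_smul, smul_eq_mul]; field_simp
  have h2 : ∀ X, A X = 0 → B X = 0 := by
    intro X hX
    by_contra hne
    have h3 : ∀ s : ℝ, 0 ≤ s * B X + B X₁ := by
      intro s
      have := h (s • X + X₁) (by rw [map_add, map_smul, hX, h1]; simp)
      simpa using this
    have h4 := h3 (-(B X₁ + 1) / B X)
    rw [div_mul_cancel₀ _ hne] at h4
    linarith
  have h5 : ∀ X, B X = (-(B X₁)) * A X := by
    intro X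
    have := h2 (X + A X • X₁) (by rw [map_add, map_smul, h1]; simp)
    rw [map_add, map_smul, smul_eq_mul] at this
    linarith
  refine ⟨-(B X₁), ?_, h5⟩
  have h6 : 0 ≤ B X₁ := h X₁ (by rw [h1]; norm_num)
  rcases h6.eq_or_lt with h7 | h7
  · exfalso
    apply hB
    ext X
    rw [h5 X, ← h7]; simp
  · linarith

theorem hasFDerivAt_dir {x : E} (hx : x ≠ 0) : DifferentiableAt ℝ dir x ∧
    ∀ X, fderiv ℝ dir x X = ‖x‖⁻¹ • (X - (inner ℝ x X / ‖x‖ ^ 2) • x) := by
  have hn : ‖x‖ ≠ 0 := norm_ne_zero_iff.2 hx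
  have h1 : HasFDerivAt (fun y : E => ‖y‖ ^ 2) (2 • (innerSL ℝ x)) x := by
    have := (hasStrictFDerivAt_norm_sq x).hasFDerivAt
    exact this
  have h2 : DifferentiableAt ℝ (fun y : E => ‖y‖) x := (contDiffAt_norm ℝ hx (n := 1)).differentiableAt (by simp)
  have h3 : ∀ X, fderiv ℝ (fun y : E => ‖y‖) x X = inner ℝ x X / ‖x‖ := by
    intro X
    have h4 : HasFDerivAt (fun y : E => ‖y‖ ^ 2) ((2 * ‖x‖) • fderiv ℝ (fun y : E => ‖y‖) x) x := by
      have := h2.hasFDerivAt.pow 2
      simpa [pow_one] using this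
    have h5 := h1.unique h4
    have h6 := congrArg (fun L : E →L[ℝ] ℝ => L X) h5
    simp at h6
    field_simp
    linarith
  have h4 : DifferentiableAt ℝ (fun y : E => ‖y‖⁻¹) x := h2.inv hn
  have h5 : ∀ X, fderiv ℝ (fun y : E => ‖y‖⁻¹) x X = -(inner ℝ x X / ‖x‖ ^ 3) := by
    intro X
    have h6 : HasFDerivAt (fun y : E => ‖y‖⁻¹) (-(‖x‖ ^ 2)⁻¹ • fderiv ℝ (fun y : E => ‖y‖) x) x := by
      have := (hasDerivAt_inv hn).comp_hasFDerivAt x h2.hasFDerivAt
      exact this
    rw [h6.fderiv]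
    simp only [ContinuousLinearMap.smul_apply, smul_eq_mul, h3]
    field_simp
  have h7 : HasFDerivAt dir (‖x‖⁻¹ • ContinuousLinearMap.id ℝ E +
      (fderiv ℝ (fun y : E => ‖y‖⁻¹) x).smulRight x) x := by
    have := h4.hasFDerivAt.smul (hasFDerivAt_id x)
    exact this
  refine ⟨h7.differentiableAt, fun X => ?_⟩
  rw [h7.fderiv]
  simp only [ContinuousLinearMap.add_apply, ContinuousLinearMap.smul_apply,
    ContinuousLinearMap.id_apply, ContinuousLinearMap.smulRight_apply, h5]
  rw [smul_sub, smul_smul, sub_eq_add_neg, ← neg_smul]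
  congr 2
  field_simp

theorem metric_push (S : Spacetime) (U V : E → ℝ) {x : E} (hx : x ≠ 0) (X Y : E) :
    stMetric S U V x (push U V x X) (push U V x Y) = metric S U V x X Y := by
  have hn : ‖x‖ ≠ 0 := norm_ne_zero_iff.2 hx
  unfold stMetric push metric
  simp only [(hasFDerivAt_dir hx).2]
  rw [inner_smul_left, inner_smul_right, inner_sub_left, inner_sub_right, inner_sub_right,
    inner_smul_left, inner_smul_right, inner_smul_left, inner_smul_right, real_inner_self_eq_norm_sq,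
    real_inner_comm x X]
  simp only [conj_trivial]
  field_simp
  ring

/-- the outer future null normal at a point where `U` is critical is a multiple of `∂_v` -/
theorem outer_null (h : IsSlice S U V) {q : E} (hq : q ≠ 0) {φ : E → ℝ} {l : STVector} {μ : ℝ}
    (hμ : μ < 0) (hdU : ∀ X, fderiv ℝ U q X = μ * fderiv ℝ φ q X) (hl : OuterNull S U V φ q l) :
    l.a = 0 ∧ l.s = 0 ∧ 0 < l.b := by
  have hn : 0 < ‖q‖ := norm_pos_iff.2 hq
  have hr := S.r_pos _ (h.mem q hq)
  have hw := S.w_pos _ (h.mem q hq)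
  have hUq := h.outward q hq
  set r := S.r (U q, V q) with hrdef
  set w := S.w (U q, V q) with hwdef
  have hL : ∀ X, stMetric S U V q l (push U V q X) =
      -(w / 2) * (l.a * fderiv ℝ V q X + l.b * fderiv ℝ U q X) + r ^ 2 * (inner ℝ l.s X / ‖q‖) := by
    intro X
    unfold stMetric push
    simp only [(hasFDerivAt_dir hq).2]
    rw [inner_smul_right, inner_sub_right, inner_smul_right, real_inner_comm q l.s, hl.tangent]
    rw [← hrdef, ← hwdef]
    field_simp
    ring
  have hnull : r ^ 2 * ‖l.s‖ ^ 2 = w * (l.a * l.b) := by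
    have := hl.null
    unfold stMetric at this
    rw [real_inner_self_eq_norm_sq, ← hrdef, ← hwdef] at this
    linarith
  have hLq : 0 < stMetric S U V q l (push U V q q) := by
    apply hl.outward
    by_contra hcon
    push Not at hcon
    have := hdU q
    nlinarith [mul_nonneg_of_nonpos_of_nonpos hμ.le hcon]
  -- `L = -κ dU`
  obtain ⟨κ, hκ, hLκ⟩ : ∃ κ : ℝ, 0 < κ ∧ ∀ X, stMetric S U V q l (push U V q X) =
      -(κ * fderiv ℝ U q X) := by
    refine ⟨stMetric S U V q l (push U V q q) / (-(fderiv ℝ U q q)),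
      div_pos hLq (by linarith), fun X => ?_⟩
    have h1 : fderiv ℝ φ q (X - (fderiv ℝ U q X / fderiv ℝ U q q) • q) = 0 := by
      have h2 := hdU (X - (fderiv ℝ U q X / fderiv ℝ U q q) • q)
      rw [map_sub, map_smul, smul_eq_mul, div_mul_cancel₀ _ hUq.ne, sub_self] at h2
      rcases mul_eq_zero.1 h2.symm with h3 | h3
      · exact absurd h3 hμ.ne
      · exact h3
    have h2 := hl.normal _ h1
    rw [hL] at h2
    rw [hL, hL]
    rw [map_sub, map_smul, map_sub, map_smul, inner_sub_right, inner_smul_right, smul_eq_mul,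
      smul_eq_mul] at h2
    have h3 : inner ℝ l.s q = 0 := by rw [real_inner_comm]; exact hl.tangent
    rw [h3] at h2 ⊢
    have hUq' := hUq.ne
    field_simp at h2 ⊢
    linarith
  have ha : l.a = 0 := by
    by_contra hne
    have ha0 : 0 < l.a := lt_of_le_of_ne hl.future.1 (Ne.symm hne)
    set X : E := ((1 - ‖q‖ / l.a * fderiv ℝ U q l.s) / fderiv ℝ U q q) • q + (‖q‖ / l.a) • l.s
      with hX
    have h1 : fderiv ℝ U q X = 1 := by
      rw [hX, map_add, map_smul, map_smul, smul_eq_mul, smul_eq_mul, div_mul_cancel₀ _ hUq.ne]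
      ring
    have h3 : inner ℝ l.s q = 0 := by rw [real_inner_comm]; exact hl.tangent
    have h4 : inner ℝ l.s X = ‖q‖ / l.a * ‖l.s‖ ^ 2 := by
      rw [hX, inner_add_right, inner_smul_right, inner_smul_right, h3, real_inner_self_eq_norm_sq]
      ring
    have h5 : inner ℝ q X = (1 - ‖q‖ / l.a * fderiv ℝ U q l.s) / fderiv ℝ U q q * ‖q‖ ^ 2 := by
      rw [hX, inner_add_right, inner_smul_right, inner_smul_right, hl.tangent,
        real_inner_self_eq_norm_sq]
      ring
    have h6 : inner ℝ X X = (1 - ‖q‖ / l.a * fderiv ℝ U q l.s) / fderiv ℝ U q q * inner ℝ q X +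
        ‖q‖ / l.a * inner ℝ l.s X := by
      conv_lhs => rw [hX]
      rw [inner_add_left, inner_smul_left, inner_smul_left]
      simp [hX]
    have h7 := hLκ X
    rw [hL, h1, h4] at h7
    have h8 := h.spacelike q X hq (by intro h0; rw [h0] at h1; simp at h1)
    have h9 : metric S U V q X X = r ^ 2 / l.a ^ 2 * ‖l.s‖ ^ 2 - w * fderiv ℝ V q X := by
      unfold metric
      rw [h1, h6, h4, h5, ← hrdef, ← hwdef]
      field_simp
      ring
    have h10 : r ^ 2 / l.a ^ 2 * ‖l.s‖ ^ 2 = w * l.b / l.a := by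
      have : r ^ 2 / l.a ^ 2 * ‖l.s‖ ^ 2 = (r ^ 2 * ‖l.s‖ ^ 2) / l.a ^ 2 := by ring
      rw [this, hnull]; field_simp
    have h11 : r ^ 2 * (‖q‖ / l.a * ‖l.s‖ ^ 2 / ‖q‖) = w * l.b := by
      have : r ^ 2 * (‖q‖ / l.a * ‖l.s‖ ^ 2 / ‖q‖) = (r ^ 2 * ‖l.s‖ ^ 2) / l.a := by field_simp
      rw [this, hnull]; field_simp
    rw [h11] at h7
    have h12 : w * fderiv ℝ V q X = (2 * κ + w * l.b) / l.a := by
      rw [eq_div_iff hne]; linarith
    rw [h9, h10, h12] at h8
    have h13 : w * l.b / l.a - (2 * κ + w * l.b) / l.a = -(2 * κ / l.a) := by ring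
    rw [h13] at h8
    have : 0 < 2 * κ / l.a := by positivity
    linarith
  have hs : l.s = 0 := by
    rw [ha] at hnull
    have h1 : ‖l.s‖ ^ 2 = 0 := by
      have : r ^ 2 * ‖l.s‖ ^ 2 = 0 := by rw [hnull]; ring
      rcases mul_eq_zero.1 this with h2 | h2
      · exact absurd h2 (by positivity)
      · exact h2
    exact norm_eq_zero.1 (pow_eq_zero_iff (two_ne_zero) |>.1 h1)
  refine ⟨ha, hs, ?_⟩
  rcases hl.future.2.2 with h1 | h1
  · rw [ha] at h1; exact absurd h1 (lt_irrefl _)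
  · exact h1

theorem second_deriv_nonneg {f : ℝ → ℝ} (hf : ContinuousAt f 0) (hmin : IsLocalMin f 0) :
    0 ≤ deriv (deriv f) 0 := by
  by_contra hcon
  push Not at hcon
  have h1 : deriv f 0 = 0 := hmin.deriv_eq_zero
  have h2 : IsLocalMax f 0 := isLocalMax_of_deriv_deriv_neg hcon h1 hf
  have h3 : f =ᶠ[𝓝 0] fun _ => f 0 := by
    filter_upwards [hmin, h2] with t h4 h5
    exact le_antisymm h5 h4
  have h4 : deriv f =ᶠ[𝓝 0] fun _ => (0 : ℝ) := by
    have := h3.deriv
    filter_upwards [this] with t ht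
    rw [ht]; simp
  have h5 := h4.deriv_eq
  rw [h5] at hcon
  simp at hcon

/-- one curve -/
theorem acc_le (h : IsSlice S U V) {q : E} (hq : q ≠ 0) {c : ℝ → E} (hc : ContDiffAt ℝ ∞ c 0)
    (hc0 : c 0 = q) (hmin : ∀ᶠ t in 𝓝 (0 : ℝ), U q ≤ U (c t))
    (hunit : metric S U V q (deriv c 0) (deriv c 0) = 1) :
    2 * dv S.r (U q, V q) / (S.w (U q, V q) * S.r (U q, V q)) ≤ (acceleration S U V c).a := by
  have hr := S.r_pos _ (h.mem q hq)
  have hw := S.w_pos _ (h.mem q hq)
  have hcd : HasDerivAt c (deriv c 0) 0 := (hc.differentiableAt (by simp)).hasDerivAt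
  have hUc : HasDerivAt (fun t => U (c t)) (fderiv ℝ U q (deriv c 0)) 0 := by
    have h1 : HasFDerivAt U (fderiv ℝ U q) (c 0) := by rw [hc0]; exact (h.dU hq).hasFDerivAt
    exact h1.comp_hasDerivAt 0 hcd
  have hloc : IsLocalMin (fun t => U (c t)) 0 := by
    unfold IsLocalMin IsMinFilter
    filter_upwards [hmin] with t ht
    rw [hc0]; exact ht
  have h0 : deriv (fun t => U (c t)) 0 = 0 := hloc.deriv_eq_zero
  have h0' : fderiv ℝ U q (deriv c 0) = 0 := by rw [← hUc.deriv]; exact h0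
  have h2 : 0 ≤ deriv (deriv fun t => U (c t)) 0 := second_deriv_nonneg hUc.continuousAt hloc
  have hs : (velocity U V c).s = fderiv ℝ dir q (deriv c 0) := by
    have h1 : HasFDerivAt dir (fderiv ℝ dir q) (c 0) := by
      rw [hc0]; exact (hasFDerivAt_dir hq).1.hasFDerivAt
    exact (h1.comp_hasDerivAt 0 hcd).deriv
  have hsn : S.r (U q, V q) ^ 2 * ‖(velocity U V c).s‖ ^ 2 = 1 := by
    have h3 := metric_push S U V hq (deriv c 0) (deriv c 0)
    rw [hunit] at h3
    unfold stMetric push at h3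
    simp only [h0', zero_mul, mul_zero, add_zero] at h3
    rw [real_inner_self_eq_norm_sq, ← hs] at h3
    linarith
  have hsn' : ‖(velocity U V c).s‖ ^ 2 = 1 / S.r (U q, V q) ^ 2 := by
    field_simp; linarith
  have hva : (velocity U V c).a = 0 := h0
  unfold acceleration
  simp only [hc0, hva, hsn']
  have h4 : 2 * S.r (U q, V q) * dv S.r (U q, V q) / S.w (U q, V q) * (1 / S.r (U q, V q) ^ 2) =
      2 * dv S.r (U q, V q) / (S.w (U q, V q) * S.r (U q, V q)) := by
    field_simp
  rw [h4]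
  simp only [ne_eq, OfNat.ofNat_ne_zero, not_false_eq_true, zero_pow, mul_zero, add_zero]
  linarith

/-- **Comparison.** At a point of a weakly outer trapped surface where `U` is minimal, `∂_v r ≤ 0`. -/
theorem comparison (h : IsSlice S U V) {Ω : Set E} {q : E} (hq : q ≠ 0) (hqf : q ∈ frontier Ω)
    (hT : OuterTrapped S U V Ω) (hΩ : ∀ x ∈ Ω, x ≠ 0 → U q < U x)
    (hf : ∀ x ∈ frontier Ω, x ≠ 0 → U q ≤ U x) : dv S.r (U q, V q) ≤ 0 := by
  obtain ⟨φ, c₁, c₂, l, hφ, hdφ, hloc, hl, hfr, hexp⟩ := hT q hqf hq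
  have hr := S.r_pos _ (h.mem q hq)
  have hw := S.w_pos _ (h.mem q hq)
  have hUne : fderiv ℝ U q ≠ 0 := by
    intro h0
    have := h.outward q hq
    rw [h0] at this
    simp at this
  have hφd : DifferentiableAt ℝ φ q := hφ.differentiableAt (by simp)
  have hφq : φ q = 0 := by
    -- `q` is in the closure of `Ω` and not in `Ω`
    have hcont : ContinuousAt φ q := hφd.continuousAt
    apply le_antisymm
    · by_contra hcon
      push Not at hcon
      have h1 : ∀ᶠ y in 𝓝 q, y ∉ Ω := by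
        filter_upwards [hloc, hcont.eventually (lt_mem_nhds hcon)] with y hy1 hy2
        rw [hy1]; linarith
      have h2 := mem_closure_iff_frequently.1 (frontier_subset_closure hqf)
      exact h2 h1
    · by_contra hcon
      push Not at hcon
      have h1 : ∀ᶠ y in 𝓝 q, y ∈ Ω := by
        filter_upwards [hloc, hcont.eventually (gt_mem_nhds hcon)] with y hy1 hy2
        rw [hy1]; exact hy2
      have h2 : q ∈ interior Ω := mem_interior_iff_mem_nhds.2 h1
      exact hqf.2 h2
  obtain ⟨μ, hμ, hdU⟩ := lin hdφ hUne (by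
    intro X hX
    by_contra hcon
    push Not at hcon
    -- moving in the direction `X` one enters `Ω`, while `U` decreases
    have hline : HasDerivAt (fun t : ℝ => q + t • X) X 0 := by
      simpa using ((hasDerivAt_id (0 : ℝ)).smul_const X).const_add q
    have d1 : HasDerivAt (fun t : ℝ => φ (q + t • X)) (fderiv ℝ φ q X) 0 := by
      have h1 : HasFDerivAt φ (fderiv ℝ φ q) (q + (0 : ℝ) • X) := by
        rw [zero_smul, add_zero]; exact hφd.hasFDerivAt
      exact h1.comp_hasDerivAt 0 hline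
    have d2 : HasDerivAt (fun t : ℝ => U (q + t • X)) (fderiv ℝ U q X) 0 := by
      have h1 : HasFDerivAt U (fderiv ℝ U q) (q + (0 : ℝ) • X) := by
        rw [zero_smul, add_zero]; exact (h.dU hq).hasFDerivAt
      exact h1.comp_hasDerivAt 0 hline
    have e1 : ∀ᶠ t in 𝓝[>] (0 : ℝ), φ (q + t • X) < 0 := by
      have := (d1.tendsto_slope_zero_right).eventually (gt_mem_nhds hX)
      filter_upwards [this, self_mem_nhdsWithin] with t ht ht0
      have ht0' : (0 : ℝ) < t := ht0
      rw [zero_smul, add_zero, hφq, sub_zero, zero_add, smul_eq_mul] at ht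
      by_contra hcon2
      push Not at hcon2
      have : 0 ≤ t⁻¹ * φ (q + t • X) := mul_nonneg (inv_pos.2 ht0').le hcon2
      linarith
    have e2 : ∀ᶠ t in 𝓝[>] (0 : ℝ), U (q + t • X) < U q := by
      have := (d2.tendsto_slope_zero_right).eventually (gt_mem_nhds hcon)
      filter_upwards [this, self_mem_nhdsWithin] with t ht ht0
      have ht0' : (0 : ℝ) < t := ht0
      rw [zero_smul, add_zero, zero_add, smul_eq_mul] at ht
      by_contra hcon2
      push Not at hcon2
      have : 0 ≤ t⁻¹ * (U (q + t • X) - U q) := mul_nonneg (inv_pos.2 ht0').le (by linarith)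
      linarith
    have hcl : Tendsto (fun t : ℝ => q + t • X) (𝓝[>] 0) (𝓝 q) := by
      have := hline.continuousAt.tendsto
      rw [zero_smul, add_zero] at this
      exact this.mono_left nhdsWithin_le_nhds
    have e3 := hcl.eventually hloc
    have e4 := hcl.eventually (isOpen_ne.mem_nhds hq)
    obtain ⟨t, t1, t2, t3, t4⟩ := (e1.and (e2.and (e3.and e4))).exists
    have := hΩ _ (t3.2 t1) t4
    linarith)
  obtain ⟨la, ls, lb⟩ := outer_null h hq hμ hdU hl
  have hcurve : ∀ c : ℝ → E, ContDiffAt ℝ ∞ c 0 → c 0 = q →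
      (∀ᶠ t in 𝓝 (0 : ℝ), c t ∈ frontier Ω) → ∀ᶠ t in 𝓝 (0 : ℝ), U q ≤ U (c t) := by
    intro c hc hc0 hmem
    have h1 : ∀ᶠ t in 𝓝 (0 : ℝ), c t ≠ 0 := by
      apply hc.continuousAt.eventually_ne
      rw [hc0]; exact hq
    filter_upwards [hmem, h1] with t h2 h3
    exact hf _ h2 h3
  have a1 := acc_le h hq hfr.smooth₁ hfr.at₁ (hcurve c₁ hfr.smooth₁ hfr.at₁ hfr.mem₁) hfr.unit₁
  have a2 := acc_le h hq hfr.smooth₂ hfr.at₂ (hcurve c₂ hfr.smooth₂ hfr.at₂ hfr.mem₂) hfr.unit₂
  unfold expansion stMetric at hexp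
  rw [la, ls] at hexp
  simp only [inner_zero_left, zero_mul, mul_zero, add_zero, zero_add] at hexp
  have h5 : (acceleration S U V c₁).a + (acceleration S U V c₂).a ≤ 0 := by
    by_contra hcon
    push Not at hcon
    have : 0 < S.w (U q, V q) / 2 * l.b * ((acceleration S U V c₁).a + (acceleration S U V c₂).a) := by
      positivity
    nlinarith
  have h6 : 2 * dv S.r (U q, V q) / (S.w (U q, V q) * S.r (U q, V q)) ≤ 0 := by linarith
  by_contra hcon
  push Not at hcon
  have : 0 < 2 * dv S.r (U q, V q) / (S.w (U q, V q) * S.r (U q, V q)) := by positivity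
  linarith

end Pool.Agent.Q90.PI
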