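import Mathlib

/-!
# Slices of spherically symmetric spacetimes

Definitions for the Penrose inequality (MP_ede089, MP_ae306b). A spherically symmetric spacetime is
`Q × S²` with the metric `-w du dv + r² dσ²`, where `Q` is an open subset of the `(u, v)`-plane and
`dσ²` is the metric of the unit sphere. A slice is given by `x ↦ (U x, V x, x/‖x‖)`, `x ∈ ℝ³ ∖ 0`.
-/

set_option autoImplicit false

open MeasureTheory Set Filter Topology Metric
open scoped ContDiff ENNReal

namespace Pool.Agent.Q90.PI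

/-- Euclidean space -/
abbrev E := EuclideanSpace ℝ (Fin 3)

/-- the derivative in the direction of `u` -/
noncomputable def du (f : ℝ × ℝ → ℝ) (p : ℝ × ℝ) : ℝ := fderiv ℝ f p (1, 0)

/-- the derivative in the direction of `v` -/
noncomputable def dv (f : ℝ × ℝ → ℝ) (p : ℝ × ℝ) : ℝ := fderiv ℝ f p (0, 1)

/-- A spherically symmetric spacetime `Q × S²` with the metric `-w du dv + r² dσ²`. -/
structure Spacetime where
  Q : Set (ℝ × ℝ)
  r : ℝ × ℝ → ℝ
  w : ℝ × ℝ → ℝ
  isOpen : IsOpen Q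
  smooth_r : ContDiffOn ℝ ∞ r Q
  smooth_w : ContDiffOn ℝ ∞ w Q
  r_pos : ∀ p ∈ Q, 0 < r p
  w_pos : ∀ p ∈ Q, 0 < w p

/-- The dominant energy condition for radial vectors: the components `uu`, `vv`, `uv` of the
Einstein tensor are nonnegative. -/
structure Energy (S : Spacetime) : Prop where
  uu : ∀ p ∈ S.Q, du (fun q => du S.r q / S.w q) p ≤ 0
  vv : ∀ p ∈ S.Q, dv (fun q => dv S.r q / S.w q) p ≤ 0
  uv : ∀ p ∈ S.Q, 0 ≤ S.r p * du (dv S.r) p + du S.r p * dv S.r p + S.w p / 4

/-- The metric induced on `ℝ³ ∖ 0` by the map `x ↦ (U x, V x, x/‖x‖)` into the spacetime. -/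
noncomputable def metric (S : Spacetime) (U V : E → ℝ) (x X Y : E) : ℝ :=
  S.r (U x, V x) ^ 2 / ‖x‖ ^ 2 * (inner ℝ X Y - inner ℝ x X * inner ℝ x Y / ‖x‖ ^ 2) -
    S.w (U x, V x) / 2 *
      (fderiv ℝ U x X * fderiv ℝ V x Y + fderiv ℝ U x Y * fderiv ℝ V x X)

/-- A (spacelike) slice; the null coordinate `U` decreases in the outward direction (so `V`
increases). -/
structure IsSlice (S : Spacetime) (U V : E → ℝ) : Prop where
  smooth_U : ContDiffOn ℝ ∞ U {0}ᶜ
  smooth_V : ContDiffOn ℝ ∞ V {0}ᶜ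
  mem : ∀ x, x ≠ 0 → (U x, V x) ∈ S.Q
  spacelike : ∀ x X, x ≠ 0 → X ≠ 0 → 0 < metric S U V x X X
  outward : ∀ x, x ≠ 0 → fderiv ℝ U x x < 0

/-- the standard basis -/
noncomputable def e (i : Fin 3) : E := EuclideanSpace.single i 1

/-- the components of the metric -/
noncomputable def comp (S : Spacetime) (U V : E → ℝ) (i j : Fin 3) (x : E) : ℝ :=
  metric S U V x (e i) (e j)

/-- the volume density `√(det g)` -/
noncomputable def vol (S : Spacetime) (U V : E → ℝ) (x : E) : ℝ :=
  √(Matrix.det (Matrix.of fun i j : Fin 3 => comp S U V i j x))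

/-- the divergence of a vector field in Euclidean space -/
noncomputable def divergence (Y : E → E) (x : E) : ℝ := ∑ i, (fderiv ℝ Y x (e i)) i

/-- the test fields for the area: smooth vector fields with compact support in `ℝ³ ∖ 0` and length
at most one -/
def IsTest (S : Spacetime) (U V : E → ℝ) (X : E → E) : Prop :=
  ContDiff ℝ ∞ X ∧ HasCompactSupport X ∧ (0 : E) ∉ tsupport X ∧
    ∀ x, x ≠ 0 → metric S U V x (X x) (X x) ≤ 1

/-- The area of the boundary of `D` (in the form of De Giorgi): the supremum of the integrals over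
`D` of the divergence `div_g X dvol_g = div (√(det g) X) dx` of the test fields. -/
noncomputable def area (S : Spacetime) (U V : E → ℝ) (D : Set E) : ℝ≥0∞ :=
  ⨆ (X : E → E) (_ : IsTest S U V X),
    ENNReal.ofReal (∫ x in D, divergence (fun y => vol S U V y • X y) x)

/-- the open regions with smooth boundary -/
def SmoothRegion (D : Set E) : Prop :=
  IsOpen D ∧ (0 : E) ∉ D ∧ ∀ x ∈ frontier D, x ≠ 0 →
    ∃ φ : E → ℝ, ContDiffAt ℝ ∞ φ x ∧ fderiv ℝ φ x ≠ 0 ∧ ∀ᶠ y in 𝓝 x, (y ∈ D ↔ φ y < 0)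

/-- the sum `∑ (∂ᵢ gᵢⱼ - ∂ⱼ gᵢᵢ) yⱼ` -/
noncomputable def fluxDensity (S : Spacetime) (U V : E → ℝ) (x y : E) : ℝ :=
  ∑ i, ∑ j, (fderiv ℝ (comp S U V i j) x (e i) - fderiv ℝ (comp S U V i i) x (e j)) * y j

/-- the flux through the coordinate sphere of radius `ρ`, whose limit is the mass -/
noncomputable def flux (S : Spacetime) (U V : E → ℝ) (ρ : ℝ) : ℝ :=
  1 / (16 * Real.pi) * ∫ y : sphere (0 : E) 1, ρ ^ 2 * fluxDensity S U V (ρ • (y : E)) y
    ∂(volume : Measure E).toSphere

/-- The derivative of the area radius `r` in the direction of the future unit normal of the slice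
(at the points near which the slice is symmetric); `1/r` times it is the second fundamental form in
the directions tangent to the spheres. -/
noncomputable def normalDeriv (S : Spacetime) (U V : E → ℝ) (x : E) : ℝ :=
  (fderiv ℝ V x x * dv S.r (U x, V x) - fderiv ℝ U x x * du S.r (U x, V x)) /
    √(metric S U V x x x)

/-- The end `E₁` (`‖x‖ → ∞`) is asymptotically flat with mass `m`, and symmetric near infinity. -/
structure FlatEnd (S : Spacetime) (U V : E → ℝ) (m : ℝ) : Prop where
  symmetric : ∃ R : ℝ, ∀ x y : E, R < ‖x‖ → ‖x‖ = ‖y‖ → U x = U y ∧ V x = V y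
  decay : ∀ i j, (fun x => comp S U V i j x - if i = j then 1 else 0) =O[Bornology.cobounded E]
    fun x => ‖x‖⁻¹
  decay_deriv : ∀ i j k, (fun x => fderiv ℝ (comp S U V i j) x (e k)) =O[Bornology.cobounded E]
    fun x => (‖x‖ ^ 2)⁻¹
  decay_normal : normalDeriv S U V =O[Bornology.cobounded E] fun x => ‖x‖⁻¹
  mass : Tendsto (flux S U V) atTop (𝓝 m)

/-- the Hawking mass of a sphere of symmetry -/
noncomputable def mH (S : Spacetime) (p : ℝ × ℝ) : ℝ :=
  S.r p / 2 * (1 + 4 * du S.r p * dv S.r p / S.w p)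

end Pool.Agent.Q90.PI
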