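import Pool.Agent.Q90.PI.Two

/-! Outer trapped surfaces in slices of spherically symmetric spacetimes (MP_ae306b). -/

set_option autoImplicit false

open MeasureTheory Set Filter Topology Metric
open scoped ContDiff ENNReal

namespace Pool.Agent.Q90.PI

/-- the point of the unit sphere -/
noncomputable def dir (x : E) : E := ‖x‖⁻¹ • x

/-- A vector of the spacetime at a point of the slice: `a ∂_u + b ∂_v + s`, `s` tangent to the sphere. -/
structure STVector where
  a : ℝ
  b : ℝ
  s : E

/-- the spacetime metric `-w du dv + r² dσ²` at `(U x, V x, x/‖x‖)` -/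
noncomputable def stMetric (S : Spacetime) (U V : E → ℝ) (x : E) (k l : STVector) : ℝ :=
  -(S.w (U x, V x) / 2) * (k.a * l.b + k.b * l.a) + S.r (U x, V x) ^ 2 * inner ℝ k.s l.s

/-- the image of the vector `X` under the derivative of `x ↦ (U x, V x, x/‖x‖)` -/
noncomputable def push (U V : E → ℝ) (x X : E) : STVector where
  a := fderiv ℝ U x X
  b := fderiv ℝ V x X
  s := fderiv ℝ dir x X

/-- the velocity of the curve `c` of the slice at the parameter `0` -/
noncomputable def velocity (U V : E → ℝ) (c : ℝ → E) : STVector where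
  a := deriv (fun t => U (c t)) 0
  b := deriv (fun t => V (c t)) 0
  s := deriv (fun t => dir (c t)) 0

/-- The covariant acceleration in the spacetime of the curve `c` of the slice at the parameter `0`,
up to a multiple of the normal `x/‖x‖` of the sphere. The Christoffel symbols are
`w_u/w` (`uu` to `u`), `w_v/w` (`vv` to `v`), `2 r r_v/w`, `2 r r_u/w` times the metric of the unit sphere (to `u`, `v`),
and `r_u/r`, `r_v/r` (mixed). -/
noncomputable def acceleration (S : Spacetime) (U V : E → ℝ) (c : ℝ → E) : STVector where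
  a := deriv (deriv fun t => U (c t)) 0 +
    du S.w (U (c 0), V (c 0)) / S.w (U (c 0), V (c 0)) * (velocity U V c).a ^ 2 +
    2 * S.r (U (c 0), V (c 0)) * dv S.r (U (c 0), V (c 0)) / S.w (U (c 0), V (c 0)) *
      ‖(velocity U V c).s‖ ^ 2
  b := deriv (deriv fun t => V (c t)) 0 +
    dv S.w (U (c 0), V (c 0)) / S.w (U (c 0), V (c 0)) * (velocity U V c).b ^ 2 +
    2 * S.r (U (c 0), V (c 0)) * du S.r (U (c 0), V (c 0)) / S.w (U (c 0), V (c 0)) *
      ‖(velocity U V c).s‖ ^ 2
  s := deriv (deriv fun t => dir (c t)) 0 +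
    (2 * deriv (fun t => S.r (U (c t), V (c t))) 0 / S.r (U (c 0), V (c 0))) • (velocity U V c).s

/-- `l` is an outer future null normal at `q` of the boundary of the region `{φ < 0}` of the slice: it is
null, future directed, orthogonal to the boundary, and has positive product with the outward vectors. -/
structure OuterNull (S : Spacetime) (U V : E → ℝ) (φ : E → ℝ) (q : E) (l : STVector) : Prop where
  tangent : inner ℝ q l.s = 0
  null : stMetric S U V q l l = 0
  future : 0 ≤ l.a ∧ 0 ≤ l.b ∧ (0 < l.a ∨ 0 < l.b)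
  normal : ∀ X, fderiv ℝ φ q X = 0 → stMetric S U V q l (push U V q X) = 0
  outward : ∀ X, 0 < fderiv ℝ φ q X → 0 < stMetric S U V q l (push U V q X)

/-- `c₁`, `c₂` are smooth curves in the boundary of `Ω` through `q` with orthonormal velocities. -/
structure Frame (S : Spacetime) (U V : E → ℝ) (Ω : Set E) (q : E) (c₁ c₂ : ℝ → E) : Prop where
  smooth₁ : ContDiffAt ℝ ∞ c₁ 0
  smooth₂ : ContDiffAt ℝ ∞ c₂ 0
  at₁ : c₁ 0 = q
  at₂ : c₂ 0 = q
  mem₁ : ∀ᶠ t in 𝓝 (0 : ℝ), c₁ t ∈ frontier Ω
  mem₂ : ∀ᶠ t in 𝓝 (0 : ℝ), c₂ t ∈ frontier Ω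
  unit₁ : metric S U V q (deriv c₁ 0) (deriv c₁ 0) = 1
  unit₂ : metric S U V q (deriv c₂ 0) (deriv c₂ 0) = 1
  orth : metric S U V q (deriv c₁ 0) (deriv c₂ 0) = 0

/-- the null expansion `-g(l, c₁'') - g(l, c₂'')` (minus the product of `l` with the mean curvature
vector) in the direction `l` -/
noncomputable def expansion (S : Spacetime) (U V : E → ℝ) (q : E) (l : STVector) (c₁ c₂ : ℝ → E) : ℝ :=
  -stMetric S U V q l (acceleration S U V c₁) - stMetric S U V q l (acceleration S U V c₂)

/-- The boundary of `Ω` in `ℝ³ ∖ 0` is a smooth surface, and it is weakly outer trapped: its outer future null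
expansion is nonpositive (an apparent horizon if the expansion is zero). -/
def OuterTrapped (S : Spacetime) (U V : E → ℝ) (Ω : Set E) : Prop :=
  ∀ q ∈ frontier Ω, q ≠ 0 → ∃ (φ : E → ℝ) (c₁ c₂ : ℝ → E) (l : STVector),
    ContDiffAt ℝ ∞ φ q ∧ fderiv ℝ φ q ≠ 0 ∧ (∀ᶠ y in 𝓝 q, (y ∈ Ω ↔ φ y < 0)) ∧
    OuterNull S U V φ q l ∧ Frame S U V Ω q c₁ c₂ ∧ expansion S U V q l c₁ c₂ ≤ 0

/-- The inner part of the slice: either `0` is a centre, where `U` and `V` have limits, or it is a second end
where `r` tends to infinity and `r` increases towards the end in all spacelike directions. -/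
def Inner (S : Spacetime) (U V : E → ℝ) : Prop :=
  (∃ a b : ℝ, Tendsto U (𝓝[≠] 0) (𝓝 a) ∧ Tendsto V (𝓝[≠] 0) (𝓝 b)) ∨
  (Tendsto (fun x => S.r (U x, V x)) (𝓝[≠] 0) atTop ∧
    ∀ᶠ x in 𝓝[≠] 0, 0 < du S.r (U x, V x) ∧ dv S.r (U x, V x) < 0)

/-- the least area needed to enclose `Ω` -/
noncomputable def leastArea (S : Spacetime) (U V : E → ℝ) (Ω : Set E) : ℝ≥0∞ :=
  ⨅ (D : Set E) (_ : Admissible D ∧ Ω \ {0} ⊆ D), area S U V D

end Pool.Agent.Q90.PI
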