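import Pool.Agent.Q90.PI.Level

/-! Extremal points of closed sets of points of the slice. -/

set_option autoImplicit false

open MeasureTheory Set Filter Topology Metric
open scoped ContDiff ENNReal

namespace Pool.Agent.Q90.PI

variable {S : Spacetime} {U V : E → ℝ}

/-- a shell -/
def shell (ε R : ℝ) : Set E := {x | ε ≤ ‖x‖ ∧ ‖x‖ ≤ R}

theorem isCompact_shell (ε R : ℝ) : IsCompact (shell ε R) := by
  have : shell ε R = closedBall (0 : E) R ∩ {x | ε ≤ ‖x‖} := by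
    ext x; simp [shell, and_comm]
  rw [this]
  exact (isCompact_closedBall _ _).inter_right (isClosed_le continuous_const continuous_norm)

theorem shell_ne {ε R : ℝ} (hε : 0 < ε) : shell ε R ⊆ {0}ᶜ := by
  intro x hx h0
  rw [mem_singleton_iff] at h0
  have := hx.1
  rw [h0, norm_zero] at this
  linarith

theorem exists_max {N : Set E} {f : E → ℝ} (hf : ContinuousOn f {0}ᶜ) (hN0 : N ⊆ {0}ᶜ)
    (hN : ∀ ε R : ℝ, 0 < ε → IsCompact (shell ε R ∩ N)) (hne : N.Nonempty) {ε R : ℝ} (hε : 0 < ε)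
    (hR : ∀ x ∈ N, ‖x‖ ≤ R) (h : ∀ x ∈ N, ‖x‖ < ε → ∃ y ∈ N, ε ≤ ‖y‖ ∧ f x ≤ f y) :
    ∃ x₁ ∈ N, ∀ x ∈ N, f x ≤ f x₁ := by
  have hne' : (shell ε R ∩ N).Nonempty := by
    obtain ⟨x, hx⟩ := hne
    rcases lt_or_ge ‖x‖ ε with h1 | h1
    · obtain ⟨y, hy, hy1, -⟩ := h x hx h1
      exact ⟨y, ⟨hy1, hR y hy⟩, hy⟩
    · exact ⟨x, ⟨h1, hR x hx⟩, hx⟩
  obtain ⟨x₁, hx₁, hmax⟩ := (hN ε R hε).exists_isMaxOn hne' (hf.mono fun x hx => hN0 hx.2)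
  refine ⟨x₁, hx₁.2, fun x hx => ?_⟩
  rcases lt_or_ge ‖x‖ ε with h1 | h1
  · obtain ⟨y, hy, hy1, hy2⟩ := h x hx h1
    exact hy2.trans (hmax ⟨⟨hy1, hR y hy⟩, hy⟩)
  · exact hmax ⟨⟨h1, hR x hx⟩, hx⟩

/-- closed conditions -/
theorem compact_set {g : E → ℝ} (hg : ContinuousOn g {0}ᶜ) (ε R : ℝ) (hε : 0 < ε) :
    IsCompact (shell ε R ∩ {x | 0 ≤ g x}) := by
  have h1 : ContinuousOn g (shell ε R) := hg.mono (shell_ne hε)
  have h2 : IsClosed (shell ε R ∩ g ⁻¹' Ici 0) :=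
    h1.preimage_isClosed_of_isClosed (isCompact_shell ε R).isClosed isClosed_Ici
  exact (isCompact_shell ε R).of_isClosed_subset h2 inter_subset_left

/-- continuity from outside along the ray -/
theorem ray_limit {g : E → ℝ} (hg : ContinuousOn g {0}ᶜ) {x : E} (hx : x ≠ 0)
    (h : ∀ t : ℝ, 1 < t → 0 ≤ g (t • x)) : 0 ≤ g x := by
  have h1 : Tendsto (fun t : ℝ => g (t • x)) (𝓝[>] 1) (𝓝 (g x)) := by
    have h2 : ContinuousAt g ((1 : ℝ) • x) := by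
      rw [one_smul]; exact hg.continuousAt (isOpen_ne0.mem_nhds hx)
    have h3 : ContinuousAt (fun t : ℝ => g (t • x)) 1 :=
      ContinuousAt.comp (f := fun t : ℝ => t • x) h2 (by fun_prop)
    have h4 := h3.tendsto
    simp only [one_smul] at h4
    exact h4.mono_left nhdsWithin_le_nhds
  refine ge_of_tendsto h1 ?_
  filter_upwards [self_mem_nhdsWithin] with t ht
  exact h t ht

/-- symmetry near infinity: the functions `-U`, `V` are larger than a given value far out -/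
theorem far_out (h : IsSlice S U V) {R₀ : ℝ}
    (hsym : ∀ x y : E, R₀ < ‖x‖ → ‖x‖ = ‖y‖ → U x = U y ∧ V x = V y) {x₀ : E} (hx₀ : x₀ ≠ 0) :
    ∃ R : ℝ, 0 < R ∧ ∀ x, R ≤ ‖x‖ → U x < U x₀ ∧ V x₀ < V x := by
  have hn : 0 < ‖x₀‖ := norm_pos_iff.2 hx₀
  refine ⟨max R₀ ‖x₀‖ + 1, by have := le_max_right R₀ ‖x₀‖; linarith, fun x hx => ?_⟩
  have h1 : R₀ < ‖x‖ := by have := le_max_left R₀ ‖x₀‖; linarith
  have h2 : ‖x₀‖ < ‖x‖ := by have := le_max_right R₀ ‖x₀‖; linarith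
  have h3 : 1 < ‖x‖ / ‖x₀‖ := by rwa [one_lt_div hn]
  have h4 : ‖x‖ = ‖(‖x‖ / ‖x₀‖) • x₀‖ := by
    rw [norm_smul, Real.norm_of_nonneg (by positivity)]
    field_simp
  obtain ⟨e1, e2⟩ := hsym x _ h1 h4
  have p1 : (1 : ℝ) ∈ Ioi (0 : ℝ) := mem_Ioi.2 one_pos
  have p2 : ‖x‖ / ‖x₀‖ ∈ Ioi (0 : ℝ) := mem_Ioi.2 (by linarith)
  have m1 := h.mono_U hx₀ p1 p2 h3
  have m2 := h.mono_V hx₀ p1 p2 h3
  simp only [one_smul] at m1 m2
  rw [e1, e2]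
  exact ⟨by linarith, m2⟩

theorem mH_half {p : ℝ × ℝ} (h : du S.r p = 0 ∨ dv S.r p = 0) : mH S p = S.r p / 2 := by
  unfold mH
  rcases h with h | h <;> rw [h] <;> ring

end Pool.Agent.Q90.PI
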