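import Pool.Agent.Q90.PI.Basic

/-! Level spheres, the first point, the mass along a ray. -/

set_option autoImplicit false

open MeasureTheory Set Filter Topology Metric
open scoped ContDiff ENNReal

namespace Pool.Agent.Q90.PI

variable {S : Spacetime} {U V : E → ℝ}

/-- the regular points -/
def Reg (S : Spacetime) (U V : E → ℝ) (x : E) : Prop :=
  du S.r (U x, V x) < 0 ∧ 0 < dv S.r (U x, V x)

/-- A level set of `f` is a sphere with small area radius. -/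
theorem level (hray : S_ray) (harea : S_area) (h : IsSlice S U V) {f g : E → ℝ}
    {Q : Set (ℝ × ℝ)} (hQ : IsOpen Q) (hF : ∀ x, x ≠ 0 → (f x, g x) ∈ Q)
    (hf : ContDiffOn ℝ ∞ f {0}ᶜ) (hg : ContinuousOn g {0}ᶜ)
    (hpos : ∀ x, x ≠ 0 → 0 < fderiv ℝ f x x)
    (halg : ∀ x X, x ≠ 0 → metric S U V x X X ≤ 1 →
      vol S U V x * |fderiv ℝ f x X| ≤ S.r (U x, V x) ^ 2 / ‖x‖ ^ 3 * fderiv ℝ f x x)
    {x₀ : E} (hx₀ : x₀ ≠ 0) {ε R : ℝ} (hε : 0 < ε)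
    (hseg : ∀ z, z ≠ 0 → f z = f x₀ → (∀ s ∈ uIcc (g x₀) (g z), (f x₀, s) ∈ Q) →
      S.r (U z, V z) ≤ S.r (U x₀, V x₀) ∧ ε ≤ ‖z‖)
    (hR : ∀ x, R ≤ ‖x‖ → f x₀ < f x) :
    (∀ x, x ≠ 0 → ∃ t : ℝ, 0 < t ∧ f (t • x) = f x₀ ∧
      ∀ s ∈ uIcc (g x₀) (g (t • x)), (f x₀, s) ∈ Q) ∧
    (∀ x, x ≠ 0 → f x = f x₀ → S.r (U x, V x) ≤ S.r (U x₀, V x₀) ∧
      ∀ s ∈ uIcc (g x₀) (g x), (f x₀, s) ∈ Q) ∧
    (∀ x, x ≠ 0 → ‖x‖ ≤ ε / 2 → f x < f x₀) ∧
    area S U V {x | x ≠ 0 ∧ f x < f x₀} ≤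
      ENNReal.ofReal (4 * Real.pi * S.r (U x₀, V x₀) ^ 2) := by
  have hd : ∀ x, x ≠ 0 → DifferentiableAt ℝ f x := fun x hx =>
    (hf.contDiffAt (isOpen_ne0.mem_nhds hx)).differentiableAt (by simp)
  have hmono : ∀ x, x ≠ 0 → StrictMonoOn (fun t : ℝ => f (t • x)) (Ioi 0) := fun x hx =>
    strictMono_ray hd hpos hx
  have key := hray Q (fun x => (f x, g x)) hQ (hf.continuousOn.prodMk hg) hF hmono x₀ hx₀ ε R hε
    (fun z hz h1 h2 => ⟨(hseg z hz h1 h2).2, by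
      by_contra h3
      push Not at h3
      have := hR z h3.le
      simp only at h1
      linarith⟩)
  simp only at key
  have k2 : ∀ x, x ≠ 0 → f x = f x₀ → S.r (U x, V x) ≤ S.r (U x₀, V x₀) ∧
      ∀ s ∈ uIcc (g x₀) (g x), (f x₀, s) ∈ Q := by
    intro x hx hfx
    obtain ⟨t, ht, h1, h2⟩ := key x hx
    have h3 : t = 1 := by
      refine (hmono x hx).injOn (mem_Ioi.2 ht) (mem_Ioi.2 one_pos) ?_
      simp only [one_smul]
      rw [h1, hfx]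
    rw [h3, one_smul] at h2
    exact ⟨(hseg x hx hfx h2).1, h2⟩
  have k3 : ∀ x, x ≠ 0 → ‖x‖ ≤ ε / 2 → f x < f x₀ := by
    intro x hx hxe
    obtain ⟨t, ht, h1, h2⟩ := key x hx
    have h3 := (hseg _ (smul_ne ht hx) h1 h2).2
    rw [norm_smul, Real.norm_of_nonneg ht.le] at h3
    have hn : 0 < ‖x‖ := norm_pos_iff.2 hx
    have h4 : 1 < t := by
      by_contra h4
      push Not at h4
      have : t * ‖x‖ ≤ 1 * ‖x‖ := mul_le_mul_of_nonneg_right h4 hn.le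
      linarith
    have h5 := (hmono x hx) (mem_Ioi.2 one_pos) (mem_Ioi.2 ht) h4
    simp only [one_smul] at h5
    linarith
  refine ⟨key, k2, k3, ?_⟩
  exact harea S U V h f hf hpos halg (f x₀) (ε / 2) R _ (by linarith) k3 hR
    (fun x hx hfx => (k2 x hx hfx).1)

theorem area_U (halg : S_alg) (h : IsSlice S U V) : ∀ x X, x ≠ 0 → metric S U V x X X ≤ 1 →
    vol S U V x * |fderiv ℝ (fun y => -U y) x X| ≤
      S.r (U x, V x) ^ 2 / ‖x‖ ^ 3 * fderiv ℝ (fun y => -U y) x x := by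
  intro x X hx hX
  have h1 := (halg S U V x X hx hX).1
  rw [fderiv_fun_neg]
  simp only [ContinuousLinearMap.neg_apply, abs_neg]
  rwa [abs_of_neg (h.outward x hx)] at h1

theorem area_V (halg : S_alg) (h : IsSlice S U V) : ∀ x X, x ≠ 0 → metric S U V x X X ≤ 1 →
    vol S U V x * |fderiv ℝ V x X| ≤ S.r (U x, V x) ^ 2 / ‖x‖ ^ 3 * fderiv ℝ V x x := by
  intro x X hx hX
  have h1 := (halg S U V x X hx hX).2
  rwa [abs_of_pos (h.V_pos hx)] at h1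

/-- the level sphere of `U` -/
theorem level_U (hray : S_ray) (harea : S_area) (halg : S_alg) (hseg : S_seg) (hE : Energy S)
    (h : IsSlice S U V) {x₀ : E} (hx₀ : x₀ ≠ 0) (h0 : dv S.r (U x₀, V x₀) = 0) {ε R : ℝ}
    (hε : 0 < ε) (hz : ∀ z, z ≠ 0 → U z = U x₀ → S.r (U z, V z) ≤ S.r (U x₀, V x₀) → ε ≤ ‖z‖)
    (hR : ∀ x, R ≤ ‖x‖ → U x < U x₀) :
    (∀ x, x ≠ 0 → ∃ t : ℝ, 0 < t ∧ U (t • x) = U x₀) ∧
    (∀ x, x ≠ 0 → U x = U x₀ → ∀ s ∈ uIcc (V x₀) (V x), (U x₀, s) ∈ S.Q) ∧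
    (∀ x, x ≠ 0 → ‖x‖ ≤ ε / 2 → U x₀ < U x) ∧
    area S U V {x | x ≠ 0 ∧ -U x < -U x₀} ≤
      ENNReal.ofReal (4 * Real.pi * S.r (U x₀, V x₀) ^ 2) := by
  have hQ : IsOpen {p : ℝ × ℝ | (-p.1, p.2) ∈ S.Q} :=
    S.isOpen.preimage (by fun_prop)
  have key := level hray harea h (f := fun y => -U y) (g := V)
    (Q := {p : ℝ × ℝ | (-p.1, p.2) ∈ S.Q}) hQ
    (fun x hx => by simpa using h.mem x hx) h.smooth_U.neg h.smooth_V.continuousOn
    (fun x hx => by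
      rw [fderiv_fun_neg]
      have := h.outward x hx
      simpa using this) (area_U halg h) hx₀ (ε := ε) (R := R) hε ?_
    (fun x hx => by have := hR x hx; linarith)
  · obtain ⟨k1, k2, k3, k4⟩ := key
    refine ⟨fun x hx => ?_, fun x hx hxe s hs => ?_, fun x hx hxe => ?_, k4⟩
    · obtain ⟨t, ht, h1, -⟩ := k1 x hx
      exact ⟨t, ht, by simpa using h1⟩
    · have := (k2 x hx (by rw [hxe])).2 s hs
      simpa using this
    · have := k3 x hx hxe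
      linarith
  · intro z hz0 hzU hzs
    have hzU' : U z = U x₀ := by simpa using hzU
    have h1 := ((hseg S hE (U x₀) (V x₀) (h.mem x₀ hx₀)).1 h0 (V z) (fun s hs => by
      have := hzs s hs
      simpa using this)).1
    rw [← hzU'] at h1
    rw [hzU'] at h1
    have h2 : S.r (U z, V z) ≤ S.r (U x₀, V x₀) := by rw [hzU']; exact h1
    exact ⟨h2, hz z hz0 hzU' h2⟩

/-- the level sphere of `V` -/
theorem level_V (hray : S_ray) (harea : S_area) (halg : S_alg) (hseg : S_seg) (hE : Energy S)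
    (h : IsSlice S U V) {x₀ : E} (hx₀ : x₀ ≠ 0) (h0 : du S.r (U x₀, V x₀) = 0) {ε R : ℝ}
    (hε : 0 < ε) (hz : ∀ z, z ≠ 0 → V z = V x₀ → S.r (U z, V z) ≤ S.r (U x₀, V x₀) → ε ≤ ‖z‖)
    (hR : ∀ x, R ≤ ‖x‖ → V x₀ < V x) :
    (∀ x, x ≠ 0 → ∃ t : ℝ, 0 < t ∧ V (t • x) = V x₀) ∧
    (∀ x, x ≠ 0 → V x = V x₀ → ∀ s ∈ uIcc (U x₀) (U x), (s, V x₀) ∈ S.Q) ∧
    (∀ x, x ≠ 0 → ‖x‖ ≤ ε / 2 → V x < V x₀) ∧
    area S U V {x | x ≠ 0 ∧ V x < V x₀} ≤
      ENNReal.ofReal (4 * Real.pi * S.r (U x₀, V x₀) ^ 2) := by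
  have hQ : IsOpen {p : ℝ × ℝ | (p.2, p.1) ∈ S.Q} :=
    S.isOpen.preimage (by fun_prop)
  have key := level hray harea h (f := V) (g := U)
    (Q := {p : ℝ × ℝ | (p.2, p.1) ∈ S.Q}) hQ
    (fun x hx => h.mem x hx) h.smooth_V h.smooth_U.continuousOn
    (fun x hx => h.V_pos hx) (area_V halg h) hx₀ (ε := ε) (R := R) hε ?_ hR
  · obtain ⟨k1, k2, k3, k4⟩ := key
    refine ⟨fun x hx => ?_, fun x hx hxe s hs => ?_, k3, k4⟩
    · obtain ⟨t, ht, h1, -⟩ := k1 x hx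
      exact ⟨t, ht, h1⟩
    · exact (k2 x hx hxe).2 s hs
  · intro z hz0 hzV hzs
    have h1 := ((hseg S hE (U x₀) (V x₀) (h.mem x₀ hx₀)).2 h0 (U z) (fun s hs => hzs s hs)).1
    have h2 : S.r (U z, V z) ≤ S.r (U x₀, V x₀) := by rw [hzV]; exact h1
    exact ⟨h2, hz z hz0 hzV h2⟩

/-- the mass along a ray of regular points -/
theorem mass_ray (hmono : S_mono) (hE : Energy S) (h : IsSlice S U V) {m : ℝ}
    (hm : Tendsto (fun x => mH S (U x, V x)) (Bornology.cobounded E) (𝓝 m)) {x₀ : E}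
    (hx₀ : x₀ ≠ 0) (hreg : ∀ t : ℝ, 1 < t → Reg S U V (t • x₀)) : mH S (U x₀, V x₀) ≤ m := by
  have hne : ∀ t : ℝ, 1 ≤ t → t • x₀ ≠ 0 := fun t ht => smul_ne (by linarith) hx₀
  have hder : ∀ t : ℝ, 1 ≤ t → HasDerivAt (fun s : ℝ => mH S (U (s • x₀), V (s • x₀)))
      (fderiv ℝ (fun y => mH S (U y, V y)) (t • x₀) x₀) t := fun t ht =>
    hasDerivAt_ray (f := fun y => mH S (U y, V y))
      (h.comp_fderiv (hne t ht) (hmono S hE _ (h.mem _ (hne t ht))).1).1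
  have hM : MonotoneOn (fun s : ℝ => mH S (U (s • x₀), V (s • x₀))) (Ici 1) := by
    apply monotoneOn_of_deriv_nonneg (convex_Ici 1)
    · intro t ht
      exact (hder t ht).continuousAt.continuousWithinAt
    · intro t ht
      rw [interior_Ici] at ht
      exact (hder t (le_of_lt ht)).differentiableAt.differentiableWithinAt
    · intro t ht
      rw [interior_Ici] at ht
      have ht1 : (1 : ℝ) ≤ t := le_of_lt ht
      have ht0 : (0 : ℝ) < t := by linarith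
      rw [(hder t ht1).deriv]
      obtain ⟨d1, d2⟩ := hmono S hE _ (h.mem _ (hne t ht1))
      obtain ⟨r1, r2⟩ := hreg t ht
      obtain ⟨e1, e2⟩ := d2 r1.le r2.le
      rw [(h.comp_fderiv (hne t ht1) d1).2 x₀, fderiv_ray ht0.ne', fderiv_ray ht0.ne']
      have u1 := h.outward _ (hne t ht1)
      have u2 := h.V_pos (hne t ht1)
      have hti : 0 < t⁻¹ := inv_pos.2 ht0
      have p1 : 0 ≤ fderiv ℝ U (t • x₀) (t • x₀) * du (mH S) (U (t • x₀), V (t • x₀)) :=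
        mul_nonneg_of_nonpos_of_nonpos u1.le e1
      have p2 : 0 ≤ fderiv ℝ V (t • x₀) (t • x₀) * dv (mH S) (U (t • x₀), V (t • x₀)) :=
        mul_nonneg u2.le e2
      have : 0 ≤ t⁻¹ * (fderiv ℝ U (t • x₀) (t • x₀) * du (mH S) (U (t • x₀), V (t • x₀)) +
          fderiv ℝ V (t • x₀) (t • x₀) * dv (mH S) (U (t • x₀), V (t • x₀))) :=
        mul_nonneg hti.le (add_nonneg p1 p2)
      linarith
  have hlim : Tendsto (fun s : ℝ => mH S (U (s • x₀), V (s • x₀))) atTop (𝓝 m) := by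
    refine hm.comp (g := fun x => mH S (U x, V x)) (f := fun s : ℝ => s • x₀) ?_
    rw [← tendsto_norm_atTop_iff_cobounded]
    have : (fun s : ℝ => ‖s • x₀‖) = fun s => |s| * ‖x₀‖ := by
      ext s; rw [norm_smul, Real.norm_eq_abs]
    rw [this]
    exact (tendsto_abs_atTop_atTop).atTop_mul_const (norm_pos_iff.2 hx₀)
  have h1 : mH S (U ((1 : ℝ) • x₀), V ((1 : ℝ) • x₀)) ≤ m := by
    refine ge_of_tendsto hlim ?_
    filter_upwards [eventually_ge_atTop 1] with t ht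
    exact hM (mem_Ici.2 le_rfl) ht ht
  simpa using h1

end Pool.Agent.Q90.PI
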