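import Pool.Agent.Q90.PI.Def

/-! Statements of the lemmas for the Penrose inequality (jobs PI1 to PI12). -/

set_option autoImplicit false

open MeasureTheory Set Filter Topology Metric
open scoped ContDiff ENNReal

namespace Pool.Agent.Q90.PI

/-- **Level spheres** (job PI1).  Proof. Put `c = (F x₀).1`, `h₀ = (F x₀).2` and call `z ≠ 0` good if `(F z).1 = c` and `(c, s) ∈ Q` for
all `s` between `h₀` and `(F z).2`. Let `W` be the set of the `x ≠ 0` such that `t • x` is good for some `t > 0`. `x₀ ∈ W` (`t = 1`).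
(a) `W` is open: let `z = t • x` be good. The compact segment `{c} × uIcc h₀ (F z).2` has a neighbourhood (thickening) in `Q`, so every `z'`
near `z` with `(F z').1 = c` is good. Since `(F ((t-δ) • x)).1 < c < (F ((t+δ) • x)).1`, for `y` near `x` one has
`(F ((t-δ) • y)).1 < c < (F ((t+δ) • y)).1`, and by the intermediate value theorem there is `t'` in `(t-δ, t+δ)` with `(F (t' • y)).1 = c`;
it is near `z`, hence good. (b) `W` is closed in `{0}ᶜ`: let `x_n → x ≠ 0`, `t_n • x_n` good. By hypothesis `ε ≤ ‖t_n • x_n‖ ≤ R`, so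
(a subsequence) `t_n → t > 0`, `z = t • x`, `(F z).1 = c`; for `s` strictly between `h₀` and `(F z).2`, `s` is between `h₀` and
`(F (t_n • x_n)).2` for large `n`, so `(c, s) ∈ Q`; for `s = (F z).2`, `(c, s) = F z ∈ Q`, and for `s = h₀`, `(c, s) = F x₀ ∈ Q`. (c) `{0}ᶜ` is
preconnected (`isConnected_compl_singleton_of_one_lt_rank`), so `W = {0}ᶜ`. -/
def S_ray : Prop := ∀ (Q : Set (ℝ × ℝ)) (F : E → ℝ × ℝ), IsOpen Q → ContinuousOn F {0}ᶜ →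
  (∀ x, x ≠ 0 → F x ∈ Q) →
  (∀ x, x ≠ 0 → StrictMonoOn (fun t : ℝ => (F (t • x)).1) (Ioi 0)) →
  ∀ x₀ : E, x₀ ≠ 0 → ∀ ε R : ℝ, 0 < ε →
  (∀ z, z ≠ 0 → (F z).1 = (F x₀).1 → (∀ s ∈ uIcc (F x₀).2 (F z).2, ((F x₀).1, s) ∈ Q) →
    ε ≤ ‖z‖ ∧ ‖z‖ ≤ R) →
  ∀ x, x ≠ 0 → ∃ t : ℝ, 0 < t ∧ (F (t • x)).1 = (F x₀).1 ∧
    ∀ s ∈ uIcc (F x₀).2 (F (t • x)).2, ((F x₀).1, s) ∈ Q

/-- **The algebraic inequality** (job PI2).  Proof. Write `a, b` for the gradients of `U, V` (`a_i = fderiv U x (e i)`), `k = r²/‖x‖⁴`,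
`n = ‖x‖²`, `w = S.w`; then `comp i j = k (n δ_ij - x_i x_j) - (w/2) (a_i b_j + a_j b_i)` and, for all `X`, the polynomial identity
`k² n (a·x)² g(X, X) - det(g) (a·X)² = k ‖k (a·x) (n X - (x·X) x) - (w/2) (a·X) ((a·x) b - (b·x) a)‖²`
(up to the sign in front of `w/2`; coordinates, `Matrix.det_fin_three`, `ring`). So `det(g) (a·X)² ≤ k² n (a·x)²` if `g(X, X) ≤ 1`; take
square roots (if `det < 0`, then `vol = 0`). The same for `V` by symmetry in `a, b`. -/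
def S_alg : Prop := ∀ (S : Spacetime) (U V : E → ℝ) (x X : E), x ≠ 0 → metric S U V x X X ≤ 1 →
  vol S U V x * |fderiv ℝ U x X| ≤ S.r (U x, V x) ^ 2 / ‖x‖ ^ 3 * |fderiv ℝ U x x| ∧
  vol S U V x * |fderiv ℝ V x X| ≤ S.r (U x, V x) ^ 2 / ‖x‖ ^ 3 * |fderiv ℝ V x x|

/-- **Smoothness** (job PI3).  Proof. `metric` is bilinear symmetric; positive definite at `x ≠ 0`, so the determinant of its matrix in the
basis `e i` is positive (`Matrix.PosDef.det_pos`); the components are smooth on the open set `{0}ᶜ` (compositions; the derivatives of `U, V`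
are smooth there: `ContDiffOn.fderiv_of_isOpen`); `Real.sqrt` is smooth at positive numbers. -/
def S_vol : Prop := ∀ (S : Spacetime) (U V : E → ℝ), IsSlice S U V →
  (∀ x, x ≠ 0 → 0 < vol S U V x) ∧ (∀ i j, ContDiffOn ℝ ∞ (comp S U V i j) {0}ᶜ) ∧
    ContDiffOn ℝ ∞ (vol S U V) {0}ᶜ

/-- **Regions** (job PI3). -/
def S_reg : Prop := ∀ f : E → ℝ, ContDiffOn ℝ ∞ f {0}ᶜ → (∀ x, x ≠ 0 → 0 < fderiv ℝ f x x) →
  ∀ c : ℝ, SmoothRegion {x | x ≠ 0 ∧ f x < c}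

/-- **Integration by parts** (job PI4).  Proof. `Z = h • Y` is `C¹` on all of `E` (it vanishes near `0`) with compact support and
`divergence Z x = h x * divergence Y x + fderiv h x (Y x)` for `x ≠ 0`; the integral of `fderiv (Z_i) x (e i)` is `0` for each component
(`integral_mul_fderiv_eq_neg_fderiv_mul_of_integrable` with the constant function, or similar). -/
def S_ibp : Prop := ∀ (Y : E → E) (h : E → ℝ), ContDiff ℝ 1 Y → HasCompactSupport Y →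
  (0 : E) ∉ tsupport Y → ContDiffOn ℝ 1 h {0}ᶜ →
  Integrable (fun x => h x * divergence Y x) ∧ Integrable (fun x => fderiv ℝ h x (Y x)) ∧
  ∫ x, h x * divergence Y x = -∫ x, fderiv ℝ h x (Y x)

/-- **A radial integral** (job PI5).  Proof. Polar coordinates (`Pool.Agent.H624R3.AQ.Polar`, lemma `polar`, or
`measurePreserving_homeomorphUnitSphereProd`): the integral is `∫⁻ y ∂σ ∫⁻ ρ ∈ (0, ∞) ofReal (-(fderiv h (ρ y) (ρ y))/ρ³) ρ² dρ` and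
`-(fderiv h (ρ y) (ρ y))/ρ³ · ρ² = -(d/dρ) h(ρ y) ≥ 0`, with integral `h(ε y) - h(R y) = 1` (it vanishes outside `[ε, R]`); and
`σ(univ) = 4π` (`Pool.Agent.H329R3.PM.TaskRad` has `vol3`). -/
def S_rad : Prop := ∀ (h : E → ℝ) (ε R : ℝ), 0 < ε → ContDiffOn ℝ 1 h {0}ᶜ →
  (∀ x, x ≠ 0 → ‖x‖ ≤ ε → h x = 1) → (∀ x, R ≤ ‖x‖ → h x = 0) →
  (∀ x, x ≠ 0 → fderiv ℝ h x x ≤ 0) →
  ∫⁻ x, ENNReal.ofReal (-(fderiv ℝ h x x) / ‖x‖ ^ 3) = ENNReal.ofReal (4 * Real.pi)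

/-- **The area of a level sphere** (job PI6, from `S_vol`, `S_ibp`, `S_rad`).  Proof. Let `D = {x ≠ 0, f x < c}`, `X` a test field,
`Y = vol • X` (`C¹`, compact support off `0`). Let `χ = Real.smoothTransition` and `h_n(x) = χ(n (c - f x))` for `x ≠ 0` (and `h_n(0) = 1`, say);
`h_n → 1_D` pointwise off `0` (`h_n = 0` where `f ≥ c`, `h_n = 1` where `f ≤ c - 1/n`), so by dominated convergence
`∫_D div Y = lim ∫ h_n div Y = - lim ∫ fderiv h_n (Y)`. Fix `η > 0`. For large `n` one has `r² ≤ r₀² + η` at all `x ≠ 0` with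
`c - 1/n ≤ f x ≤ c`: such `x` are in `ε ≤ ‖x‖ ≤ R` for large `n` (`f` increases along the rays and is at most some `c₁ < c` on the compact
sphere `‖x‖ = ε`), and compactness. `fderiv h_n x = -n χ'(n (c - f x)) fderiv f x`, with `χ' ≥ 0`, vanishes off that set, so
`|fderiv h_n x (Y x)| ≤ (r²/‖x‖³) (-(fderiv h_n x x)) ≤ (r₀² + η) (-(fderiv h_n x x))/‖x‖³`, whose integral is `4π (r₀² + η)` by `S_rad`
(`h_n = 1` for `‖x‖ ≤ ε`, `h_n = 0` for `‖x‖ ≥ R`). Let `η → 0`. (`χ` is smooth and monotone: `Real.smoothTransition.contDiff`, `.monotone` or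
`.projIcc`; `r₀ > 0` or the level set is empty, which is impossible.) -/
def S_area : Prop := ∀ (S : Spacetime) (U V : E → ℝ), IsSlice S U V → ∀ f : E → ℝ,
  ContDiffOn ℝ ∞ f {0}ᶜ → (∀ x, x ≠ 0 → 0 < fderiv ℝ f x x) →
  (∀ x X, x ≠ 0 → metric S U V x X X ≤ 1 →
    vol S U V x * |fderiv ℝ f x X| ≤ S.r (U x, V x) ^ 2 / ‖x‖ ^ 3 * fderiv ℝ f x x) →
  ∀ c ε R r₀ : ℝ, 0 < ε → (∀ x, x ≠ 0 → ‖x‖ ≤ ε → f x < c) → (∀ x, R ≤ ‖x‖ → c < f x) →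
  (∀ x, x ≠ 0 → f x = c → S.r (U x, V x) ≤ r₀) →
  area S U V {x | x ≠ 0 ∧ f x < c} ≤ ENNReal.ofReal (4 * Real.pi * r₀ ^ 2)

/-- **Raychaudhuri** (job PI7).  Proof. On the segment `{u₀} × uIcc v₀ v`, `s ↦ dv r (u₀, s) / w (u₀, s)` is antitone (derivative
`dv (dv r / w) ≤ 0`, `Energy.vv`) and vanishes at `v₀`; so `dv r ≥ 0` for `s ≤ v₀` and `dv r ≤ 0` for `s ≥ v₀`; integrate. The same for `u`. -/
def S_seg : Prop := ∀ S : Spacetime, Energy S → ∀ u₀ v₀ : ℝ, (u₀, v₀) ∈ S.Q →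
  (dv S.r (u₀, v₀) = 0 → ∀ v, (∀ s ∈ uIcc v₀ v, (u₀, s) ∈ S.Q) →
    S.r (u₀, v) ≤ S.r (u₀, v₀) ∧ (v ≤ v₀ → 0 ≤ dv S.r (u₀, v)) ∧ (v₀ ≤ v → dv S.r (u₀, v) ≤ 0)) ∧
  (du S.r (u₀, v₀) = 0 → ∀ u, (∀ s ∈ uIcc u₀ u, (s, v₀) ∈ S.Q) →
    S.r (u, v₀) ≤ S.r (u₀, v₀) ∧ (u ≤ u₀ → 0 ≤ du S.r (u, v₀)) ∧ (u₀ ≤ u → du S.r (u, v₀) ≤ 0))

/-- **Monotonicity of the Hawking mass** (job PI8).  Proof. `r, w` are smooth near `p` (`Q` open). With `A = r_u/w`, `B = r_v/w`: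
`∂_u mH = (2 r_u/w) (w/4 + r_u r_v + r r_uv) + 2 r r_v ∂_u(r_u/w)` and
`∂_v mH = (2 r_v/w) (w/4 + r_u r_v + r r_vu) + 2 r r_u ∂_v(r_v/w)`, `r_uv = du (dv r) = dv (du r)` (symmetry of the second derivative). The signs
follow from `Energy`. -/
def S_mono : Prop := ∀ S : Spacetime, Energy S → ∀ p ∈ S.Q, DifferentiableAt ℝ (mH S) p ∧
  (du S.r p ≤ 0 → 0 ≤ dv S.r p → du (mH S) p ≤ 0 ∧ 0 ≤ dv (mH S) p)

/-- `g(ν, ν)` for the radial unit vector of Euclidean space -/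
noncomputable def aa (S : Spacetime) (U V : E → ℝ) (x : E) : ℝ := metric S U V x x x / ‖x‖ ^ 2

/-- `r²/‖x‖²` -/
noncomputable def ff (S : Spacetime) (U V : E → ℝ) (x : E) : ℝ := S.r (U x, V x) ^ 2 / ‖x‖ ^ 2

/-- **Symmetric part** (job PI9).  Proof. For `‖x‖ > R`, `U y = U ((‖y‖/‖x‖) • x)` for `y` near `x`; differentiate at `y = x`:
`fderiv U x X = fderiv U x x * ⟪x, X⟫/‖x‖²`; the same for `V`. So `metric x X Y = ff x * (⟪X,Y⟫ - ⟪x,X⟫⟪x,Y⟫/‖x‖²) + aa x * ⟪x,X⟫⟪x,Y⟫/‖x‖²`.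
And `U (t • x) = U (t • y)` for `t` near `1`, `‖x‖ = ‖y‖`, gives `fderiv U x x = fderiv U y y`, hence `aa x = aa y`, `ff x = ff y`. -/
def S_sym : Prop := ∀ (S : Spacetime) (U V : E → ℝ), IsSlice S U V → ∀ R : ℝ, 0 < R →
  (∀ x y : E, R < ‖x‖ → ‖x‖ = ‖y‖ → U x = U y ∧ V x = V y) →
  (∀ x X Y : E, R < ‖x‖ → metric S U V x X Y = ff S U V x * (inner ℝ X Y - inner ℝ x X * inner ℝ x Y / ‖x‖ ^ 2) +
    aa S U V x * (inner ℝ x X * inner ℝ x Y / ‖x‖ ^ 2)) ∧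
  (∀ x X : E, R < ‖x‖ → fderiv ℝ U x X = fderiv ℝ U x x * inner ℝ x X / ‖x‖ ^ 2 ∧
    fderiv ℝ V x X = fderiv ℝ V x x * inner ℝ x X / ‖x‖ ^ 2) ∧
  (∀ x y : E, R < ‖x‖ → ‖x‖ = ‖y‖ → aa S U V x = aa S U V y ∧ ff S U V x = ff S U V y)

/-- **The flux** (job PI10, from `S_sym`, `S_vol`).  Proof. By `S_sym`, `comp i j = ff δ_ij + (aa - ff) x_i x_j/‖x‖²` on the open set
`‖x‖ > R`, so `∑_ij ∂_i g_ij x_j = D ff + D (aa - ff) + 2 (aa - ff)` with `D f = fderiv f x x`, and `∑_j ∂_j (∑_i g_ii) x_j = D aa + 2 D ff`: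
`fluxDensity x x = 2 (aa - ff) - 2 D ff`. It depends on `‖x‖` only (`D ff` too: `ff (t • x) = ff (t • y)`), `fluxDensity x` is linear,
and the sphere has measure `4π`. -/
def S_flux : Prop := ∀ (S : Spacetime) (U V : E → ℝ), IsSlice S U V → ∀ R : ℝ, 0 < R →
  (∀ x y : E, R < ‖x‖ → ‖x‖ = ‖y‖ → U x = U y ∧ V x = V y) →
  ∀ x : E, R < ‖x‖ →
    flux S U V ‖x‖ = ‖x‖ / 2 * (aa S U V x - ff S U V x - fderiv ℝ (ff S U V) x x)

/-- **Asymptotics** (job PI11, from `S_sym`, `S_vol`).  Proof. `aa x = ∑_ij g_ij(x) x_i x_j/‖x‖²` tends to `1` by `decay`. For `‖x‖ > R`,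
`ff = (∑_i g_ii - aa)/2` (`S_sym`), so `ff → 1`, and `D ff = (∑_i D g_ii - D aa)/2`, `D aa = ∑_ij (D g_ij) x_i x_j/‖x‖²` (the functions
`x_i x_j/‖x‖²` are constant along the rays), where `D g_ij = fderiv g_ij x x = ∑_k x_k fderiv g_ij x (e k) = O(‖x‖⁻¹)` by `decay_deriv`. -/
def S_asy : Prop := ∀ (S : Spacetime) (U V : E → ℝ) (m : ℝ), IsSlice S U V → FlatEnd S U V m →
  Tendsto (aa S U V) (Bornology.cobounded E) (𝓝 1) ∧
  Tendsto (ff S U V) (Bornology.cobounded E) (𝓝 1) ∧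
  (fun x => fderiv ℝ (ff S U V) x x) =O[Bornology.cobounded E] fun x => ‖x‖⁻¹

/-- **Infinity** (job PI12, from `S_sym`, `S_flux`, `S_asy`, `S_vol`).  Proof. Write `n = ‖x‖`, `a = aa`, `f = ff`, `D g = fderiv g x x`,
`r = r(U x, V x) = n √f`, `α = D U < 0`, `β = D V > 0` (`metric x x x = -w α β > 0`, that is `a n² = -w α β`), `N = normalDeriv`,
`D r = α r_u + β r_v` (chain rule), `n √a N = β r_v - α r_u`. From `r² = f n²`: `2 r D r = n² D f + 2 f n²`, so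
`D r/n = (f + D f/2)/√f → 1`. As `N → 0`, `β r_v/n = (D r/n + √a N)/2 → 1/2`, `α r_u/n → 1/2`; so `r_v > 0 > r_u` eventually. Next
`-4 r_u r_v/w = ((D r)² - n² a N²)/(n² a)`, because `(D r)² - (n √a N)² = 4 α β r_u r_v` and `a n² = -w α β`. So
`mH = (r/2) (1 - (D r/n)²/a + N²)`, and `(D r/n)² = f + D f + (D f)²/(4 f)`, so
`mH = (√f/a) (n/2) (a - f - D f) - (√f/(8 a f)) n (D f)² + (n √f/2) N²`. Here `(n/2)(a - f - D f) = flux S U V n → m` (`S_flux` and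
`FlatEnd.mass`), `D f = O(1/n)`, `N = O(1/n)`. -/
def S_inf : Prop := ∀ (S : Spacetime) (U V : E → ℝ) (m : ℝ), IsSlice S U V → FlatEnd S U V m →
  (∀ᶠ x in Bornology.cobounded E, du S.r (U x, V x) < 0 ∧ 0 < dv S.r (U x, V x)) ∧
  Tendsto (fun x => mH S (U x, V x)) (Bornology.cobounded E) (𝓝 m)

end Pool.Agent.Q90.PI
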