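import Pool.Agent.Q90.PI.Cmp

/-! Outer trapped surfaces: the enclosing sphere. -/

set_option autoImplicit false

open MeasureTheory Set Filter Topology Metric
open scoped ContDiff ENNReal

namespace Pool.Agent.Q90.PI

variable {S : Spacetime} {U V : E → ℝ}

/-- a limit at `0` of a function which decreases along the rays is larger than all its values -/
theorem limit_lt {f : E → ℝ} {a : ℝ} (ha : Tendsto f (𝓝[≠] 0) (𝓝 a))
    (hmono : ∀ x, x ≠ 0 → StrictMonoOn (fun t : ℝ => f (t • x)) (Ioi 0)) {x : E} (hx : x ≠ 0) :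
    a < f x := by
  have h1 : f ((1 / 2 : ℝ) • x) < f x := by
    have := hmono x hx (mem_Ioi.2 (by norm_num : (0 : ℝ) < 1 / 2)) (mem_Ioi.2 one_pos) (by norm_num)
    simpa using this
  have h2 : a ≤ f ((1 / 2 : ℝ) • x) := by
    have h3 : Tendsto (fun t : ℝ => f (t • x)) (𝓝[>] 0) (𝓝 a) := by
      refine ha.comp (f := fun t : ℝ => t • x) ?_
      rw [tendsto_nhdsWithin_iff]
      constructor
      · have : Tendsto (fun t : ℝ => t • x) (𝓝 0) (𝓝 ((0 : ℝ) • x)) := by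
          apply Continuous.tendsto; fun_prop
        rw [zero_smul] at this
        exact this.mono_left nhdsWithin_le_nhds
      · filter_upwards [self_mem_nhdsWithin] with t ht
        exact smul_ne ht hx
    refine le_of_tendsto h3 ?_
    filter_upwards [Ioo_mem_nhdsGT (show (0 : ℝ) < 1 / 2 by norm_num)] with t ht
    exact (hmono x hx (mem_Ioi.2 ht.1) (mem_Ioi.2 (by norm_num : (0 : ℝ) < 1 / 2)) ht.2).le
  linarith

/-- the level sets of `f = -U` or `V` where `r` is bounded stay away from `0` -/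
theorem level_away (hin : Inner S U V) (h : IsSlice S U V) {x₀ : E} (hx₀ : x₀ ≠ 0) :
    ∃ ε > 0, (∀ z, z ≠ 0 → U z = U x₀ → S.r (U z, V z) ≤ S.r (U x₀, V x₀) → ε ≤ ‖z‖) ∧
      (∀ z, z ≠ 0 → V z = V x₀ → S.r (U z, V z) ≤ S.r (U x₀, V x₀) → ε ≤ ‖z‖) := by
  rcases hin with ⟨a, b, ha, hb⟩ | ⟨h0, -⟩
  · have h1 : -a < -U x₀ := limit_lt (f := fun x => -U x) ha.neg (fun x hx => h.mono_U hx) hx₀
    have h2 : b < V x₀ := limit_lt hb (fun x hx => h.mono_V hx) hx₀
    obtain ⟨ε₁, hε₁, h3⟩ := eventually_near (ha.eventually (lt_mem_nhds (by linarith : U x₀ < a)))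
    obtain ⟨ε₂, hε₂, h4⟩ := eventually_near (hb.eventually (gt_mem_nhds h2))
    refine ⟨min ε₁ ε₂, lt_min hε₁ hε₂, fun z hz h5 _ => ?_, fun z hz h5 _ => ?_⟩
    · by_contra hcon
      push Not at hcon
      have := h3 z hz (hcon.le.trans (min_le_left _ _))
      linarith
    · by_contra hcon
      push Not at hcon
      have := h4 z hz (hcon.le.trans (min_le_right _ _))
      linarith
  · obtain ⟨ε, hε, h1⟩ := eventually_near (h0.eventually_gt_atTop (S.r (U x₀, V x₀)))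
    refine ⟨ε, hε, fun z hz _ h2 => ?_, fun z hz _ h2 => ?_⟩
    all_goals
      by_contra hcon
      push Not at hcon
      have := h1 z hz hcon.le
      linarith

/-- **The enclosing sphere.** If there are points with `∂_v r ≤ 0`, there is a region `D` with the
properties required in the Penrose inequality which contains all `x` such that
`U y < U x` for some `y` with `∂_v r (y) ≤ 0`. -/
theorem enclosing (hray : S_ray) (halg : S_alg) (hreg : S_reg) (harea : S_area) (hseg : S_seg)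
    (hmono : S_mono) (hE : Energy S) (h : IsSlice S U V) {m : ℝ}
    (hend : OuterEnd S U V m) (hin : Inner S U V) {q : E} (hq : q ≠ 0)
    (hqv : dv S.r (U q, V q) ≤ 0) :
    0 < m ∧ ∃ D : Set E, Admissible D ∧
      (∀ y, y ≠ 0 → dv S.r (U y, V y) ≤ 0 → ∀ x, x ≠ 0 → U y < U x → x ∈ D) ∧
      area S U V D ≤ ENNReal.ofReal (16 * Real.pi * m ^ 2) := by
  obtain ⟨R₁, hR₁0, hR₁⟩ := eventually_far hend.regular
  -- the set `N₁` and the largest value of `-U` on it
  obtain ⟨x₁, hx₁, hv₁, hmax₁⟩ : ∃ x₁, x₁ ≠ 0 ∧ dv S.r (U x₁, V x₁) ≤ 0 ∧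
      ∀ x, x ≠ 0 → dv S.r (U x, V x) ≤ 0 → -U x ≤ -U x₁ := by
    have hNc : ∀ ε R : ℝ, 0 < ε → IsCompact (shell ε R ∩ {x | x ≠ 0 ∧ dv S.r (U x, V x) ≤ 0}) := by
      intro ε R hε
      have h2 := compact_set h.cont_rv.neg ε R hε
      have : shell ε R ∩ {x | x ≠ 0 ∧ dv S.r (U x, V x) ≤ 0} =
          shell ε R ∩ {x | 0 ≤ -dv S.r (U x, V x)} := by
        ext x
        simp only [mem_inter_iff, mem_setOf_eq]
        constructor
        · rintro ⟨hs, -, h3⟩; exact ⟨hs, by linarith⟩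
        · rintro ⟨hs, h3⟩; exact ⟨hs, shell_ne hε hs, by linarith⟩
      rw [this]; exact h2
    obtain ⟨ε, hε, hε'⟩ : ∃ ε > 0, ∀ x ∈ {x : E | x ≠ 0 ∧ dv S.r (U x, V x) ≤ 0}, ‖x‖ < ε →
        ∃ y ∈ {x : E | x ≠ 0 ∧ dv S.r (U x, V x) ≤ 0}, ε ≤ ‖y‖ ∧ -U x ≤ -U y := by
      rcases hin with ⟨a, b, ha, hb⟩ | ⟨-, h0⟩
      · have h1 : -a < -U q := limit_lt (f := fun x => -U x) ha.neg (fun x hx => h.mono_U hx) hq
        obtain ⟨ε₁, hε₁, h3⟩ := eventually_near (ha.eventually (lt_mem_nhds (by linarith : U q < a)))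
        refine ⟨min ε₁ ‖q‖, lt_min hε₁ (norm_pos_iff.2 hq), fun x hx hxe =>
          ⟨q, ⟨hq, hqv⟩, min_le_right _ _, ?_⟩⟩
        have := h3 x hx.1 (hxe.le.trans (min_le_left _ _))
        linarith
      · obtain ⟨ε, hε, h1⟩ := eventually_near h0
        refine ⟨ε, hε, fun x hx hxe => ?_⟩
        have hn : 0 < ‖x‖ := norm_pos_iff.2 hx.1
        have ht : 0 < ε / ‖x‖ := by positivity
        have hy : ‖(ε / ‖x‖) • x‖ = ε := by
          rw [norm_smul, Real.norm_of_nonneg ht.le]; field_simp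
        have hy0 : (ε / ‖x‖) • x ≠ 0 := smul_ne ht hx.1
        refine ⟨(ε / ‖x‖) • x, ⟨hy0, (h1 _ hy0 hy.le).2.le⟩, hy.ge, ?_⟩
        have ht1 : 1 < ε / ‖x‖ := by rwa [one_lt_div hn]
        have := h.mono_U hx.1 (mem_Ioi.2 one_pos) (mem_Ioi.2 ht) ht1
        simp only [one_smul] at this
        exact this.le
    obtain ⟨x₁, hx₁, hmax⟩ := exists_max (N := {x : E | x ≠ 0 ∧ dv S.r (U x, V x) ≤ 0})
      (f := fun x => -U x) h.smooth_U.continuousOn.neg (fun x hx => hx.1) hNc ⟨q, hq, hqv⟩ hε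
      (R := R₁) (fun x hx => by
        by_contra hcon
        push Not at hcon
        have := (hR₁ x hcon.le).2
        have := hx.2
        linarith) hε'
    exact ⟨x₁, hx₁.1, hx₁.2, fun x hx hxv => hmax x ⟨hx, hxv⟩⟩
  have hout₁ : ∀ x, x ≠ 0 → U x < U x₁ → 0 < dv S.r (U x, V x) := by
    intro x hx hU
    by_contra hcon
    push Not at hcon
    have := hmax₁ x hx hcon
    linarith
  -- at all points of the sphere `U = U x₁`, `∂_v r ≥ 0`
  have hsp : ∀ z, z ≠ 0 → U z = U x₁ → 0 ≤ dv S.r (U z, V z) := by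
    intro z hz hzU
    refine ray_limit (g := fun x => dv S.r (U x, V x)) h.cont_rv hz (fun t ht => ?_)
    have ht0 : 0 < t := by linarith
    have := h.mono_U hz (mem_Ioi.2 one_pos) (mem_Ioi.2 ht0) ht
    simp only [one_smul] at this
    exact (hout₁ _ (smul_ne ht0 hz) (by linarith)).le
  have hx₁v : dv S.r (U x₁, V x₁) = 0 := le_antisymm hv₁ (hsp x₁ hx₁ rfl)
  obtain ⟨ε₁, hε₁, haway₁, -⟩ := level_away hin h hx₁
  obtain ⟨R₁', hR₁'0, hfar₁⟩ := hend.far_out hx₁
  obtain ⟨s1, s2, s3, s4⟩ := level_U hray harea halg hseg hE h hx₁ hx₁v hε₁ haway₁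
    (fun x hx => (hfar₁ x hx).1)
  -- the common end of the argument for the spheres `U = const`
  have caseI : ∀ z, z ≠ 0 → U z = U x₁ → dv S.r (U z, V z) = 0 →
      (∀ t : ℝ, 1 < t → du S.r (U (t • z), V (t • z)) < 0) →
      0 < m ∧ ∃ D : Set E, Admissible D ∧
        (∀ y, y ≠ 0 → dv S.r (U y, V y) ≤ 0 → ∀ x, x ≠ 0 → U y < U x → x ∈ D) ∧
        area S U V D ≤ ENNReal.ofReal (16 * Real.pi * m ^ 2) := by
    intro z hz hzU hzv hzu
    have hrayz : ∀ t : ℝ, 1 < t → Reg S U V (t • z) := by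
      intro t ht
      have ht0 : 0 < t := by linarith
      have := h.mono_U hz (mem_Ioi.2 one_pos) (mem_Ioi.2 ht0) ht
      simp only [one_smul] at this
      exact ⟨hzu t ht, hout₁ _ (smul_ne ht0 hz) (by linarith)⟩
    have hm := mass_ray hmono hE h hend.mass hz hrayz
    rw [mH_half (Or.inr hzv)] at hm
    have hr := S.r_pos _ (h.mem z hz)
    obtain ⟨ε, hε, haway, -⟩ := level_away hin h hz
    obtain ⟨R, hR0, hfar⟩ := hend.far_out hz
    obtain ⟨-, -, k3, k4⟩ := level_U hray harea halg hseg hE h hz hzv hε haway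
      (fun x hx => (hfar x hx).1)
    refine ⟨by linarith, {x | x ≠ 0 ∧ -U x < -U z}, ?_, fun y hy hyv x hx hxU =>
      ⟨hx, by have := hmax₁ y hy hyv; linarith⟩, ?_⟩
    · refine admissible_of (f := fun x => -U x) (c := -U z) (R := R)
        (hreg (fun x => -U x) h.smooth_U.neg (fun x hx => ?_) _) (half_pos hε)
        (fun x hx hxe => by have := k3 x hx hxe; linarith)
        (fun x hx => by have := (hfar x hx).1; linarith)
      rw [fderiv_fun_neg]
      have := h.outward x hx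
      simpa using this
    · refine k4.trans (ENNReal.ofReal_le_ofReal ?_)
      have h1 : S.r (U z, V z) ^ 2 ≤ (2 * m) ^ 2 := by
        apply pow_le_pow_left₀ hr.le; linarith
      nlinarith [Real.pi_pos]
  -- the set `N₂`
  by_cases hN2 : ∀ x, x ≠ 0 → du S.r (U x, V x) < 0
  · exact caseI x₁ hx₁ rfl hx₁v (fun t ht => hN2 _ (smul_ne (by linarith) hx₁))
  push Not at hN2
  obtain ⟨p, hp, hpu⟩ := hN2
  obtain ⟨x₂, hx₂, hu₂, hmax₂⟩ : ∃ x₂, x₂ ≠ 0 ∧ 0 ≤ du S.r (U x₂, V x₂) ∧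
      ∀ x, x ≠ 0 → 0 ≤ du S.r (U x, V x) → V x ≤ V x₂ := by
    have hNc : ∀ ε R : ℝ, 0 < ε → IsCompact (shell ε R ∩ {x | x ≠ 0 ∧ 0 ≤ du S.r (U x, V x)}) := by
      intro ε R hε
      have h2 := compact_set h.cont_ru ε R hε
      have : shell ε R ∩ {x | x ≠ 0 ∧ 0 ≤ du S.r (U x, V x)} =
          shell ε R ∩ {x | 0 ≤ du S.r (U x, V x)} := by
        ext x
        simp only [mem_inter_iff, mem_setOf_eq]
        constructor
        · rintro ⟨hs, -, h3⟩; exact ⟨hs, h3⟩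
        · rintro ⟨hs, h3⟩; exact ⟨hs, shell_ne hε hs, h3⟩
      rw [this]; exact h2
    obtain ⟨ε, hε, hε'⟩ : ∃ ε > 0, ∀ x ∈ {x : E | x ≠ 0 ∧ 0 ≤ du S.r (U x, V x)}, ‖x‖ < ε →
        ∃ y ∈ {x : E | x ≠ 0 ∧ 0 ≤ du S.r (U x, V x)}, ε ≤ ‖y‖ ∧ V x ≤ V y := by
      rcases hin with ⟨a, b, ha, hb⟩ | ⟨-, h0⟩
      · have h1 : b < V p := limit_lt hb (fun x hx => h.mono_V hx) hp
        obtain ⟨ε₁, hε₁, h3⟩ := eventually_near (hb.eventually (gt_mem_nhds h1))
        refine ⟨min ε₁ ‖p‖, lt_min hε₁ (norm_pos_iff.2 hp), fun x hx hxe =>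
          ⟨p, ⟨hp, hpu⟩, min_le_right _ _, ?_⟩⟩
        exact (h3 x hx.1 (hxe.le.trans (min_le_left _ _))).le
      · obtain ⟨ε, hε, h1⟩ := eventually_near h0
        refine ⟨ε, hε, fun x hx hxe => ?_⟩
        have hn : 0 < ‖x‖ := norm_pos_iff.2 hx.1
        have ht : 0 < ε / ‖x‖ := by positivity
        have hy : ‖(ε / ‖x‖) • x‖ = ε := by
          rw [norm_smul, Real.norm_of_nonneg ht.le]; field_simp
        have hy0 : (ε / ‖x‖) • x ≠ 0 := smul_ne ht hx.1
        refine ⟨(ε / ‖x‖) • x, ⟨hy0, (h1 _ hy0 hy.le).1.le⟩, hy.ge, ?_⟩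
        have ht1 : 1 < ε / ‖x‖ := by rwa [one_lt_div hn]
        have := h.mono_V hx.1 (mem_Ioi.2 one_pos) (mem_Ioi.2 ht) ht1
        simp only [one_smul] at this
        exact this.le
    obtain ⟨x₂, hx₂, hmax⟩ := exists_max (N := {x : E | x ≠ 0 ∧ 0 ≤ du S.r (U x, V x)})
      (f := V) h.smooth_V.continuousOn (fun x hx => hx.1) hNc ⟨p, hp, hpu⟩ hε
      (R := R₁) (fun x hx => by
        by_contra hcon
        push Not at hcon
        have := (hR₁ x hcon.le).1
        have := hx.2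
        linarith) hε'
    exact ⟨x₂, hx₂.1, hx₂.2, fun x hx hxv => hmax x ⟨hx, hxv⟩⟩
  have hout₂ : ∀ x, x ≠ 0 → V x₂ < V x → du S.r (U x, V x) < 0 := by
    intro x hx hV
    by_contra hcon
    push Not at hcon
    have := hmax₂ x hx hcon
    linarith
  by_cases hI : ∃ z, z ≠ 0 ∧ U z = U x₁ ∧ V x₂ ≤ V z
  · -- a point of the sphere `U = U x₁` outside of or on the sphere `V = V x₂`
    obtain ⟨z, hz, hzU, hzV⟩ := hI
    have hray2 : ∀ y, y ≠ 0 → V x₂ ≤ V y → ∀ t : ℝ, 1 < t → du S.r (U (t • y), V (t • y)) < 0 := by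
      intro y hy hyV t ht
      have ht0 : 0 < t := by linarith
      have := h.mono_V hy (mem_Ioi.2 one_pos) (mem_Ioi.2 ht0) ht
      simp only [one_smul] at this
      exact hout₂ _ (smul_ne ht0 hy) (by linarith)
    rcases le_or_gt (V x₂) (V x₁) with h1 | h1
    · exact caseI x₁ hx₁ rfl hx₁v (hray2 x₁ hx₁ h1)
    · refine caseI z hz hzU ?_ (hray2 z hz hzV)
      have h2 := ((hseg S hE (U x₁) (V x₁) (h.mem x₁ hx₁)).1 hx₁v (V z) (s2 z hz hzU)).2.2
        (by linarith)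
      have h3 := hsp z hz hzU
      rw [hzU] at h3 ⊢
      exact le_antisymm h2 h3
  · push Not at hI
    -- the sphere `U = U x₁` is inside of the sphere `V = V x₂`
    have hin2 : ∀ x, x ≠ 0 → U x₁ ≤ U x → V x < V x₂ := by
      intro x hx hxU
      obtain ⟨t, ht, htU⟩ := s1 x hx
      have h1 := hI _ (smul_ne ht hx) htU
      have h2 : 1 ≤ t := by
        by_contra hcon
        push Not at hcon
        have := h.mono_U hx (mem_Ioi.2 ht) (mem_Ioi.2 one_pos) hcon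
        simp only [one_smul] at this
        linarith
      have h3 := (h.mono_V hx).monotoneOn (mem_Ioi.2 one_pos) (mem_Ioi.2 ht) h2
      simp only [one_smul] at h3
      linarith
    have hU2 : U x₂ < U x₁ := by
      by_contra hcon
      push Not at hcon
      exact lt_irrefl _ (hin2 x₂ hx₂ hcon)
    have hray2 : ∀ t : ℝ, 1 < t → Reg S U V (t • x₂) := by
      intro t ht
      have ht0 : 0 < t := by linarith
      have e1 := h.mono_V hx₂ (mem_Ioi.2 one_pos) (mem_Ioi.2 ht0) ht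
      have e2 := h.mono_U hx₂ (mem_Ioi.2 one_pos) (mem_Ioi.2 ht0) ht
      simp only [one_smul] at e1 e2
      exact ⟨hout₂ _ (smul_ne ht0 hx₂) e1, hout₁ _ (smul_ne ht0 hx₂) (by linarith)⟩
    have hu₂' : du S.r (U x₂, V x₂) = 0 := by
      refine le_antisymm ?_ hu₂
      have := ray_limit (g := fun x => -du S.r (U x, V x)) h.cont_ru.neg hx₂
        (fun t ht => by have := (hray2 t ht).1; linarith)
      linarith
    have hm := mass_ray hmono hE h hend.mass hx₂ hray2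
    rw [mH_half (Or.inl hu₂')] at hm
    have hr := S.r_pos _ (h.mem x₂ hx₂)
    obtain ⟨ε, hε, -, haway⟩ := level_away hin h hx₂
    obtain ⟨R, hR0, hfar⟩ := hend.far_out hx₂
    obtain ⟨-, -, k3, k4⟩ := level_V hray harea halg hseg hE h hx₂ hu₂' hε haway
      (fun x hx => (hfar x hx).2)
    refine ⟨by linarith, {x | x ≠ 0 ∧ V x < V x₂}, ?_, fun y hy hyv x hx hxU =>
      ⟨hx, hin2 x hx (by have := hmax₁ y hy hyv; linarith)⟩, ?_⟩
    · exact admissible_of (hreg V h.smooth_V (fun x hx => h.V_pos hx) _) (half_pos hε) k3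
        (fun x hx => (hfar x hx).2)
    · refine k4.trans (ENNReal.ofReal_le_ofReal ?_)
      have h1 : S.r (U x₂, V x₂) ^ 2 ≤ (2 * m) ^ 2 := by
        apply pow_le_pow_left₀ hr.le; linarith
      nlinarith [Real.pi_pos]

/-- A weakly outer trapped surface and the point where `U` is minimal. -/
theorem trapped_point (h : IsSlice S U V) (hin : Inner S U V) {Ω : Set E} (hΩo : IsOpen Ω)
    (hΩb : Bornology.IsBounded Ω) (hΩne : Ω.Nonempty)
    (hΩ0 : Tendsto (fun x => S.r (U x, V x)) (𝓝[≠] 0) atTop → ∀ᶠ x in 𝓝[≠] (0 : E), x ∈ Ω)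
    (hT : OuterTrapped S U V Ω) :
    ∃ q, q ≠ 0 ∧ dv S.r (U q, V q) ≤ 0 ∧ ∀ x ∈ Ω, x ≠ 0 → U q < U x := by
  -- rays leave `Ω` through its frontier
  have hexit : ∀ x ∈ Ω, x ≠ 0 → ∃ t : ℝ, 1 < t ∧ t • x ∈ frontier Ω := by
    intro x hxΩ hx
    obtain ⟨R, hR⟩ := hΩb.subset_closedBall (0 : E)
    have hn : 0 < ‖x‖ := norm_pos_iff.2 hx
    set T : Set ℝ := {t | 1 ≤ t ∧ t • x ∉ Ω} with hTdef
    have hTc : IsClosed T := by
      have h1 : IsClosed {t : ℝ | t • x ∉ Ω} :=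
        (hΩo.preimage (by fun_prop : Continuous fun t : ℝ => t • x)).isClosed_compl
      exact isClosed_Ici.inter h1
    have hTne : T.Nonempty := by
      refine ⟨max 1 ((R + 1) / ‖x‖), le_max_left _ _, fun hmem => ?_⟩
      have h1 := hR hmem
      rw [mem_closedBall_zero_iff, norm_smul, Real.norm_of_nonneg (by positivity)] at h1
      have h2 : (R + 1) / ‖x‖ * ‖x‖ ≤ max 1 ((R + 1) / ‖x‖) * ‖x‖ :=
        mul_le_mul_of_nonneg_right (le_max_right _ _) hn.le
      rw [div_mul_cancel₀ _ hn.ne'] at h2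
      linarith
    have hTb : BddBelow T := ⟨1, fun t ht => ht.1⟩
    have ht1 := hTc.csInf_mem hTne hTb
    set t₁ := sInf T with ht₁
    have hgt : 1 < t₁ := by
      refine lt_of_le_of_ne ht1.1 (fun heq => ?_)
      have := ht1.2
      rw [← heq, one_smul] at this
      exact this hxΩ
    refine ⟨t₁, hgt, ?_⟩
    rw [frontier_eq_closure_inter_closure]
    refine ⟨?_, subset_closure ht1.2⟩
    have h3 : ∀ s ∈ Ioo 1 t₁, s • x ∈ Ω := by
      intro s hs
      by_contra hcon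
      have : t₁ ≤ s := csInf_le hTb ⟨hs.1.le, hcon⟩
      linarith [hs.2]
    have h4 : Tendsto (fun s : ℝ => s • x) (𝓝[<] t₁) (𝓝 (t₁ • x)) := by
      have : Tendsto (fun s : ℝ => s • x) (𝓝 t₁) (𝓝 (t₁ • x)) := by
        apply Continuous.tendsto; fun_prop
      exact this.mono_left nhdsWithin_le_nhds
    refine mem_closure_of_tendsto h4 ?_
    filter_upwards [Ioo_mem_nhdsLT hgt] with s hs
    exact h3 s hs
  obtain ⟨x, hxΩ, hx⟩ : ∃ x ∈ Ω, x ≠ 0 := by
    obtain ⟨y, hy⟩ := hΩne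
    rcases eq_or_ne y 0 with h1 | h1
    · rw [h1] at hy
      have h2 : ∀ᶠ z in 𝓝[≠] (0 : E), z ∈ Ω := (hΩo.mem_nhds hy : Ω ∈ 𝓝 (0 : E)) |>
        mem_nhdsWithin_of_mem_nhds
      obtain ⟨ε, hε, h3⟩ := eventually_near h2
      have he : e 0 ≠ 0 := by
        intro h
        have := congrArg (fun y : E => y 0) h
        simp [e] at this
      have hn : 0 < ‖e 0‖ := norm_pos_iff.2 he
      refine ⟨(ε / ‖e 0‖) • e 0, h3 _ (smul_ne (by positivity) he) ?_, smul_ne (by positivity) he⟩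
      rw [norm_smul, Real.norm_of_nonneg (by positivity)]
      field_simp
      exact le_refl _
    · exact ⟨y, hy, h1⟩
  obtain ⟨t₀, ht₀, htf⟩ := hexit x hxΩ hx
  -- the point of the surface with the least `U`
  obtain ⟨q, hq, hmax⟩ : ∃ q ∈ frontier Ω \ {0}, ∀ y ∈ frontier Ω \ {0}, -U y ≤ -U q := by
    obtain ⟨R, hR⟩ := hΩb.subset_closedBall (0 : E)
    have hfR : frontier Ω ⊆ closedBall 0 R :=
      frontier_subset_closure.trans (closure_minimal hR isClosed_closedBall)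
    have hNc : ∀ ε R : ℝ, 0 < ε → IsCompact (shell ε R ∩ (frontier Ω \ {0})) := by
      intro ε R hε
      have : shell ε R ∩ (frontier Ω \ {0}) = shell ε R ∩ frontier Ω := by
        ext y
        simp only [mem_inter_iff, Set.mem_sdiff, mem_singleton_iff]
        constructor
        · rintro ⟨h1, h2, -⟩; exact ⟨h1, h2⟩
        · rintro ⟨h1, h2⟩; exact ⟨h1, h2, shell_ne hε h1⟩
      rw [this]
      exact (isCompact_shell ε R).inter_right isClosed_frontier
    obtain ⟨ε, hε, hε'⟩ : ∃ ε > 0, ∀ y ∈ frontier Ω \ {0}, ‖y‖ < ε →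
        ∃ z ∈ frontier Ω \ {0}, ε ≤ ‖z‖ ∧ -U y ≤ -U z := by
      rcases hin with ⟨a, b, ha, hb⟩ | ⟨h0, -⟩
      · have hne0 : t₀ • x ≠ 0 := smul_ne (by linarith) hx
        have h1 : -a < -U (t₀ • x) :=
          limit_lt (f := fun x => -U x) ha.neg (fun x hx => h.mono_U hx) hne0
        obtain ⟨ε₁, hε₁, h3⟩ := eventually_near
          (ha.eventually (lt_mem_nhds (by linarith : U (t₀ • x) < a)))
        refine ⟨min ε₁ ‖t₀ • x‖, lt_min hε₁ (norm_pos_iff.2 hne0), fun y hy hye =>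
          ⟨t₀ • x, ⟨htf, hne0⟩, min_le_right _ _, ?_⟩⟩
        have := h3 y hy.2 (hye.le.trans (min_le_left _ _))
        linarith
      · obtain ⟨ε, hε, h1⟩ := eventually_near (hΩ0 h0)
        refine ⟨ε, hε, fun y hy hye => ?_⟩
        exfalso
        have := h1 y hy.2 hye.le
        have h2 : y ∈ interior Ω := by rw [hΩo.interior_eq]; exact this
        exact hy.1.2 h2
    exact exists_max (N := frontier Ω \ {0}) (f := fun x => -U x) h.smooth_U.continuousOn.neg
      (fun y hy => hy.2) hNc ⟨t₀ • x, htf, smul_ne (by linarith) hx⟩ hε (R := R)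
      (fun y hy => mem_closedBall_zero_iff.1 (hfR hy.1)) hε'
  have hq0 : q ≠ 0 := hq.2
  have hfr : ∀ y ∈ frontier Ω, y ≠ 0 → U q ≤ U y := fun y hy hy0 => by
    have := hmax y ⟨hy, hy0⟩; linarith
  have hin' : ∀ y ∈ Ω, y ≠ 0 → U q < U y := by
    intro y hy hy0
    obtain ⟨t, ht, htf⟩ := hexit y hy hy0
    have ht0 : 0 < t := by linarith
    have h1 := hfr _ htf (smul_ne ht0 hy0)
    have h2 := h.mono_U hy0 (mem_Ioi.2 one_pos) (mem_Ioi.2 ht0) ht
    simp only [one_smul] at h2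
    linarith
  exact ⟨q, hq0, comparison h hq0 hq.1 hT hin' hfr, hin'⟩

/-- The regions whose boundaries are weakly outer trapped surfaces: open, bounded, nonempty; they contain the
second end if there is one. -/
def TrappedRegion (S : Spacetime) (U V : E → ℝ) (Ω : Set E) : Prop :=
  IsOpen Ω ∧ Bornology.IsBounded Ω ∧ Ω.Nonempty ∧
    (Tendsto (fun x => S.r (U x, V x)) (𝓝[≠] 0) atTop → ∀ᶠ x in 𝓝[≠] (0 : E), x ∈ Ω) ∧
    OuterTrapped S U V Ω

/-- **The apparent horizon version.** One region encloses all weakly outer trapped surfaces. -/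
theorem trapped (hray : S_ray) (halg : S_alg) (hreg : S_reg) (harea : S_area) (hseg : S_seg)
    (hmono : S_mono) (hE : Energy S) (h : IsSlice S U V) {m : ℝ}
    (hend : OuterEnd S U V m) (hin : Inner S U V) (hT : ∃ Ω, TrappedRegion S U V Ω) :
    0 < m ∧ ∃ D : Set E, Admissible D ∧ (∀ Ω, TrappedRegion S U V Ω → Ω \ {0} ⊆ D) ∧
      area S U V D ≤ ENNReal.ofReal (16 * Real.pi * m ^ 2) := by
  obtain ⟨Ω₀, t1, t2, t3, t4, t5⟩ := hT
  obtain ⟨q, hq, hqv, -⟩ := trapped_point h hin t1 t2 t3 t4 t5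
  obtain ⟨hm, D, hD, hDU, hDa⟩ := enclosing hray halg hreg harea hseg hmono hE h hend hin hq hqv
  refine ⟨hm, D, hD, fun Ω hΩ y hy => ?_, hDa⟩
  obtain ⟨s1, s2, s3, s4, s5⟩ := hΩ
  obtain ⟨p, hp, hpv, hpU⟩ := trapped_point h hin s1 s2 s3 s4 s5
  exact hDU p hp hpv y hy.2 (hpU y hy.1 hy.2)

end Pool.Agent.Q90.PI
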