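import Pool.Agent.Q90.PI.First

/-! Two ends: the inequality for the surfaces which separate the ends. -/

set_option autoImplicit false

open MeasureTheory Set Filter Topology Metric
open scoped ContDiff ENNReal

namespace Pool.Agent.Q90.PI

variable {S : Spacetime} {U V : E → ℝ}

/-- The regions which contain the inner end (a punctured neighbourhood of `0`) and not the outer one, with
smooth boundary. -/
def Admissible (D : Set E) : Prop :=
  SmoothRegion D ∧ (∀ᶠ x in 𝓝[≠] (0 : E), x ∈ D) ∧ Bornology.IsBounded D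

/-- The outer end (`‖x‖ → ∞`) approaches spatial infinity: far out the points are regular, `U` is smaller and `V` is
larger than at any given point of the slice, and the Hawking mass of the spheres of symmetry
`{(U x, V x)} × S²` tends to `m`. -/
structure OuterEnd (S : Spacetime) (U V : E → ℝ) (m : ℝ) : Prop where
  regular : ∀ᶠ x in Bornology.cobounded E, du S.r (U x, V x) < 0 ∧ 0 < dv S.r (U x, V x)
  far : ∀ y, y ≠ 0 → ∀ᶠ x in Bornology.cobounded E, U x < U y ∧ V y < V x
  mass : Tendsto (fun x => mH S (U x, V x)) (Bornology.cobounded E) (𝓝 m)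

theorem IsSlice.cont_r (h : IsSlice S U V) : ContinuousOn (fun x => S.r (U x, V x)) {0}ᶜ :=
  h.contOn S.smooth_r.continuousOn

theorem IsSlice.cont_ru (h : IsSlice S U V) : ContinuousOn (fun x => du S.r (U x, V x)) {0}ᶜ :=
  h.contOn (cont_du S.isOpen S.smooth_r).continuousOn

theorem IsSlice.cont_rv (h : IsSlice S U V) : ContinuousOn (fun x => dv S.r (U x, V x)) {0}ᶜ :=
  h.contOn (cont_dv S.isOpen S.smooth_r).continuousOn

theorem eventually_near {P : E → Prop} (h : ∀ᶠ x in 𝓝[≠] (0 : E), P x) :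
    ∃ ε > 0, ∀ x, x ≠ 0 → ‖x‖ ≤ ε → P x := by
  rw [eventually_nhdsWithin_iff, Metric.eventually_nhds_iff] at h
  obtain ⟨ε, hε, h⟩ := h
  refine ⟨ε / 2, by linarith, fun x hx hxe => h (y := x) ?_ hx⟩
  rw [dist_zero_right]; linarith

theorem near_eventually {P : E → Prop} {ε : ℝ} (hε : 0 < ε) (h : ∀ x, x ≠ 0 → ‖x‖ ≤ ε → P x) :
    ∀ᶠ x in 𝓝[≠] (0 : E), P x := by
  rw [eventually_nhdsWithin_iff, Metric.eventually_nhds_iff]
  refine ⟨ε, hε, fun x hx hx0 => h x hx0 ?_⟩
  rw [dist_zero_right] at hx; exact hx.le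

theorem eventually_far {P : E → Prop} (h : ∀ᶠ x in Bornology.cobounded E, P x) :
    ∃ R > 0, ∀ x : E, R ≤ ‖x‖ → P x := by
  obtain ⟨R, -, hR⟩ := (hasBasis_cobounded_norm (E := E)).eventually_iff.1 h
  refine ⟨max R 1, by positivity, fun x hx => hR ?_⟩
  exact (le_max_left R 1).trans hx

/-- the first point of the slice which is not regular -/
theorem first_point (h : IsSlice S U V) {R : ℝ} (hR0 : 0 < R)
    (hR : ∀ x, R ≤ ‖x‖ → Reg S U V x)
    (h0 : Tendsto (fun x => S.r (U x, V x)) (𝓝[≠] 0) atTop) :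
    ∃ x₀, x₀ ≠ 0 ∧ ¬ Reg S U V x₀ ∧ ∀ x, x ≠ 0 → ¬ Reg S U V x → U x₀ ≤ U x := by
  have hsph : IsCompact (shell R R) := isCompact_shell R R
  obtain ⟨K, hK⟩ := (hsph.bddAbove_image (f := fun x => S.r (U x, V x))
    (h.cont_r.mono (shell_ne hR0)))
  have hK' : ∀ x : E, ‖x‖ = R → S.r (U x, V x) ≤ K := fun x hx =>
    hK ⟨x, ⟨hx.ge, hx.le⟩, rfl⟩
  obtain ⟨ε₀, hε₀, h1⟩ := eventually_near (h0.eventually_gt_atTop K)
  set ε := min ε₀ (R / 2) with hε
  have hε1 : 0 < ε := lt_min hε₀ (by linarith)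
  have hεR : ε < R := (min_le_right _ _).trans_lt (by linarith)
  have hεr : ∀ x, x ≠ 0 → ‖x‖ ≤ ε → K < S.r (U x, V x) := fun x hx hxe =>
    h1 x hx (hxe.trans (min_le_left _ _))
  -- each ray has a point which is not regular
  have key : ∀ x : E, x ≠ 0 → ∃ t : ℝ, 0 < t ∧ ε ≤ ‖t • x‖ ∧ ‖t • x‖ ≤ R ∧ ¬ Reg S U V (t • x) := by
    intro x hx
    by_contra hcon
    push Not at hcon
    have hn : 0 < ‖x‖ := norm_pos_iff.2 hx
    set a := ε / ‖x‖
    set b := R / ‖x‖
    have ha : 0 < a := by positivity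
    have hab : a < b := div_lt_div_of_pos_right hεR hn
    have hmono : StrictMonoOn (fun t : ℝ => S.r (U (t • x), V (t • x))) (Icc a b) := by
      have hd : ∀ t : ℝ, 0 < t → HasDerivAt (fun t : ℝ => S.r (U (t • x), V (t • x)))
          (fderiv ℝ (fun y => S.r (U y, V y)) (t • x) x) t := fun t ht =>
        hasDerivAt_ray (f := fun y => S.r (U y, V y)) (h.comp_fderiv (smul_ne ht hx)
          ((S.smooth_r.contDiffAt (S.isOpen.mem_nhds (h.mem _ (smul_ne ht hx)))).differentiableAt
            (by simp))).1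
      apply strictMonoOn_of_deriv_pos (convex_Icc a b)
      · intro t ht
        exact (hd t (ha.trans_le ht.1)).continuousAt.continuousWithinAt
      · intro t ht
        rw [interior_Icc] at ht
        have ht0 : 0 < t := ha.trans ht.1
        rw [(hd t ht0).deriv]
        have hreg : Reg S U V (t • x) := by
          apply hcon t ht0
          · rw [norm_smul, Real.norm_of_nonneg ht0.le]
            have := ht.1
            rw [div_lt_iff₀ hn] at this
            exact this.le
          · rw [norm_smul, Real.norm_of_nonneg ht0.le]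
            have := ht.2
            rw [lt_div_iff₀ hn] at this
            exact this.le
        rw [(h.comp_fderiv (smul_ne ht0 hx)
          ((S.smooth_r.contDiffAt (S.isOpen.mem_nhds (h.mem _ (smul_ne ht0 hx)))).differentiableAt
            (by simp))).2 x, fderiv_ray ht0.ne', fderiv_ray ht0.ne']
        have u1 := h.outward _ (smul_ne ht0 hx)
        have u2 := h.V_pos (smul_ne ht0 hx)
        have hti : 0 < t⁻¹ := inv_pos.2 ht0
        have p1 : 0 < fderiv ℝ U (t • x) (t • x) * du S.r (U (t • x), V (t • x)) :=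
          mul_pos_of_neg_of_neg u1 hreg.1
        have p2 : 0 < fderiv ℝ V (t • x) (t • x) * dv S.r (U (t • x), V (t • x)) :=
          mul_pos u2 hreg.2
        have := mul_pos hti (add_pos p1 p2)
        linarith
    have h2 := hmono (left_mem_Icc.2 hab.le) (right_mem_Icc.2 hab.le) hab
    simp only at h2
    have h3 : ‖a • x‖ = ε := by
      rw [norm_smul, Real.norm_of_nonneg ha.le]; simp only [a]; field_simp
    have h4 : ‖b • x‖ = R := by
      rw [norm_smul, Real.norm_of_nonneg (ha.trans hab).le]; simp only [b]; field_simp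
    have h5 := hεr (a • x) (smul_ne ha hx) h3.le
    have h6 := hK' (b • x) h4
    linarith
  set N : Set E := {x | x ≠ 0 ∧ ¬ Reg S U V x} with hNdef
  have hNc : ∀ ε R : ℝ, 0 < ε → IsCompact (shell ε R ∩ N) := by
    intro ε R hε
    have h1 := compact_set h.cont_ru ε R hε
    have h2 := compact_set h.cont_rv.neg ε R hε
    have : shell ε R ∩ N = (shell ε R ∩ {x | 0 ≤ du S.r (U x, V x)}) ∪
        (shell ε R ∩ {x | 0 ≤ -dv S.r (U x, V x)}) := by
      ext x
      simp only [hNdef, Reg, mem_inter_iff, mem_setOf_eq, mem_union, not_and_or, not_lt]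
      constructor
      · rintro ⟨hs, -, h3 | h3⟩
        · exact Or.inl ⟨hs, h3⟩
        · exact Or.inr ⟨hs, by linarith⟩
      · rintro (⟨hs, h3⟩ | ⟨hs, h3⟩)
        · exact ⟨hs, shell_ne hε hs, Or.inl h3⟩
        · exact ⟨hs, shell_ne hε hs, Or.inr (by linarith)⟩
    rw [this]
    exact h1.union h2
  have he : e 0 ≠ 0 := by
    intro h
    have := congrArg (fun y : E => y 0) h
    simp [e] at this
  obtain ⟨t, ht, -, -, hN1⟩ := key (e 0) he
  obtain ⟨x₁, hx₁, hmax⟩ := exists_max (N := N) (f := fun x => -U x) h.smooth_U.continuousOn.neg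
    (fun x hx => hx.1) hNc ⟨t • e 0, smul_ne ht he, hN1⟩ hε1 (R := R)
    (fun x hx => by
      by_contra hcon
      push Not at hcon
      exact hx.2 (hR x hcon.le)) (fun x hx hxe => by
      obtain ⟨s, hs, h2, h3, h4⟩ := key x hx.1
      refine ⟨s • x, ⟨smul_ne hs hx.1, h4⟩, h2, ?_⟩
      have hs1 : 1 < s := by
        by_contra hcon
        push Not at hcon
        rw [norm_smul, Real.norm_of_nonneg hs.le] at h2
        have := mul_le_mul_of_nonneg_right hcon (norm_nonneg x)
        linarith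
      have := h.mono_U hx.1 (mem_Ioi.2 one_pos) (mem_Ioi.2 hs) hs1
      simp only [one_smul] at this
      exact this.le)
  refine ⟨x₁, hx₁.1, hx₁.2, fun x hx hxN => ?_⟩
  have := hmax x ⟨hx, hxN⟩
  linarith

theorem admissible_of {f : E → ℝ} {c ε R : ℝ} (hs : SmoothRegion {x | x ≠ 0 ∧ f x < c}) (hε : 0 < ε)
    (h1 : ∀ x, x ≠ 0 → ‖x‖ ≤ ε → f x < c) (h2 : ∀ x, R ≤ ‖x‖ → c < f x) :
    Admissible {x | x ≠ 0 ∧ f x < c} := by
  refine ⟨hs, near_eventually hε fun x hx hxe => ⟨hx, h1 x hx hxe⟩, ?_⟩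
  refine (isBounded_ball (x := (0 : E)) (r := R)).subset fun x hx => ?_
  rw [mem_ball_zero_iff]
  by_contra hcon
  push Not at hcon
  have := h2 x hcon
  have := hx.2
  linarith

theorem FlatEnd.outer (hinf : S_inf) (h : IsSlice S U V) {m : ℝ} (hflat : FlatEnd S U V m) :
    OuterEnd S U V m := by
  obtain ⟨hreg1, hlim⟩ := hinf S U V m h hflat
  obtain ⟨R₀, hsym⟩ := hflat.symmetric
  refine ⟨hreg1, fun y hy => ?_, hlim⟩
  obtain ⟨R, hR0, hR⟩ := far_out h hsym hy
  refine (hasBasis_cobounded_norm (E := E)).eventually_iff.2 ⟨R, trivial, fun x hx => hR x hx⟩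

theorem OuterEnd.far_out {m : ℝ} (hend : OuterEnd S U V m) {x₀ : E} (hx₀ : x₀ ≠ 0) :
    ∃ R : ℝ, 0 < R ∧ ∀ x, R ≤ ‖x‖ → U x < U x₀ ∧ V x₀ < V x :=
  eventually_far (hend.far x₀ hx₀)

/-- **Two ends.** -/
theorem two_ends (hray : S_ray) (halg : S_alg) (hreg : S_reg) (harea : S_area) (hseg : S_seg)
    (hmono : S_mono) (hE : Energy S) (h : IsSlice S U V) {m : ℝ}
    (hend : OuterEnd S U V m) (h0 : Tendsto (fun x => S.r (U x, V x)) (𝓝[≠] 0) atTop) :
    0 < m ∧ ∃ D : Set E, Admissible D ∧ area S U V D ≤ ENNReal.ofReal (16 * Real.pi * m ^ 2) := by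
  obtain ⟨R₁, hR₁0, hR₁⟩ := eventually_far hend.regular
  obtain ⟨x₀, hx₀, hN, hmin⟩ := first_point h hR₁0 hR₁ h0
  have hray1 : ∀ t : ℝ, 1 < t → Reg S U V (t • x₀) := by
    intro t ht
    have ht0 : 0 < t := by linarith
    by_contra hcon
    have h1 := hmin _ (smul_ne ht0 hx₀) hcon
    have h2 := h.mono_U hx₀ (mem_Ioi.2 one_pos) (mem_Ioi.2 ht0) ht
    simp only [one_smul] at h2
    linarith
  have hru : du S.r (U x₀, V x₀) ≤ 0 := by
    have := ray_limit (g := fun x => -du S.r (U x, V x)) h.cont_ru.neg hx₀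
      (fun t ht => by have := (hray1 t ht).1; linarith)
    linarith
  have hrv : 0 ≤ dv S.r (U x₀, V x₀) :=
    ray_limit (g := fun x => dv S.r (U x, V x)) h.cont_rv hx₀ (fun t ht => (hray1 t ht).2.le)
  have hzero : du S.r (U x₀, V x₀) = 0 ∨ dv S.r (U x₀, V x₀) = 0 := by
    by_contra hcon
    push Not at hcon
    exact hN ⟨lt_of_le_of_ne hru hcon.1, lt_of_le_of_ne hrv (Ne.symm hcon.2)⟩
  have hm := mass_ray hmono hE h hend.mass hx₀ hray1
  rw [mH_half hzero] at hm
  have hr := S.r_pos _ (h.mem x₀ hx₀)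
  obtain ⟨R, hR0, hfar⟩ := hend.far_out hx₀
  obtain ⟨ε, hε, hnear⟩ := eventually_near (h0.eventually_gt_atTop (S.r (U x₀, V x₀)))
  have hz : ∀ z, z ≠ 0 → S.r (U z, V z) ≤ S.r (U x₀, V x₀) → ε ≤ ‖z‖ := by
    intro z hz h1
    by_contra hcon
    push Not at hcon
    have := hnear z hz hcon.le
    linarith
  have harea' : ENNReal.ofReal (4 * Real.pi * S.r (U x₀, V x₀) ^ 2) ≤
      ENNReal.ofReal (16 * Real.pi * m ^ 2) := by
    apply ENNReal.ofReal_le_ofReal
    have h1 : S.r (U x₀, V x₀) ^ 2 ≤ (2 * m) ^ 2 := by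
      apply pow_le_pow_left₀ hr.le; linarith
    nlinarith [Real.pi_pos]
  refine ⟨by linarith, ?_⟩
  rcases hzero with h1 | h1
  · obtain ⟨-, -, k3, k4⟩ := level_V hray harea halg hseg hE h hx₀ h1 hε (R := R)
      (fun z hz0 _ h2 => hz z hz0 h2) (fun x hx => (hfar x hx).2)
    exact ⟨_, admissible_of (hreg V h.smooth_V (fun x hx => h.V_pos hx) _) (half_pos hε) k3
      (fun x hx => (hfar x hx).2), k4.trans harea'⟩
  · obtain ⟨-, -, k3, k4⟩ := level_U hray harea halg hseg hE h hx₀ h1 hε (R := R)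
      (fun z hz0 _ h2 => hz z hz0 h2) (fun x hx => (hfar x hx).1)
    refine ⟨_, admissible_of (f := fun x => -U x) (c := -U x₀) (R := R)
      (hreg (fun x => -U x) h.smooth_U.neg (fun x hx => ?_) _) (half_pos hε)
      (fun x hx hxe => by have := k3 x hx hxe; linarith)
      (fun x hx => by have := (hfar x hx).1; linarith), k4.trans harea'⟩
    rw [fderiv_fun_neg]
    have := h.outward x hx
    simpa using this

end Pool.Agent.Q90.PI
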